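import Mathlib

set_option autoImplicit false

namespace Pool.Agent.P.MP_ea54b6_co

open Finset

/-- colours seen on a finite vertex set -/
def cols {α K : Type} (v : α → Option K) (e : Finset α → Option K) (X : Finset α) : Set K :=
  {c | (∃ x ∈ X, v x = some c) ∨ ∃ s, s ⊆ X ∧ s.card = 2 ∧ e s = some c}

noncomputable def ncol {α K : Type} (v : α → Option K) (e : Finset α → Option K)
    (X : Finset α) : ℕ := (cols v e X).ncard

def Good (C M : ℕ) : Prop :=
  ∃ (α K : Type) (U : Finset α) (v : α → Option K) (e : Finset α → Option K),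
    ncol v e U = C ∧ ∀ X ⊆ U, ncol v e X ≠ M

noncomputable def ncl {α P : Type} (cl : α → Option P) (X : Finset α) : ℕ :=
  {c | ∃ x ∈ X, cl x = some c}.ncard

def T (n : ℕ) : ℕ := n.choose 2

lemma T_succ (n : ℕ) : T (n + 1) = T n + n := by
  unfold T
  rw [Nat.choose_succ_succ' n 1]
  simp [add_comm]

lemma T_mono {a b : ℕ} (h : a ≤ b) : T a ≤ T b := Nat.choose_le_choose 2 h

lemma T_zero : T 0 = 0 := rfl
lemma T_one : T 1 = 0 := rfl

lemma two_T (n : ℕ) : 2 * T (n + 1) = (n + 1) * n := by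
  induction n with
  | zero => rfl
  | succ n ih => rw [T_succ]; nlinarith

lemma cols_finite {α K : Type} (v : α → Option K) (e : Finset α → Option K) (X : Finset α) :
    (cols v e X).Finite := by
  classical
  have h : (some '' cols v e X) ⊆ ↑(X.image v ∪ X.powerset.image e) := by
    rintro _ ⟨c, hc, rfl⟩
    rcases hc with ⟨x, hx, h⟩ | ⟨s, hs, -, h⟩
    · simp only [coe_union, coe_image, Set.mem_union, Set.mem_image, mem_coe]
      exact Or.inl ⟨x, hx, h⟩
    · simp only [coe_union, coe_image, Set.mem_union, Set.mem_image, mem_coe]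
      exact Or.inr ⟨s, mem_powerset.2 hs, h⟩
  exact Set.Finite.of_finite_image ((Finset.finite_toSet _).subset h)
    (Option.some_injective K).injOn

lemma cols_mono {α K : Type} (v : α → Option K) (e : Finset α → Option K) {X Y : Finset α}
    (h : X ⊆ Y) : cols v e X ⊆ cols v e Y := by
  rintro c (⟨x, hx, h1⟩ | ⟨s, hs, h2, h1⟩)
  · exact Or.inl ⟨x, h hx, h1⟩
  · exact Or.inr ⟨s, hs.trans h, h2, h1⟩

lemma ncol_mono {α K : Type} (v : α → Option K) (e : Finset α → Option K) {X Y : Finset α}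
    (h : X ⊆ Y) : ncol v e X ≤ ncol v e Y :=
  Set.ncard_le_ncard (cols_mono v e h) (cols_finite v e Y)

lemma cl_finite {α P : Type} (cl : α → Option P) (X : Finset α) :
    {c | ∃ x ∈ X, cl x = some c}.Finite := by
  classical
  have h : (some '' {c | ∃ x ∈ X, cl x = some c}) ⊆ ↑(X.image cl) := by
    rintro _ ⟨c, ⟨x, hx, h⟩, rfl⟩
    simp only [coe_image, Set.mem_image, mem_coe]
    exact ⟨x, hx, h⟩
  exact Set.Finite.of_finite_image ((Finset.finite_toSet _).subset h)
    (Option.some_injective P).injOn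

lemma ncl_mono {α P : Type} (cl : α → Option P) {X Y : Finset α} (h : X ⊆ Y) :
    ncl cl X ≤ ncl cl Y :=
  Set.ncard_le_ncard (fun _ ⟨x, hx, h1⟩ => ⟨x, h hx, h1⟩) (cl_finite cl Y)

lemma ncl_some {α P : Type} [DecidableEq P] (g : α → P) (X : Finset α) :
    ncl (fun x => some (g x)) X = (X.image g).card := by
  unfold ncl
  rw [← Set.ncard_coe_finset]
  congr 1
  ext c
  simp

lemma ncl_none {α P : Type} (X : Finset α) : ncl (fun _ => (none : Option P)) X = 0 := by
  unfold ncl
  simp

/-- number of active pair gadgets -/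
def act {α ι : Type} [DecidableEq α] (I : Finset ι) (E1 E2 : ι → Finset α) (X : Finset α) : ℕ :=
  (I.filter fun i => E1 i ⊆ X ∧ E2 i ⊆ X).card

structure Pairs {α ι : Type} (I : Finset ι) (E1 E2 : ι → Finset α) : Prop where
  c1 : ∀ i ∈ I, (E1 i).card = 2
  c2 : ∀ i ∈ I, (E2 i).card = 2
  i1 : ∀ i ∈ I, ∀ j ∈ I, E1 i = E1 j → i = j
  i2 : ∀ i ∈ I, ∀ j ∈ I, E2 i = E2 j → i = j
  ne : ∀ i ∈ I, ∀ j ∈ I, E1 i ≠ E2 j

theorem PG {α ι P : Type} [DecidableEq α] (cl : α → Option P) (I : Finset ι)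
    (E1 E2 : ι → Finset α) (h : Pairs I E1 E2) :
    ∃ (K : Type) (v : α → Option K) (e : Finset α → Option K),
      ∀ X, ncol v e X + act I E1 E2 X = T X.card + ncl cl X := by
  classical
  let ρ : Finset α → Finset α := fun s => if h : ∃ i ∈ I, E2 i = s then E1 h.choose else s
  have ρ2 : ∀ i ∈ I, ρ (E2 i) = E1 i := by
    intro i hi
    have hh : ∃ j ∈ I, E2 j = E2 i := ⟨i, hi, rfl⟩
    simp only [ρ, dif_pos hh]
    rw [h.i2 _ hh.choose_spec.1 _ hi hh.choose_spec.2]
  have ρ0 : ∀ s, (¬ ∃ i ∈ I, E2 i = s) → ρ s = s := by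
    intro s hs
    simp only [ρ, dif_neg hs]
  refine ⟨Finset α ⊕ P, fun x => (cl x).map Sum.inr, fun s => some (Sum.inl (ρ s)), fun X => ?_⟩
  have hc : cols (fun x => (cl x).map Sum.inr) (fun s => some (Sum.inl (ρ s))) X =
      (Sum.inl '' (↑((X.powersetCard 2).image ρ) : Set (Finset α))) ∪
        (Sum.inr '' {c | ∃ x ∈ X, cl x = some c}) := by
    ext c
    constructor
    · rintro (⟨x, hx, h1⟩ | ⟨s, hs, h2, h1⟩)
      · right
        rcases hcl : cl x with _ | p
        · simp [hcl] at h1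
        · simp only [hcl, Option.map_some, Option.some.injEq] at h1
          exact ⟨p, ⟨x, hx, hcl⟩, h1⟩
      · left
        simp only [Option.some.injEq] at h1
        exact ⟨ρ s, by
          simp only [coe_image, Set.mem_image, mem_coe]
          exact ⟨s, mem_powersetCard.2 ⟨hs, h2⟩, rfl⟩, h1⟩
    · rintro (⟨t, ht, rfl⟩ | ⟨p, ⟨x, hx, hp⟩, rfl⟩)
      · simp only [coe_image, Set.mem_image, mem_coe] at ht
        obtain ⟨s, hs, rfl⟩ := ht
        exact Or.inr ⟨s, (mem_powersetCard.1 hs).1, (mem_powersetCard.1 hs).2, rfl⟩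
      · exact Or.inl ⟨x, hx, by simp [hp]⟩
  unfold ncol
  rw [hc, Set.ncard_union_eq _ ((Finset.finite_toSet _).image _) ((cl_finite cl X).image _),
    Set.ncard_image_of_injective _ Sum.inl_injective,
    Set.ncard_image_of_injective _ Sum.inr_injective, Set.ncard_coe_finset]
  swap
  · rw [Set.disjoint_left]
    rintro _ ⟨t, -, rfl⟩ ⟨p, -, hp⟩
    simp at hp
  set A := I.filter fun i => E1 i ⊆ X ∧ E2 i ⊆ X with hA
  have hB : (A.image E2).card = A.card := by
    apply card_image_of_injOn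
    intro i hi j hj hij
    exact h.i2 i (mem_filter.1 hi).1 j (mem_filter.1 hj).1 hij
  have hBs : A.image E2 ⊆ X.powersetCard 2 := by
    intro s hs
    obtain ⟨i, hi, rfl⟩ := mem_image.1 hs
    exact mem_powersetCard.2 ⟨(mem_filter.1 hi).2.2, h.c2 i (mem_filter.1 hi).1⟩
  have himg : (X.powersetCard 2).image ρ = (X.powersetCard 2 \ A.image E2).image ρ := by
    apply Subset.antisymm
    · intro t ht
      obtain ⟨s, hs, rfl⟩ := mem_image.1 ht
      by_cases hsB : s ∈ A.image E2
      · obtain ⟨i, hi, rfl⟩ := mem_image.1 hsB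
        have hiI := (mem_filter.1 hi).1
        have hn : ¬ ∃ j ∈ I, E2 j = E1 i := fun ⟨j, hj, hh⟩ => h.ne i hiI j hj hh.symm
        refine mem_image.2 ⟨E1 i, mem_sdiff.2 ⟨mem_powersetCard.2
          ⟨(mem_filter.1 hi).2.1, h.c1 i hiI⟩, ?_⟩, ?_⟩
        · intro hm
          obtain ⟨j, hj, hh⟩ := mem_image.1 hm
          exact hn ⟨j, (mem_filter.1 hj).1, hh⟩
        · rw [ρ0 _ hn, ρ2 i hiI]
      · exact mem_image.2 ⟨s, mem_sdiff.2 ⟨hs, hsB⟩, rfl⟩
    · exact image_subset_image sdiff_subset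
  have key : ∀ s ∈ X.powersetCard 2 \ A.image E2, ∀ t ∈ X.powersetCard 2 \ A.image E2,
      (∃ i ∈ I, E2 i = s) → (¬ ∃ i ∈ I, E2 i = t) → ρ s ≠ ρ t := by
    rintro s hs t ht ⟨i, hi, rfl⟩ hn heq
    rw [ρ2 i hi, ρ0 _ hn] at heq
    apply (mem_sdiff.1 hs).2
    refine mem_image.2 ⟨i, mem_filter.2 ⟨hi, ?_, (mem_powersetCard.1 (mem_sdiff.1 hs).1).1⟩, rfl⟩
    rw [heq]
    exact (mem_powersetCard.1 (mem_sdiff.1 ht).1).1
  have hinj : ((X.powersetCard 2 \ A.image E2).image ρ).card =
      (X.powersetCard 2 \ A.image E2).card := by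
    apply card_image_of_injOn
    intro s hs t ht heq
    by_cases h1 : ∃ i ∈ I, E2 i = s <;> by_cases h2 : ∃ i ∈ I, E2 i = t
    · obtain ⟨i, hi, rfl⟩ := h1
      obtain ⟨j, hj, rfl⟩ := h2
      rw [ρ2 i hi, ρ2 j hj] at heq
      rw [h.i1 i hi j hj heq]
    · exact absurd heq (key s hs t ht h1 h2)
    · exact absurd heq.symm (key t ht s hs h2 h1)
    · rwa [ρ0 _ h1, ρ0 _ h2] at heq
  have h3 := card_sdiff_add_card_eq_card hBs
  rw [card_powersetCard] at h3
  rw [himg, hinj]
  unfold act T ncl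
  rw [← hA]
  omega

lemma act_full {α ι : Type} [DecidableEq α] {I : Finset ι} {E1 E2 : ι → Finset α} {U : Finset α}
    (h : ∀ i ∈ I, E1 i ⊆ U ∧ E2 i ⊆ U) : act I E1 E2 U = I.card := by
  unfold act
  rw [filter_true_of_mem h]

/-- threshold criterion -/
theorem good_of_thr {α K : Type} (U : Finset α) (v : α → Option K) (e : Finset α → Option K)
    {C M j : ℕ} (hC : ncol v e U = C)
    (h1 : ∀ X ⊆ U, X.card < j → ncol v e X ≠ M)
    (h2 : ∀ X ⊆ U, X.card = j → M < ncol v e X) : Good C M := by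
  refine ⟨α, K, U, v, e, hC, fun X hX => ?_⟩
  rcases lt_or_ge X.card j with h | h
  · exact h1 X hX h
  · obtain ⟨Y, hY, hYc⟩ := exists_subset_card_eq h
    have := h2 Y (hY.trans hX) hYc
    have := ncol_mono v e hY
    omega

/-- vertex classes and weight one gadgets -/
theorem TH {α ι P : Type} [DecidableEq α] (U : Finset α) (cl : α → Option P) (I : Finset ι)
    (E1 E2 : ι → Finset α) (h : Pairs I E1 E2) (hU : ∀ i ∈ I, E1 i ⊆ U ∧ E2 i ⊆ U)
    {C M k a p : ℕ} (hM : M + a = T (k + 1)) (hp : ncl cl U = p)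
    (hC : C + I.card = T U.card + p) (hpb : p + a < k)
    (hX : ∀ X ⊆ U, X.card = k + 1 → act I E1 E2 X < a + ncl cl X) : Good C M := by
  obtain ⟨K, v, e, hf⟩ := PG cl I E1 E2 h
  refine good_of_thr U v e (j := k + 1) ?_ ?_ ?_
  · have := hf U
    rw [act_full hU, hp] at this
    omega
  · intro X hXU hc
    have h1 := hf X
    have h2 := ncl_mono cl hXU
    have h3 : T X.card ≤ T k := T_mono (by omega)
    have h4 := T_succ k
    omega
  · intro X hXU hc
    have h1 := hf X
    have h2 := hX X hXU hc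
    rw [hc] at h1
    omega

/-- disjoint union -/
theorem union {α β K L : Type} [DecidableEq α] [DecidableEq β]
    (v1 : α → Option K) (e1 : Finset α → Option K) (v2 : β → Option L) (e2 : Finset β → Option L) :
    ∃ (v : α ⊕ β → Option (K ⊕ L)) (e : Finset (α ⊕ β) → Option (K ⊕ L)),
      ∀ X, ncol v e X = ncol v1 e1 X.toLeft + ncol v2 e2 X.toRight := by
  classical
  refine ⟨Sum.elim (fun x => (v1 x).map Sum.inl) (fun y => (v2 y).map Sum.inr),
    fun s => if s.toRight = ∅ then (e1 s.toLeft).map Sum.inl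
      else if s.toLeft = ∅ then (e2 s.toRight).map Sum.inr else none, fun X => ?_⟩
  have hc : cols (Sum.elim (fun x => (v1 x).map Sum.inl) (fun y => (v2 y).map Sum.inr))
      (fun s : Finset (α ⊕ β) => if s.toRight = ∅ then (e1 s.toLeft).map Sum.inl
      else if s.toLeft = ∅ then (e2 s.toRight).map Sum.inr else none) X =
      (Sum.inl '' cols v1 e1 X.toLeft) ∪ (Sum.inr '' cols v2 e2 X.toRight) := by
    ext c
    constructor
    · rintro (⟨x, hx, h1⟩ | ⟨s, hs, h2, h1⟩)
      · rcases x with x | x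
        · simp only [Sum.elim_inl, Option.map_eq_some_iff] at h1
          obtain ⟨c, h1, rfl⟩ := h1
          exact Or.inl ⟨c, Or.inl ⟨x, by simpa using hx, h1⟩, rfl⟩
        · simp only [Sum.elim_inr, Option.map_eq_some_iff] at h1
          obtain ⟨c, h1, rfl⟩ := h1
          exact Or.inr ⟨c, Or.inl ⟨x, by simpa using hx, h1⟩, rfl⟩
      · have hcard := card_toLeft_add_card_toRight (u := s)
        by_cases hr : s.toRight = ∅
        · simp only [hr, if_true, Option.map_eq_some_iff] at h1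
          obtain ⟨c, h1, rfl⟩ := h1
          refine Or.inl ⟨c, Or.inr ⟨s.toLeft, toLeft_subset_toLeft hs, ?_, h1⟩, rfl⟩
          rw [hr] at hcard
          simpa [h2] using hcard
        · by_cases hl : s.toLeft = ∅
          · simp only [hr, hl, if_true, if_false, Option.map_eq_some_iff] at h1
            obtain ⟨c, h1, rfl⟩ := h1
            refine Or.inr ⟨c, Or.inr ⟨s.toRight, toRight_subset_toRight hs, ?_, h1⟩, rfl⟩
            rw [hl] at hcard
            simpa [h2] using hcard
          · simp [hr, hl] at h1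
    · rintro (⟨c, (⟨x, hx, h1⟩ | ⟨s, hs, h2, h1⟩), rfl⟩ | ⟨c, (⟨x, hx, h1⟩ | ⟨s, hs, h2, h1⟩), rfl⟩)
      · exact Or.inl ⟨Sum.inl x, by simpa using hx, by simp [h1]⟩
      · refine Or.inr ⟨s.map Function.Embedding.inl, ?_, by simpa using h2, ?_⟩
        · intro z hz
          obtain ⟨x, hx, rfl⟩ := mem_map.1 hz
          simpa using hs hx
        · have a1 : (s.map (Function.Embedding.inl (β := β))).toRight = ∅ := by
            ext y; simp
          have a2 : (s.map (Function.Embedding.inl (β := β))).toLeft = s := by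
            ext y; simp
          simp only [a1, a2, if_true, h1, Option.map_some]
      · exact Or.inl ⟨Sum.inr x, by simpa using hx, by simp [h1]⟩
      · refine Or.inr ⟨s.map Function.Embedding.inr, ?_, by simpa using h2, ?_⟩
        · intro z hz
          obtain ⟨x, hx, rfl⟩ := mem_map.1 hz
          simpa using hs hx
        · have a1 : (s.map (Function.Embedding.inr (α := α))).toLeft = ∅ := by
            ext y; simp
          have a2 : (s.map (Function.Embedding.inr (α := α))).toRight = s := by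
            ext y; simp
          have a3 : s ≠ ∅ := by
            rintro rfl
            simp at h2
          simp only [a1, a2, a3, if_true, if_false, h1, Option.map_some]
  unfold ncol
  rw [hc, Set.ncard_union_eq _ ((cols_finite _ _ _).image _) ((cols_finite _ _ _).image _),
    Set.ncard_image_of_injective _ Sum.inl_injective,
    Set.ncard_image_of_injective _ Sum.inr_injective]
  rw [Set.disjoint_left]
  rintro _ ⟨t, -, rfl⟩ ⟨p, -, hp⟩
  simp at hp

end Pool.Agent.P.MP_ea54b6_co
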