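import Mathlib

set_option autoImplicit false

namespace Pool.Agent.P.MP_ea54b6_co

structure Box where
  k1 : ℕ
  k2 : ℕ
  a1s : ℤ
  a1t : ℤ
  a2s : ℤ
  a2t : ℤ
  n1s : ℤ
  n1t : ℤ
  n2s : ℤ
  n2t : ℤ

def nonpos (S T : ℤ) (B : Box) : Bool :=
  decide (S * B.k1 + T ≤ 0) && (if B.k2 = 0 then decide (S ≤ 0) else decide (S * B.k2 + T ≤ 0))

def ub (ck ca cn c0 : ℤ) (B : Box) : Bool :=
  nonpos (6000 * ck + ca * (if 0 ≤ ca then B.a2s else B.a1s) + cn * (if 0 ≤ cn then B.n2s else B.n1s))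
    (6000 * c0 + ca * (if 0 ≤ ca then B.a2t else B.a1t) + cn * (if 0 ≤ cn then B.n2t else B.n1t)
      - 5999) B

def emp (B : Box) : Bool :=
  nonpos (B.a2s - B.a1s) (B.a2t - B.a1t + 1) B || nonpos (B.n2s - B.n1s) (B.n2t - B.n1t + 1) B

def nrm (B : Box) : Box :=
  if B.k1 = B.k2 ∧ B.k2 ≠ 0 then
    ⟨B.k1, B.k2, 0, 6000 * (-((-(B.a1s * B.k1 + B.a1t)) / 6000)), 0,
      6000 * ((B.a2s * B.k1 + B.a2t) / 6000), 0, 6000 * (-((-(B.n1s * B.k1 + B.n1t)) / 6000)), 0,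
      6000 * ((B.n2s * B.k1 + B.n2t) / 6000)⟩
  else B

def bl (r : ℕ) : ℕ → ℕ → ℕ → ℕ
  | 0, lo, _ => lo
  | f + 1, lo, w => cond (Nat.ble (Nat.pow 2 (Nat.add lo w)) r) (bl r f (Nat.add lo w) (Nat.div w 2))
      (bl r f lo (Nat.div w 2))

def lgs : ℕ → ℕ → ℕ → ℕ
  | 0, x, e => Nat.add e (cond (Nat.ble x 2199023255552) 41 x)
  | f + 1, x, e => cond (Nat.ble (Nat.mul x x) 2417851639229258349412352)
      (lgs f (Nat.succ (Nat.div (Nat.mul x x) 1099511627776)) (Nat.add (Nat.mul 2 e) 40))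
      (lgs f (Nat.succ (Nat.div (Nat.mul x x) 2199023255552)) (Nat.add (Nat.mul 2 e) 41))

def lgr (r s : ℕ) : ℤ := Int.subNatNat (lgs 12 (Nat.succ (Nat.div r (Nat.pow 2 s))) s) 393216

def lgq (r : ℕ) : ℤ := lgr r (Nat.sub (bl r 13 0 4096) 40)

def lg (num den : ℕ) : ℤ :=
  lgq (Nat.succ (Nat.div (Nat.mul num 79228162514264337593543950336) den))

structure DF where
  gd : ℤ
  fk : ℤ
  fa : ℤ
  fn : ℤ
  f0 : ℤ

def dform (ty c : ℕ) : DF :=
  if ty = 0 then ⟨1, -2, 1, 1, 0⟩ else if ty = 1 then ⟨c, -1, c, 1, -1⟩ else ⟨16, 0, 16 + c, 0, 0⟩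

def dok (ty c : ℕ) (B : Box) : Bool :=
  if ty = 0 then true else if ty = 1 then decide (1 ≤ c) && ub (-1) c 0 (2 - c) B
  else ub (-16 - c) c 16 (-16) B

def Tc (n : ℕ) : ℕ := n * (n - 1) / 2

def lgL (θ zn t : ℕ) : ℤ := lg ((θ - 1) * 4096 ^ t + (4096 + zn) ^ t) (θ * 4096 ^ t)

def igFin (d : DF) (LT LU LZ A Bc : ℤ) (B : Box) : Bool :=
  ub (d.gd * (LZ + A) + LU * (d.fk + d.gd)) (d.gd * (LT - A) + LU * (d.fa - d.gd))
    (d.gd * Bc + LU * d.fn) (d.gd * (LZ - A) + LU * (d.f0 - d.gd) + 1) B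

def chords (d : DF) (LT LU LZ : ℤ) (θ zn : ℕ) (B : Box) : ℕ → ℕ → Bool
  | 0, _ => true
  | f + 1, j => igFin d LT LU LZ (lgL θ zn j - j * (lgL θ zn (j + 1) - lgL θ zn j))
      (lgL θ zn (j + 1) - lgL θ zn j) B && chords d LT LU LZ θ zn B f (j + 1)

def uok (d : DF) (mode nmin x ρ : ℕ) (B : Box) : Bool :=
  if mode = 1 then
    decide (B.k2 ≠ 0) && decide (4 * (x - 1) < Tc nmin) &&
      ub (d.fk + d.gd) (d.fa - d.gd) d.fn (d.f0 - d.gd - d.gd * x - (d.gd - 1)) B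
  else
    decide (x < 256 * (nmin - 1)) && ub 131072 0 (-2 * ρ) (4 * ρ - 65536) B &&
      ub (2048 * (d.fk + d.gd)) (2048 * (d.fa - d.gd)) (2048 * d.fn - x * d.gd)
        (2048 * (d.f0 - d.gd) - 2048 * d.gd) B

def uN (mode nmin ρ : ℕ) (B : Box) : ℕ :=
  if mode = 1 then Tc (B.k2 + 1) * Tc (B.k2 - 1) else ρ ^ 4 * (256 * (nmin - 1))

def uD (mode nmin x : ℕ) : ℕ :=
  if mode = 1 then Tc (nmin - 2) * (Tc nmin - 4 * (x - 1))
  else 65536 ^ 4 * (256 * (nmin - 1) - x)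

def igCore (d : DF) (LT LU LZ : ℤ) (θ zn q1 q2 tail : ℕ) (B : Box) : Bool :=
  decide (0 ≤ LU) && chords d LT LU LZ θ zn B (q2 - q1) q1 &&
    (if tail = 0 then ub (-q2) q2 1 (q2 + 1) B
    else igFin d LT LU LZ
      (lg ((4096 + zn) ^ q2 + (θ - 1) * 4096 ^ q2) (θ * (4096 + zn) ^ q2))
      (lg (4096 + zn) 4096) B)

def igLeaf (ty c θ zn mode nmin x ρ q1 q2 tail : ℕ) (B : Box) : Bool :=
  dok ty c B && decide (1 ≤ θ) && decide (1 ≤ zn) && decide (4 ≤ nmin) && ub 0 0 (-1) nmin B &&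
    uok (dform ty c) mode nmin x ρ B && ub q1 (-q1) (-1) (-q1) B &&
    igCore (dform ty c) (lg 1 θ)
      (lg (uD mode nmin x + (θ - 1) * uN mode nmin ρ B) (uD mode nmin x)) (lg 4096 zn)
      θ zn q1 q2 tail B

def thRV (p ts y : ℕ) : ℕ := 2 + 2 ^ (ts / 16 ^ (y - 1) % 16) * p ^ 3 / (8 * y ^ 3)

def rvT (p a D y θ : ℕ) : ℕ :=
  p.descFactorial y / y.factorial * ((p ^ 3 + (θ - 1) * y ^ 3) ^ y * (p ^ 4 + (θ - 1) * y ^ 4) ^ D) *
    2 ^ 30 / (θ ^ (a + y) * (p ^ (3 * y) * p ^ (4 * D))) + 1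

def rvSum (p a D ts : ℕ) : ℕ → ℕ
  | 0 => 0
  | y + 1 => rvSum p a D ts y + rvT p a D (y + 1) (thRV p ts (y + 1))

def rvcLeaf (ty c a1 Dm p ts : ℕ) (B : Box) : Bool :=
  let d := dform ty c
  dok ty c B && decide (B.k2 ≠ 0) && decide (1 ≤ p) && ub 0 (-1) 0 a1 B &&
    ub d.fk d.fa d.fn (d.f0 - d.gd * Dm - (d.gd - 1)) B && ub (-1) 1 0 (p + 1) B &&
    ub (4 * d.fk) (4 * d.fa) (4 * d.fn - d.gd) (4 * d.f0 + 4 * p * d.gd) B &&
    decide (rvSum p a1 Dm ts ((B.k2 + 1) / 4 - a1) < 2 ^ 30)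

def phiFin (d : DF) (ps pt cy cp LT LV c0 : ℤ) (B : Box) : Bool :=
  decide (cy ≤ 0) && decide (0 ≤ LV) &&
    ub (d.gd * cp * ps + 7200000 * LV * d.fk) (7200000 * (d.gd * LT + LV * d.fa))
      (7200000 * LV * d.fn)
      (d.gd * cp * (if 0 ≤ cp then pt else pt - 6000) + 7200000 * (LV * d.f0 + d.gd * c0)) B

def phiStep (d : DF) (ps pt : ℤ) (ph nx θ tg : ℕ) (B : Box) : Bool :=
  let cy := lg (1200 - ph) ph + lg 1 θ + lg (1200 ^ 3 + (θ - 1) * nx ^ 3) (1200 ^ 3) +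
    (if tg = 0 then lg 10 3 else lg 20 17)
  decide (ph < 1200) && decide (0 < ph) && decide (1 ≤ θ) &&
    phiFin d ps pt cy (1200 * lg 1200 (1200 - ph) + cy * ph) (lg 1 θ)
      (lg (1200 ^ 4 + (θ - 1) * nx ^ 4) (1200 ^ 4)) (if tg = 0 then 0 else lg 10 1) B

def phiLoop (d : DF) (ps pt : ℤ) (B : Box) : ℕ → ℕ → List ℕ → Option (List ℕ)
  | 0, _, _ => none
  | _ + 1, _, [] => none
  | f + 1, ph, nx :: l =>
    if nx = 0 then
      (if ub (7200000 - 4 * ph * ps) (-28800000) 0 (7200000 - 4 * ph * (pt - 6000)) B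
        then some l else none)
    else if phiStep d ps pt ph nx (l.getD 0 0) (l.getD 1 0) B then
      phiLoop d ps pt B f nx (l.drop 2) else none

def rvaHead (ty c : ℕ) (ps pt : ℤ) (B : Box) : Bool :=
  let d := dform ty c
  dok ty c B && ub (-ps) 0 0 (6000 - pt) B && ub (ps - 6000) 6000 0 (pt + 6000) B &&
    ub (4 * d.gd * ps + 24000 * d.fk) (24000 * d.fa) (24000 * d.fn - 6000 * d.gd)
      (4 * d.gd * pt + 24000 * d.f0) B &&
    ub (6000 * d.fk - 4 * d.gd * ps) (6000 * d.fa - 432000 * d.gd) (6000 * d.fn)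
      (6000 * d.f0 - 4 * d.gd * (pt - 6000)) B

def parLeaf (ty c cc : ℕ) (B : Box) : Bool :=
  let d := dform ty c
  dok ty c B &&
    ub (64 * d.fk) (64 * d.fa) (64 * d.fn + 128 * d.gd - 2 * cc * d.gd)
      (64 * d.f0 + 128 * d.gd - 4 * cc * d.gd) B &&
    ub (41 * cc) 0 (-64) (146 * cc + 256) B

def excLeaf (K A N : ℕ) (B : Box) : Bool :=
  decide ((K, A, N) ∈ [(3, 0, 6), (3, 0, 7), (4, 2, 10), (4, 2, 11), (5, 2, 12)]) &&
    ub 1 0 0 (-K) B && ub (-1) 0 0 K B && ub 0 1 0 (-A) B && ub 0 (-1) 0 A B &&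
    ub 0 0 1 (-N) B && ub 0 0 (-1) N B

def chk : ℕ → Box → List ℕ → Option (List ℕ)
  | 0, _, _ => none
  | _ + 1, _, [] => none
  | f + 1, B, op :: l =>
    if op = 0 then
      (if l.getD 0 0 = 0 then none else
        (chk f (nrm { B with k2 := l.getD 0 0 }) (l.drop 1)).bind
          (chk f (nrm { B with k1 := l.getD 0 0 + 1 })))
    else if op = 1 then
      (chk f (nrm { B with a2s := l.getD 0 0, a2t := (l.getD 1 0 : ℤ) - 10000000 })
        (l.drop 2)).bind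
        (chk f (nrm { B with a1s := l.getD 0 0, a1t := (l.getD 1 0 : ℤ) - 9999999 }))
    else if op = 2 then
      (chk f (nrm { B with n2s := l.getD 0 0, n2t := (l.getD 1 0 : ℤ) - 10000000 })
        (l.drop 2)).bind
        (chk f (nrm { B with n1s := l.getD 0 0, n1t := (l.getD 1 0 : ℤ) - 9999999 }))
    else if op = 3 then (if emp B then some l else none)
    else if op = 4 then
      (if igLeaf (l.getD 0 0) (l.getD 1 0) (l.getD 2 0) (l.getD 3 0) (l.getD 4 0) (l.getD 5 0)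
        (l.getD 6 0) (l.getD 7 0) (l.getD 8 0) (l.getD 9 0) (l.getD 10 0) B
        then some (l.drop 11) else none)
    else if op = 5 then
      (if rvcLeaf (l.getD 0 0) (l.getD 1 0) (l.getD 2 0) (l.getD 3 0) (l.getD 4 0)
        (l.getD 5 0 + 2 ^ 32 * l.getD 6 0 + 2 ^ 64 * l.getD 7 0) B
        then some (l.drop 8) else none)
    else if op = 6 then
      (if rvaHead (l.getD 0 0) (l.getD 1 0) (l.getD 2 0) ((l.getD 3 0 : ℤ) - 10000000) B then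
        phiLoop (dform (l.getD 0 0) (l.getD 1 0)) (l.getD 2 0) ((l.getD 3 0 : ℤ) - 10000000) B
          200 100 (l.drop 4) else none)
    else if op = 7 then
      (if parLeaf (l.getD 0 0) (l.getD 1 0) (l.getD 2 0) B then some (l.drop 3) else none)
    else if op = 8 then
      (if excLeaf (l.getD 0 0) (l.getD 1 0) (l.getD 2 0) B then some (l.drop 3) else none)
    else none

def unpack : ℕ → ℕ → List ℕ → List ℕ
  | 0, _, acc => acc
  | f + 1, n, acc => if n ≤ 1 then acc else (n % 4294967296) :: unpack f (n / 4294967296) acc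

def unpackAll : List ℕ → List ℕ
  | [] => []
  | c :: l => unpack 300 c (unpackAll l)

def root (k1 k2 : ℕ) : Box := ⟨k1, k2, 0, 0, 6000, -12000, 12000, 0, 372000, 1350000⟩

end Pool.Agent.P.MP_ea54b6_co
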