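import Pool.Agent.P.MP_ea54b6_co.Basic

set_option autoImplicit false

namespace Pool.Agent.P.MP_ea54b6_co

open Finset

lemma pair_eq {a b c d : ℕ} (h : ({a, b} : Finset ℕ) = {c, d}) :
    (a = c ∧ b = d) ∨ (a = d ∧ b = c) := by
  have h1 : a ∈ ({c, d} : Finset ℕ) := h ▸ by simp
  have h2 : b ∈ ({c, d} : Finset ℕ) := h ▸ by simp
  have h3 : c ∈ ({a, b} : Finset ℕ) := h ▸ by simp
  have h4 : d ∈ ({a, b} : Finset ℕ) := h ▸ by simp
  simp only [mem_insert, mem_singleton] at h1 h2 h3 h4
  omega

/-- windows -/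
theorem WIN {C M k a n D : ℕ} (hM : M + a = T (k + 1)) (hC : C + D = T n) (hak : a < k)
    (hD : D + 3 ≤ n) (h : D < a ∨ (a + 1 = k ∧ 1 ≤ a)) : Good C M := by
  have hP : Pairs (range D) (fun i : ℕ => ({i, i + 1} : Finset ℕ)) (fun i => {i, i + 2}) := by
    refine ⟨fun i _ => card_pair (by omega), fun i _ => card_pair (by omega), ?_, ?_, ?_⟩
    · intro i _ j _ hh
      have := pair_eq hh
      omega
    · intro i _ j _ hh
      have := pair_eq hh
      omega
    · intro i _ j _ hh
      have := pair_eq hh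
      omega
  obtain ⟨K, v, e, hf⟩ := PG (fun x : ℕ => some x) _ _ _ hP
  have hn : ∀ X : Finset ℕ, ncl (fun x : ℕ => some x) X = X.card := by
    intro X
    have := ncl_some (fun x : ℕ => x) X
    simpa using this
  obtain ⟨N, rfl⟩ : ∃ N, n = N + 1 := ⟨n - 1, by omega⟩
  refine good_of_thr (range N) v e (j := k) ?_ ?_ ?_
  · have h1 := hf (range N)
    rw [act_full, hn, card_range, card_range] at h1
    · have := T_succ N
      omega
    · intro i hi
      have := mem_range.1 hi
      constructor <;> intro x hx <;> simp only [mem_insert, mem_singleton, mem_range] at hx ⊢ <;>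
        omega
  · intro X _ hc
    have h1 := hf X
    rw [hn] at h1
    have h2 := T_succ X.card
    have h3 : T (X.card + 1) ≤ T k := T_mono hc
    have h4 := T_succ k
    omega
  · intro X _ hc
    have h1 := hf X
    rw [hn, hc] at h1
    have h4 := T_succ k
    suffices act (range D) (fun i : ℕ => ({i, i + 1} : Finset ℕ)) (fun i => {i, i + 2}) X < a by
      omega
    unfold act
    set A := (range D).filter fun i => ({i, i + 1} : Finset ℕ) ⊆ X ∧ ({i, i + 2} : Finset ℕ) ⊆ X
      with hA
    rcases h with h | h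
    · have : A.card ≤ D := by
        have := card_filter_le (range D)
          fun i => ({i, i + 1} : Finset ℕ) ⊆ X ∧ ({i, i + 2} : Finset ℕ) ⊆ X
        simpa using this
      omega
    · rcases A.eq_empty_or_nonempty with h0 | h0
      · rw [h0, card_empty]; omega
      · set m := A.min' h0
        have hm : m ∈ A := min'_mem A h0
        have hm1 : ({m, m + 1} : Finset ℕ) ⊆ X := (mem_filter.1 hm).2.1
        have h5 : A.card ≤ (X \ {m, m + 1}).card := by
          apply card_le_card_of_injOn (fun i => i + 2)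
          · intro i hi
            have h6 : m ≤ i := min'_le A i hi
            have h7 : ({i, i + 2} : Finset ℕ) ⊆ X := (mem_filter.1 hi).2.2
            simp only [coe_sdiff, Set.mem_sdiff, mem_coe, mem_insert, mem_singleton]
            exact ⟨h7 (by simp), by omega⟩
          · intro i _ j _ hh
            simpa using hh
        have h6 := card_sdiff_add_card_eq_card hm1
        rw [card_pair (by omega)] at h6
        omega

lemma pairs_empty {α ι : Type} (E1 E2 : ι → Finset α) : Pairs (∅ : Finset ι) E1 E2 :=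
  ⟨by simp, by simp, by simp, by simp, by simp⟩

/-- few extra colours -/
theorem W0b {C M k a N E : ℕ} (hM : M + a = T (k + 1)) (hC : C = T N + E) (hE : 1 ≤ E)
    (hEN : E ≤ N) (h : E + a < k) : Good C M := by
  obtain ⟨K, v, e, hf⟩ := PG (fun x : ℕ => some (x % E)) (∅ : Finset ℕ) (fun _ => ∅) (fun _ => ∅)
    (pairs_empty _ _)
  have hU : ncl (fun x : ℕ => some (x % E)) (range N) = E := by
    rw [ncl_some]
    have : (range N).image (fun x => x % E) = range E := by
      ext y
      simp only [mem_image, mem_range]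
      constructor
      · rintro ⟨x, -, rfl⟩
        exact Nat.mod_lt _ hE
      · intro hy
        exact ⟨y, by omega, Nat.mod_eq_of_lt hy⟩
    rw [this, card_range]
  have ha : ∀ X : Finset ℕ, act (∅ : Finset ℕ) (fun _ => (∅ : Finset ℕ)) (fun _ => ∅) X = 0 := by
    intro X; simp [act]
  refine good_of_thr (range N) v e (j := k + 1) ?_ ?_ ?_
  · have h1 := hf (range N)
    rw [ha, hU, card_range] at h1
    omega
  · intro X hX hc
    have h1 := hf X
    have h2 := ncl_mono (fun x : ℕ => some (x % E)) hX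
    have h3 : T X.card ≤ T k := T_mono (by omega)
    have h4 := T_succ k
    rw [ha] at h1
    omega
  · intro X _ hc
    have h1 := hf X
    rw [ha, ncl_some, hc] at h1
    have : 0 < (X.image fun x => x % E).card :=
      card_pos.2 ((card_pos.1 (by omega)).image _)
    omega

/-- the class map with at most one class -/
def cl1 {α : Type} (ε : ℕ) : α → Option Unit := fun _ => if ε = 0 then none else some ()

lemma ncl_cl1 {α : Type} {ε : ℕ} (hε : ε ≤ 1) (X : Finset α) (hX : 0 < X.card) :
    ncl (cl1 ε) X = ε := by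
  classical
  unfold cl1
  rcases Nat.eq_zero_or_pos ε with rfl | h
  · simpa using ncl_none X
  · have : ε = 1 := by omega
    subst this
    simp only [one_ne_zero, if_false]
    rw [ncl_some (fun _ => ()) X, image_const (card_pos.1 hX)]
    rfl

lemma ncl_cl1_le {α : Type} {ε : ℕ} (hε : ε ≤ 1) (X : Finset α) : ncl (cl1 ε) X ≤ ε := by
  rcases Nat.eq_zero_or_pos X.card with h | h
  · rw [card_eq_zero] at h
    subst h
    simp [ncl]
  · exact (ncl_cl1 hε X h).le

/-- criterion with one skipped level -/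
theorem SK {α ι : Type} [DecidableEq α] (U : Finset α) (I : Finset ι)
    (E1 E2 : ι → Finset α) (h : Pairs I E1 E2) (hU : ∀ i ∈ I, E1 i ⊆ U ∧ E2 i ⊆ U)
    {C M k a ε : ℕ} (hM : M + a = T (k + 1)) (hε : ε ≤ 1) (hU0 : 0 < U.card)
    (hC : C + I.card = T U.card + ε) (hpb : ε + a < k)
    (hX : ∀ X ⊆ U, X.card = k + 1 → act I E1 E2 X ≠ a + ε)
    (hY : ∀ X ⊆ U, X.card = k + 2 → act I E1 E2 X < a + ε + k + 1) : Good C M := by
  obtain ⟨K, v, e, hf⟩ := PG (cl1 ε) I E1 E2 h
  refine good_of_thr U v e (j := k + 2) ?_ ?_ ?_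
  · have := hf U
    rw [act_full hU, ncl_cl1 hε U hU0] at this
    omega
  · intro X hXU hc
    have h1 := hf X
    have h4 := T_succ k
    rcases lt_or_ge X.card (k + 1) with h5 | h5
    · have h2 := ncl_cl1_le hε X
      have h3 : T X.card ≤ T k := T_mono (by omega)
      omega
    · have h6 : X.card = k + 1 := by omega
      have := hX X hXU h6
      rw [ncl_cl1 hε X (by omega), h6] at h1
      omega
  · intro X hXU hc
    have h1 := hf X
    have h2 := hY X hXU hc
    rw [ncl_cl1 hε X (by omega), hc] at h1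
    have : T (k + 2) = T (k + 1) + (k + 1) := T_succ (k + 1)
    omega

def cE1 {α ι : Type} [DecidableEq α] (w x : ι → Bool → α) (p : ι × Bool) : Finset α :=
  {w p.1 false, x p.1 p.2}
def cE2 {α ι : Type} [DecidableEq α] (w x : ι → Bool → α) (p : ι × Bool) : Finset α :=
  {w p.1 true, x p.1 (!p.2)}

lemma C4pairs {α ι : Type} [DecidableEq α] (J : Finset ι) (w x : ι → Bool → α)
    (hne : ∀ j ∈ J, ∀ s t, w j s ≠ x j t)
    (hinj : ∀ j ∈ J, ∀ j' ∈ J, ∀ s t s' t', ({w j s, x j t} : Finset α) = {w j' s', x j' t'} →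
      j = j' ∧ s = s' ∧ t = t') :
    Pairs (J ×ˢ (univ : Finset Bool)) (cE1 w x) (cE2 w x) := by
  refine ⟨fun p hp => card_pair (hne _ (mem_product.1 hp).1 _ _),
    fun p hp => card_pair (hne _ (mem_product.1 hp).1 _ _), ?_, ?_, ?_⟩
  · intro p hp q hq hh
    obtain ⟨h1, -, h2⟩ := hinj _ (mem_product.1 hp).1 _ (mem_product.1 hq).1 _ _ _ _ hh
    exact Prod.ext h1 h2
  · intro p hp q hq hh
    obtain ⟨h1, -, h2⟩ := hinj _ (mem_product.1 hp).1 _ (mem_product.1 hq).1 _ _ _ _ hh
    exact Prod.ext h1 (by simpa using h2)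
  · intro p hp q hq hh
    obtain ⟨-, h1, -⟩ := hinj _ (mem_product.1 hp).1 _ (mem_product.1 hq).1 _ _ _ _ hh
    simp at h1

lemma C4act {α ι : Type} [DecidableEq α] (J : Finset ι) (w x : ι → Bool → α) (X : Finset α) :
    act (J ×ˢ (univ : Finset Bool)) (cE1 w x) (cE2 w x) X =
      2 * (J.filter fun j => w j false ∈ X ∧ w j true ∈ X ∧ x j false ∈ X ∧ x j true ∈ X).card := by
  unfold act
  have : ((J ×ˢ (univ : Finset Bool)).filter fun p => cE1 w x p ⊆ X ∧ cE2 w x p ⊆ X) =
      (J.filter fun j => w j false ∈ X ∧ w j true ∈ X ∧ x j false ∈ X ∧ x j true ∈ X) ×ˢ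
        (univ : Finset Bool) := by
    ext ⟨j, b⟩
    simp only [mem_filter, mem_product, mem_univ, and_true, cE1, cE2, insert_subset_iff,
      singleton_subset_iff]
    cases b <;> simp <;> tauto
  rw [this, card_product]
  simp [mul_comm]

lemma pairs_add {α ι : Type} {I : Finset ι} {E1 E2 : ι → Finset α} (h : Pairs I E1 E2)
    (F1 F2 : Finset α) (c1 : F1.card = 2) (c2 : F2.card = 2) (hne : F1 ≠ F2)
    (h1 : ∀ i ∈ I, E1 i ≠ F1 ∧ E1 i ≠ F2 ∧ E2 i ≠ F1 ∧ E2 i ≠ F2) :
    Pairs I.insertNone (fun o => o.elim F1 E1) (fun o => o.elim F2 E2) := by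
  refine ⟨?_, ?_, ?_, ?_, ?_⟩
  · rintro (_ | i) hi
    · exact c1
    · exact h.c1 i (by simpa using hi)
  · rintro (_ | i) hi
    · exact c2
    · exact h.c2 i (by simpa using hi)
  · rintro (_ | i) hi (_ | j) hj hh
    · rfl
    · exact absurd hh.symm (h1 j (by simpa using hj)).1
    · exact absurd hh (h1 i (by simpa using hi)).1
    · rw [h.i1 i (by simpa using hi) j (by simpa using hj) hh]
  · rintro (_ | i) hi (_ | j) hj hh
    · rfl
    · exact absurd hh.symm (h1 j (by simpa using hj)).2.2.2
    · exact absurd hh (h1 i (by simpa using hi)).2.2.2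
    · rw [h.i2 i (by simpa using hi) j (by simpa using hj) hh]
  · rintro (_ | i) hi (_ | j) hj hh
    · exact hne hh
    · exact absurd hh.symm (h1 j (by simpa using hj)).2.2.1
    · exact absurd hh (h1 i (by simpa using hi)).2.1
    · exact h.ne i (by simpa using hi) j (by simpa using hj) hh

lemma act_add {α ι : Type} [DecidableEq α] (I : Finset ι) (E1 E2 : ι → Finset α)
    (F1 F2 X : Finset α) :
    act I.insertNone (fun o => o.elim F1 E1) (fun o => o.elim F2 E2) X =
      act I E1 E2 X + if F1 ⊆ X ∧ F2 ⊆ X then 1 else 0 := by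
  unfold act
  rw [card_filter, card_filter, sum_insertNone]
  simp only [Option.elim_none, Option.elim_some]
  rw [add_comm]
  congr

def hw (_ : ℕ) (s : Bool) : ℕ := if s then 1 else 0
def hx (j : ℕ) (t : Bool) : ℕ := 2 * j + 2 + if t then 1 else 0

lemma hub_pairs (G : ℕ) : Pairs (range G ×ˢ (univ : Finset Bool)) (cE1 hw hx) (cE2 hw hx) := by
  apply C4pairs
  · intro j _ s t
    unfold hw hx
    cases s <;> cases t <;> simp
  · intro j _ j' _ s t s' t' hh
    have := pair_eq hh
    unfold hw hx at this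
    cases s <;> cases t <;> cases s' <;> cases t' <;> simp at this ⊢ <;> omega

lemma hub_sub {G n : ℕ} (h : 2 * G + 2 ≤ n) :
    ∀ p ∈ range G ×ˢ (univ : Finset Bool), cE1 hw hx p ⊆ range n ∧ cE2 hw hx p ⊆ range n := by
  rintro ⟨j, b⟩ hp
  have := mem_range.1 (mem_product.1 hp).1
  simp only at this
  unfold cE1 cE2 hw hx
  cases b <;> simp [insert_subset_iff] <;> omega

lemma hub_count (G : ℕ) (X : Finset ℕ) :
    let g := ((range G).filter fun j =>
      hw j false ∈ X ∧ hw j true ∈ X ∧ hx j false ∈ X ∧ hx j true ∈ X).card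
    g = 0 ∨ 2 * g + 2 ≤ X.card := by
  intro g
  set A := (range G).filter fun j =>
      hw j false ∈ X ∧ hw j true ∈ X ∧ hx j false ∈ X ∧ hx j true ∈ X with hA
  have hg : g = A.card := rfl
  rcases A.eq_empty_or_nonempty with h0 | ⟨j0, h0⟩
  · left
    rw [hg, h0, card_empty]
  · right
    have h01 : ({0, 1} : Finset ℕ) ⊆ X := by
      have := (mem_filter.1 h0).2
      simp only [hw] at this
      intro y hy
      simp only [mem_insert, mem_singleton] at hy
      rcases hy with rfl | rfl
      · simpa using this.1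
      · simpa using this.2.1
    have h5 : (A ×ˢ (univ : Finset Bool)).card ≤ (X \ {0, 1}).card := by
      apply card_le_card_of_injOn (fun p => hx p.1 p.2)
      · rintro ⟨j, b⟩ hp
        have hj := (mem_filter.1 (mem_product.1 hp).1).2
        simp only [coe_sdiff, Set.mem_sdiff, mem_coe, mem_insert, mem_singleton]
        refine ⟨by cases b; exacts [hj.2.2.1, hj.2.2.2], ?_⟩
        unfold hx
        omega
      · rintro ⟨j, b⟩ _ ⟨j', b'⟩ _ hh
        simp only [hx] at hh
        cases b <;> cases b' <;> simp at hh ⊢ <;> omega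
    have h6 := card_sdiff_add_card_eq_card h01
    rw [card_pair (by omega)] at h6
    rw [card_product] at h5
    simp only [card_univ, Fintype.card_bool] at h5
    omega

/-- parity at level zero -/
theorem PAR0 {C M k a n D : ℕ} (hM : M + a = T (k + 1)) (hC : C + D = T n) (hak : a + 2 ≤ k)
    (hD : D + 3 ≤ n) (h : D % 2 ≠ a % 2) : Good C M := by
  set ε := (a + 1) % 2 with hε
  set G := (D + ε) / 2 with hG
  refine SK (range n) _ _ _ (hub_pairs G) (hub_sub (by omega)) (ε := ε) hM (by omega)
    (by rw [card_range]; omega) ?_ (by omega) ?_ ?_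
  · rw [card_product, card_range, card_range]
    simp only [card_univ, Fintype.card_bool]
    omega
  · intro X _ _
    rw [C4act]
    omega
  · intro X _ hc
    rw [C4act]
    have := hub_count G X
    simp only at this
    omega

/-- the case a = 0 -/
theorem A0 {C M k n D : ℕ} (hM : M + 0 = T (k + 1)) (hC : C + D = T n) (hak : 2 ≤ k)
    (hD : D + 2 ≤ n) (h : D % 2 = 0) (h2 : 2 ≤ D) : Good C M := by
  set G := D / 2 with hG
  have hP := pairs_add (hub_pairs G) {0, 1} {2, 3} (by decide) (by decide) (by decide) (by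
    rintro ⟨j, b⟩ _
    unfold cE1 cE2 hw hx
    refine ⟨?_, ?_, ?_, ?_⟩ <;> intro hh <;> have := pair_eq hh <;> cases b <;>
      simp at this)
  have hg : ∀ X : Finset ℕ, ({0, 1} : Finset ℕ) ⊆ X ∧ ({2, 3} : Finset ℕ) ⊆ X →
      0 < ((range G).filter fun j =>
        hw j false ∈ X ∧ hw j true ∈ X ∧ hx j false ∈ X ∧ hx j true ∈ X).card := by
    intro X hX
    refine card_pos.2 ⟨0, mem_filter.2 ⟨mem_range.2 (by omega), ?_⟩⟩
    simp only [insert_subset_iff, singleton_subset_iff] at hX
    simp [hw, hx, hX]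
  refine SK (range n) _ _ _ hP ?_ (ε := 1) hM le_rfl
    (by rw [card_range]; omega) ?_ (by omega) ?_ ?_
  · rintro (_ | p) hp
    · simp [insert_subset_iff]
      omega
    · exact hub_sub (G := G) (by omega) p (by simpa using hp)
  · rw [card_insertNone, card_product, card_range, card_range]
    simp only [card_univ, Fintype.card_bool]
    omega
  · intro X _ _
    rw [act_add, C4act]
    split_ifs with hh
    · have := hg X hh
      omega
    · omega
  · intro X _ hc
    rw [act_add, C4act]
    have := hub_count G X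
    simp only at this
    split_ifs <;> omega

/-- recursion -/
theorem R1 {C M k a N E ε : ℕ} (hM : M + a = T (k + 1)) (hC : C = T N + E) (hε : ε ≤ 1)
    (hN : 1 ≤ N) (hk : 1 ≤ k) (ha : 1 ≤ a + ε) (hE : E + a + 1 < 2 * k) (hεE : ε ≤ E)
    (hb : ε + a ≤ k) (IH : Good (E - ε) (k - a - ε)) : Good C M := by
  classical
  obtain ⟨β, L, U2, v2, e2, hU2, hX2⟩ := IH
  obtain ⟨K, v1, e1, hf⟩ := PG (cl1 ε) (∅ : Finset ℕ) (fun _ => (∅ : Finset ℕ)) (fun _ => ∅)
    (pairs_empty _ _)
  have ha0 : ∀ X : Finset ℕ, act (∅ : Finset ℕ) (fun _ => (∅ : Finset ℕ)) (fun _ => ∅) X = 0 := by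
    intro X; simp [act]
  obtain ⟨v, e, hu⟩ := union v1 e1 v2 e2
  refine ⟨_, _, (range N).disjSum U2, v, e, ?_, fun X hX => ?_⟩
  · have h1 := hf (range N)
    rw [ha0, ncl_cl1 hε _ (by rw [card_range]; omega), card_range] at h1
    rw [hu, toLeft_disjSum, toRight_disjSum]
    omega
  · have hR : X.toRight ⊆ U2 := by
      have := toRight_subset_toRight hX
      rwa [toRight_disjSum] at this
    have h1 := hf X.toLeft
    have h2 := hX2 _ hR
    have h3 := ncol_mono v2 e2 hR
    have h4 := T_succ k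
    rw [ha0] at h1
    rw [hu]
    rcases lt_trichotomy X.toLeft.card k with h5 | h5 | h5
    · have h6 := ncl_cl1_le hε X.toLeft
      obtain ⟨k', rfl⟩ : ∃ k', k = k' + 1 := ⟨k - 1, by omega⟩
      have h7 : T X.toLeft.card ≤ T k' := T_mono (by omega)
      have h8 := T_succ k'
      omega
    · rw [ncl_cl1 hε _ (by omega), h5] at h1
      omega
    · rw [ncl_cl1 hε _ (by omega)] at h1
      have h7 : T (k + 1) ≤ T X.toLeft.card := T_mono h5
      omega

end Pool.Agent.P.MP_ea54b6_co
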