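import Pool.Agent.P.MP_ea54b6_co.Det1

set_option autoImplicit false

namespace Pool.Agent.P.MP_ea54b6_co

open Finset

def eF (E : ℕ) (c q : ℕ → ℕ) (J : Finset ℕ) : ℕ :=
  ((range E).filter fun i => c i ∈ J ∧ q i ∈ J).card

/-- twin model -/
theorem TW (N E : ℕ) (c q : ℕ → ℕ) (Sep : Finset ℕ) (hc : ∀ i < E, c i < N ∧ q i < N ∧ c i ≠ q i)
    {C M k : ℕ} (hC : C = T N + (range N \ Sep).card + E)
    (h1 : ∀ J ⊆ range N, J.card < k → T J.card + (J \ Sep).card + eF E c q J < M)
    (h2 : ∀ J ⊆ range N, k ≤ J.card → M < T J.card + (J \ Sep).card) : Good C M := by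
  classical
  let cl : ℕ ⊕ ℕ → ℕ := Sum.elim id c
  let v : ℕ ⊕ ℕ → Option ((Finset ℕ ⊕ ℕ) ⊕ ℕ) := fun x =>
    if cl x ∈ Sep then none else some (Sum.inl (Sum.inr (cl x)))
  let e : Finset (ℕ ⊕ ℕ) → Option ((Finset ℕ ⊕ ℕ) ⊕ ℕ) := fun s =>
    if h : ∃ i < E, Sum.inr i ∈ s ∧ s.image cl = {c i, q i} then some (Sum.inr h.choose)
    else if (s.image cl).card = 2 then some (Sum.inl (Sum.inl (s.image cl))) else none
  let pr : (Finset ℕ ⊕ ℕ) ⊕ ℕ → Finset ℕ ⊕ ℕ := Sum.elim id fun i => Sum.inl {c i, q i}
  let S0 : Finset ℕ → Finset (Finset ℕ ⊕ ℕ) := fun J => (J.powersetCard 2).disjSum (J \ Sep)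
  let S1 : Finset ℕ → Finset ((Finset ℕ ⊕ ℕ) ⊕ ℕ) := fun J =>
    (S0 J).disjSum ((range E).filter fun i => c i ∈ J ∧ q i ∈ J)
  have cS0 : ∀ J, (S0 J).card = T J.card + (J \ Sep).card := by
    intro J
    simp only [S0, card_disjSum, card_powersetCard, T]
  have cS1 : ∀ J, (S1 J).card = T J.card + (J \ Sep).card + eF E c q J := by
    intro J
    simp only [S1, card_disjSum, cS0, eF]
  have up : ∀ X : Finset (ℕ ⊕ ℕ), cols v e X ⊆ ↑(S1 (X.image cl)) := by
    rintro X z (⟨x, hx, h⟩ | ⟨s, hs, hs2, h⟩)
    · simp only [v] at h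
      split_ifs at h with hh
      simp only [Option.some.injEq] at h
      subst h
      simp only [S1, S0, mem_coe, inl_mem_disjSum, inr_mem_disjSum, mem_sdiff]
      exact ⟨mem_image_of_mem _ hx, hh⟩
    · simp only [e] at h
      have hsub : s.image cl ⊆ X.image cl := image_subset_image hs
      split_ifs at h with hh hh2
      · simp only [Option.some.injEq] at h
        subst h
        obtain ⟨a1, -, a3⟩ := hh.choose_spec
        simp only [S1, mem_coe, inr_mem_disjSum, mem_filter, mem_range]
        rw [a3] at hsub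
        exact ⟨a1, hsub (by simp), hsub (by simp)⟩
      · simp only [Option.some.injEq] at h
        subst h
        simp only [S1, S0, mem_coe, inl_mem_disjSum, mem_powersetCard]
        exact ⟨hsub, hh2⟩
  have low : ∀ X : Finset (ℕ ⊕ ℕ), (↑(S0 (X.image cl)) : Set (Finset ℕ ⊕ ℕ)) ⊆
      pr '' cols v e X := by
    rintro X (P | y) hz
    · simp only [S0, mem_coe, inl_mem_disjSum, mem_powersetCard] at hz
      obtain ⟨a, b, hab, rfl⟩ := card_eq_two.1 hz.2
      obtain ⟨x, hx, rfl⟩ := mem_image.1 (hz.1 (mem_insert_self a {b}))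
      obtain ⟨y, hy, rfl⟩ := mem_image.1 (hz.1 (mem_insert_of_mem (mem_singleton_self b)))
      have hxy : x ≠ y := fun h => hab (by rw [h])
      have hs : ({x, y} : Finset (ℕ ⊕ ℕ)) ⊆ X := by
        intro z hz
        simp only [mem_insert, mem_singleton] at hz
        rcases hz with rfl | rfl <;> assumption
      have him : ({x, y} : Finset (ℕ ⊕ ℕ)).image cl = {cl x, cl y} := by simp
      by_cases hh : ∃ i < E, Sum.inr i ∈ ({x, y} : Finset (ℕ ⊕ ℕ)) ∧
          ({x, y} : Finset (ℕ ⊕ ℕ)).image cl = {c i, q i}
      · refine ⟨Sum.inr hh.choose, Or.inr ⟨{x, y}, hs, card_pair hxy, ?_⟩, ?_⟩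
        · simp only [e, dif_pos hh]
        · simp only [pr, Sum.elim_inr]
          rw [← hh.choose_spec.2.2, him]
      · refine ⟨Sum.inl (Sum.inl {cl x, cl y}), Or.inr ⟨{x, y}, hs, card_pair hxy, ?_⟩, rfl⟩
        simp only [e, dif_neg hh]
        rw [him, if_pos (card_pair hab)]
    · simp only [S0, mem_coe, inr_mem_disjSum, mem_sdiff] at hz
      obtain ⟨x, hx, rfl⟩ := mem_image.1 hz.1
      exact ⟨Sum.inl (Sum.inr (cl x)), Or.inl ⟨x, hx, by simp only [v, if_neg hz.2]⟩, rfl⟩
  have hup : ∀ X : Finset (ℕ ⊕ ℕ), ncol v e X ≤ (S1 (X.image cl)).card := by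
    intro X
    rw [← Set.ncard_coe_finset]
    exact Set.ncard_le_ncard (up X) (Finset.finite_toSet _)
  have hlow : ∀ X : Finset (ℕ ⊕ ℕ), (S0 (X.image cl)).card ≤ ncol v e X := by
    intro X
    rw [← Set.ncard_coe_finset]
    exact (Set.ncard_le_ncard (low X) ((cols_finite v e X).image _)).trans
      (Set.ncard_image_le (cols_finite v e X))
  have hUi : ((range N).disjSum (range E)).image cl = range N := by
    ext y
    simp only [mem_image, mem_range]
    constructor
    · rintro ⟨x | i, hx, rfl⟩
      · simpa [cl] using hx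
      · simp only [inr_mem_disjSum, mem_range] at hx
        exact (hc i hx).1
    · intro hy
      exact ⟨Sum.inl y, by simpa using hy, rfl⟩
  refine ⟨_, _, (range N).disjSum (range E), v, e, ?_, fun X hX => ?_⟩
  · have hfull : cols v e ((range N).disjSum (range E)) = ↑(S1 (range N)) := by
      apply Set.Subset.antisymm
      · have := up ((range N).disjSum (range E))
        rwa [hUi] at this
      · rintro ((P | y) | i) hz
        · simp only [S1, S0, mem_coe, inl_mem_disjSum, mem_powersetCard] at hz
          have him : (P.map Function.Embedding.inl).image cl = P := by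
            ext z
            simp [cl]
          refine Or.inr ⟨P.map Function.Embedding.inl, ?_, by simpa using hz.2, ?_⟩
          · intro z hz'
            obtain ⟨y, hy, rfl⟩ := mem_map.1 hz'
            simpa using hz.1 hy
          · have hh : ¬ ∃ i < E, Sum.inr i ∈ P.map (Function.Embedding.inl (β := ℕ)) ∧
                (P.map Function.Embedding.inl).image cl = {c i, q i} := by
              rintro ⟨i, -, h, -⟩
              simp at h
            simp only [e, dif_neg hh]
            rw [him, if_pos hz.2]
        · simp only [S1, S0, mem_coe, inl_mem_disjSum, inr_mem_disjSum, mem_sdiff] at hz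
          refine Or.inl ⟨Sum.inl y, by simpa using hz.1, ?_⟩
          have : cl (Sum.inl y) = y := rfl
          simp only [v, this, if_neg hz.2]
        · simp only [S1, mem_coe, inr_mem_disjSum, mem_filter, mem_range] at hz
          have hh : ∃ j < E, Sum.inr j ∈ ({Sum.inr i, Sum.inl (q i)} : Finset (ℕ ⊕ ℕ)) ∧
              ({Sum.inr i, Sum.inl (q i)} : Finset (ℕ ⊕ ℕ)).image cl = {c j, q j} :=
            ⟨i, hz.1, by simp, by simp [cl]⟩
          refine Or.inr ⟨{Sum.inr i, Sum.inl (q i)}, ?_, card_pair (by simp), ?_⟩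
          · intro z hz'
            simp only [mem_insert, mem_singleton] at hz'
            rcases hz' with rfl | rfl
            · simpa using hz.1
            · simpa using hz.2.2
          · simp only [e, dif_pos hh]
            have h3 := hh.choose_spec.2.1
            generalize hh.choose = j at h3
            simp only [mem_insert, Sum.inr.injEq, mem_singleton, reduceCtorEq, or_false] at h3
            rw [h3]
    unfold ncol
    rw [hfull, Set.ncard_coe_finset, cS1, card_range, hC]
    congr 1
    unfold eF
    rw [filter_true_of_mem, card_range]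
    intro i hi
    have := hc i (mem_range.1 hi)
    simp only [mem_range]
    exact ⟨this.1, this.2.1⟩
  · have hJ : X.image cl ⊆ range N := by
      rw [← hUi]
      exact image_subset_image hX
    have a1 := hup X
    have a2 := hlow X
    rw [cS1] at a1
    rw [cS0] at a2
    rcases lt_or_ge (X.image cl).card k with h | h
    · have := h1 _ hJ h
      omega
    · have := h2 _ hJ h
      omega

/-- twin forests -/
theorem X1 {C M k a n D h e : ℕ} (hM : M + a = T (k + 1)) (hC : C + D = T n) (ha : 1 ≤ a)
    (hD : 2 ≤ D) (hDn : D + 2 ≤ n) (hk : (a - 1) * h + e + a + 1 ≤ k)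
    (hE : n - 1 - D ≤ (D - 1) * h + e) : Good C M := by
  obtain ⟨N, rfl⟩ : ∃ N, n = N + 2 := ⟨n - 2, by omega⟩
  set E := N + 1 - D with hEdef
  let q : ℕ → ℕ := fun i => if i < e then 0 else (i - e) / h
  have hq : ∀ i < E, q i < D - 1 := by
    intro i hi
    simp only [q]
    split_ifs with h1
    · omega
    · have h2 : i - e < (D - 1) * h := by omega
      have h3 : 0 < h := by
        rcases Nat.eq_zero_or_pos h with rfl | h3
        · omega
        · exact h3
      exact (Nat.div_lt_iff_lt_mul h3).2 h2
  have t1 := T_succ N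
  have t2 : T (N + 2) = T (N + 1) + (N + 1) := T_succ (N + 1)
  have t3 := T_succ k
  refine TW N E (fun i => D - 1 + i) q ∅ ?_ (k := k) ?_ ?_ ?_
  · intro i hi
    have := hq i hi
    omega
  · rw [sdiff_empty, card_range]
    omega
  · intro J _ hJ
    rw [sdiff_empty]
    have t4 := T_succ J.card
    have t5 : T (J.card + 1) ≤ T k := T_mono hJ
    suffices eF E (fun i => D - 1 + i) q J + a + 1 ≤ k by omega
    unfold eF
    set A := (range E).filter fun i => D - 1 + i ∈ J ∧ q i ∈ J with hA
    set R := J.filter (· < D - 1) with hR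
    rcases le_or_gt a R.card with h1 | h1
    · have h5 : A.card ≤ (J \ R).card := by
        apply card_le_card_of_injOn (fun i => D - 1 + i)
        · intro i hi
          simp only [hR, coe_sdiff, Set.mem_sdiff, mem_coe, mem_filter]
          exact ⟨(mem_filter.1 hi).2.1, by omega⟩
        · intro i _ j _ hh
          simpa using hh
      have h6 := card_sdiff_add_card_eq_card (filter_subset (· < D - 1) J)
      rw [← hR] at h6
      omega
    · have h5 : A ⊆ range e ∪ R.biUnion fun r => Ico (e + r * h) (e + r * h + h) := by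
        intro i hi
        have hi1 := mem_range.1 (mem_filter.1 hi).1
        have hi2 := (mem_filter.1 hi).2.2
        have hi3 := hq i hi1
        rw [mem_union, mem_range]
        by_cases h2 : i < e
        · exact Or.inl h2
        · right
          refine mem_biUnion.2 ⟨q i, mem_filter.2 ⟨hi2, hi3⟩, ?_⟩
          simp only [q, if_neg h2, mem_Ico]
          have h3 : 0 < h := by
            rcases Nat.eq_zero_or_pos h with rfl | h3
            · omega
            · exact h3
          have h7 := Nat.div_add_mod (i - e) h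
          have h8 := Nat.mod_lt (i - e) h3
          rw [mul_comm] at h7
          omega
      have h6 := (card_le_card h5).trans (card_union_le _ _)
      have h7 : (R.biUnion fun r => Ico (e + r * h) (e + r * h + h)).card ≤ R.card * h :=
        card_biUnion_le_card_mul _ _ _ (fun r _ => by simp)
      have h8 : R.card * h ≤ (a - 1) * h := Nat.mul_le_mul_right _ (by omega)
      rw [card_range] at h6
      omega
  · intro J _ hJ
    rw [sdiff_empty]
    have t5 : T k ≤ T J.card := T_mono hJ
    omega

/-- path with uncoloured inner vertices -/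
theorem MP {C M k a N : ℕ} (hM : M + a = T (k + 1)) (hC : C + a = T (N + 1) + k) (ha : 1 ≤ a)
    (hak : a < k) (hN : k ≤ N) : Good C M := by
  have t1 := T_succ N
  have t3 := T_succ k
  have hS : Ico 1 a ⊆ range N := by
    intro x hx
    simp only [mem_Ico, mem_range] at hx ⊢
    omega
  have hsd : ∀ J : Finset ℕ, (J \ Ico 1 a).card + (J ∩ Ico 1 a).card = J.card :=
    fun J => card_sdiff_add_card_inter J _
  refine TW N (k - 1) (fun i => i + 1) (fun i => i) (Ico 1 a) ?_ (k := k) ?_ ?_ ?_
  · intro i hi
    omega
  · have := card_sdiff_add_card_eq_card hS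
    rw [card_range, Nat.card_Ico] at this
    omega
  · intro J _ hJ
    have t4 := T_succ J.card
    have t5 : T (J.card + 1) ≤ T k := T_mono hJ
    have t6 := hsd J
    suffices eF (k - 1) (fun i => i + 1) (fun i => i) J + a + 1 ≤ (J ∩ Ico 1 a).card + k by omega
    obtain ⟨m, hm, hmJ⟩ : ∃ m ∈ range k, m ∉ J := by
      by_contra hcon
      push Not at hcon
      have := card_le_card (show range k ⊆ J from hcon)
      rw [card_range] at this
      omega
    rw [mem_range] at hm
    have h5 : eF (k - 1) (fun i => i + 1) (fun i => i) J ≤ ((J ∩ Ico 1 a) ∪ Ico a (k - 1)).card := by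
      unfold eF
      apply card_le_card_of_injOn (fun i => if i < m then i + 1 else i)
      · intro i hi
        simp only [coe_filter, mem_range, Set.mem_ofPred_eq] at hi
        have b1 : i ≠ m := fun h => hmJ (h ▸ hi.2.2)
        have b2 : i + 1 ≠ m := fun h => hmJ (h ▸ hi.2.1)
        simp only [coe_union, coe_inter, Set.mem_union, Set.mem_inter_iff, mem_coe, mem_Ico]
        split_ifs with h
        · by_cases h2 : i + 1 < a
          · exact Or.inl ⟨hi.2.1, by omega, h2⟩
          · exact Or.inr ⟨by omega, by omega⟩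
        · by_cases h2 : i < a
          · exact Or.inl ⟨hi.2.2, by omega, h2⟩
          · exact Or.inr ⟨by omega, by omega⟩
      · intro i hi j hj hh
        simp only [coe_filter, mem_range, Set.mem_ofPred_eq] at hi hj
        have b1 : i ≠ m := fun h => hmJ (h ▸ hi.2.2)
        have b2 : i + 1 ≠ m := fun h => hmJ (h ▸ hi.2.1)
        have b3 : j ≠ m := fun h => hmJ (h ▸ hj.2.2)
        have b4 : j + 1 ≠ m := fun h => hmJ (h ▸ hj.2.1)
        simp only at hh
        split_ifs at hh <;> omega
    have h6 := card_union_le (J ∩ Ico 1 a) (Ico a (k - 1))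
    rw [Nat.card_Ico] at h6
    omega
  · intro J _ hJ
    have t5 : T k ≤ T J.card := T_mono hJ
    have t6 := hsd J
    have t7 : (J ∩ Ico 1 a).card ≤ (Ico 1 a).card := card_le_card inter_subset_right
    rw [Nat.card_Ico] at t7
    omega

end Pool.Agent.P.MP_ea54b6_co
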