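import Pool.Agent.P.MP_ea54b6_co.Det1

set_option autoImplicit false

namespace Pool.Agent.P.MP_ea54b6_co

open Finset

theorem greedy {Ω τ : Type} [DecidableEq Ω] (Ω0 : Finset Ω) (Ts : Finset τ) (G c : ℕ)
    (conf : Ω → Ω → Prop) [∀ y, DecidablePred (conf y)]
    (hconf : ∀ y ∈ Ω0, (Ω0.filter (conf y)).card ≤ c) (A : ℝ) (hA : 0 < A)
    (hA2 : A + c * ((G - 1 : ℕ) : ℝ) ≤ Ω0.card)
    (hit : τ → ℕ → Ω → Prop) [∀ t i, DecidablePred (hit t i)] (u : τ → ℕ → ℝ)
    (hu0 : ∀ t ∈ Ts, ∀ i, 0 ≤ u t i)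
    (hu : ∀ t ∈ Ts, ∀ i < G, ((Ω0.filter (hit t i)).card : ℝ) ≤ u t i * A)
    (w θ : τ → ℝ) (hw : ∀ t ∈ Ts, 0 ≤ w t) (hθ : ∀ t ∈ Ts, 1 ≤ θ t) :
    ∃ ω : ℕ → Ω, (∀ i < G, ω i ∈ Ω0) ∧ (∀ i < G, ∀ j < i, ¬ conf (ω j) (ω i)) ∧
      ∑ t ∈ Ts, w t * θ t ^ ((range G).filter fun i => hit t i (ω i)).card ≤
        ∑ t ∈ Ts, w t * ∏ i ∈ range G, (1 + (θ t - 1) * u t i) := by
  have hne : Ω0.Nonempty := by
    rw [← card_pos]
    have : (0 : ℝ) ≤ c * ((G - 1 : ℕ) : ℝ) := by positivity
    have : (0 : ℝ) < Ω0.card := by linarith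
    exact_mod_cast this
  have main : ∀ m ≤ G, ∃ ω : ℕ → Ω, (∀ i < m, ω i ∈ Ω0) ∧ (∀ i < m, ∀ j < i, ¬ conf (ω j) (ω i)) ∧
      ∑ t ∈ Ts, w t * θ t ^ ((range m).filter fun i => hit t i (ω i)).card *
          ∏ i ∈ Ico m G, (1 + (θ t - 1) * u t i) ≤
        ∑ t ∈ Ts, w t * ∏ i ∈ range G, (1 + (θ t - 1) * u t i) := by
    intro m
    induction m with
    | zero =>
      intro _
      refine ⟨fun _ => hne.choose, by simp, by simp, ?_⟩
      simp
    | succ m ih =>
      intro hm
      obtain ⟨ω, h1, h2, h3⟩ := ih (by omega)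
      set Al := Ω0.filter fun x => ∀ j ∈ range m, ¬ conf (ω j) x with hAl
      have hcard : A ≤ Al.card := by
        have s1 : Ω0 ⊆ Al ∪ (range m).biUnion fun j => Ω0.filter (conf (ω j)) := by
          intro x hx
          by_cases hh : ∀ j ∈ range m, ¬ conf (ω j) x
          · exact mem_union_left _ (mem_filter.2 ⟨hx, hh⟩)
          · push Not at hh
            obtain ⟨j, hj, hc⟩ := hh
            exact mem_union_right _ (mem_biUnion.2 ⟨j, hj, mem_filter.2 ⟨hx, hc⟩⟩)
        have s2 := (card_le_card s1).trans (card_union_le _ _)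
        have s3 : ((range m).biUnion fun j => Ω0.filter (conf (ω j))).card ≤ (range m).card * c :=
          card_biUnion_le_card_mul _ _ _ fun j hj => hconf _ (h1 j (mem_range.1 hj))
        rw [card_range] at s3
        have s4 : m * c ≤ c * (G - 1) := by
          rw [mul_comm]
          exact Nat.mul_le_mul_left _ (by omega)
        have s5 : Ω0.card ≤ Al.card + c * (G - 1) := by omega
        have s6 : (Ω0.card : ℝ) ≤ Al.card + c * ((G - 1 : ℕ) : ℝ) := by exact_mod_cast s5
        linarith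
      have hAlne : Al.Nonempty := by
        rw [← card_pos]
        have : (0 : ℝ) < Al.card := by linarith
        exact_mod_cast this
      let Φ : Ω → ℝ := fun x => ∑ t ∈ Ts,
        w t * θ t ^ ((range m).filter fun i => hit t i (ω i)).card *
          (∏ i ∈ Ico (m + 1) G, (1 + (θ t - 1) * u t i)) * (if hit t m x then θ t else 1)
      have hsum : ∑ x ∈ Al, Φ x ≤ ∑ _x ∈ Al,
          ∑ t ∈ Ts, w t * θ t ^ ((range m).filter fun i => hit t i (ω i)).card *
          ∏ i ∈ Ico m G, (1 + (θ t - 1) * u t i) := by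
        simp only [Φ]
        rw [sum_comm, sum_comm (s := Al)]
        apply sum_le_sum
        intro t ht
        have hθt := hθ t ht
        have hP : 0 ≤ ∏ i ∈ Ico (m + 1) G, (1 + (θ t - 1) * u t i) :=
          prod_nonneg fun i _ => by
            have := mul_nonneg (sub_nonneg.2 hθt) (hu0 t ht i)
            linarith
        rw [← mul_sum, sum_const, nsmul_eq_mul, prod_eq_prod_Ico_succ_bot (by omega : m < G)]
        have e1 : ∑ x ∈ Al, (if hit t m x then θ t else 1) =
            Al.card + (θ t - 1) * (Al.filter (hit t m)).card := by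
          have : ∀ x ∈ Al, (if hit t m x then θ t else 1) =
              1 + (θ t - 1) * (if hit t m x then 1 else 0) := by
            intro x _
            split_ifs <;> ring
          rw [sum_congr rfl this, sum_add_distrib, ← mul_sum, sum_boole]
          simp
        have e2 : ((Al.filter (hit t m)).card : ℝ) ≤ u t m * Al.card := by
          have a1 : (Al.filter (hit t m)).card ≤ (Ω0.filter (hit t m)).card :=
            card_le_card (filter_subset_filter _ (filter_subset _ _))
          have a2 : ((Al.filter (hit t m)).card : ℝ) ≤ (Ω0.filter (hit t m)).card := by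
            exact_mod_cast a1
          have a3 := hu t ht m (by omega)
          have a4 := mul_le_mul_of_nonneg_left hcard (hu0 t ht m)
          linarith
        rw [e1]
        have e3 : (Al.card : ℝ) + (θ t - 1) * (Al.filter (hit t m)).card ≤
            Al.card * (1 + (θ t - 1) * u t m) := by
          have := mul_le_mul_of_nonneg_left e2 (sub_nonneg.2 hθt)
          nlinarith
        have e4 : 0 ≤ w t * θ t ^ ((range m).filter fun i => hit t i (ω i)).card *
            ∏ i ∈ Ico (m + 1) G, (1 + (θ t - 1) * u t i) :=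
          mul_nonneg (mul_nonneg (hw t ht) (pow_nonneg (by linarith) _)) hP
        calc _ ≤ (w t * θ t ^ ((range m).filter fun i => hit t i (ω i)).card *
            ∏ i ∈ Ico (m + 1) G, (1 + (θ t - 1) * u t i)) *
              (Al.card * (1 + (θ t - 1) * u t m)) := mul_le_mul_of_nonneg_left e3 e4
          _ = _ := by ring
      obtain ⟨x, hx, hΦ⟩ := exists_le_of_sum_le hAlne hsum
      have hup : ∀ i < m, Function.update ω m x i = ω i := fun i hi =>
        Function.update_of_ne (by omega) _ _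
      refine ⟨Function.update ω m x, ?_, ?_, le_trans (le_of_eq ?_) (hΦ.trans h3)⟩
      · intro i hi
        rcases Nat.lt_succ_iff_lt_or_eq.1 hi with h | rfl
        · rw [hup i h]; exact h1 i h
        · rw [Function.update_self]; exact (mem_filter.1 hx).1
      · intro i hi j hj
        rcases Nat.lt_succ_iff_lt_or_eq.1 hi with h | rfl
        · rw [hup i h, hup j (by omega)]; exact h2 i h j hj
        · rw [Function.update_self, hup j hj]; exact (mem_filter.1 hx).2 j (mem_range.2 hj)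
      · simp only [Φ]
        apply sum_congr rfl
        intro t _
        have e1 : ((range m).filter fun i => hit t i (Function.update ω m x i)) =
            (range m).filter fun i => hit t i (ω i) :=
          filter_congr fun i hi => by rw [hup i (mem_range.1 hi)]
        rw [range_add_one, filter_insert, Function.update_self, e1]
        split_ifs with hh
        · rw [card_insert_of_notMem (by simp), pow_succ]
          ring
        · ring
  obtain ⟨ω, h1, h2, h3⟩ := main G le_rfl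
  refine ⟨ω, h1, h2, ?_⟩
  simpa using h3

/-- consequence of a small potential -/
lemma lt_of_pot {τ : Type} (Ts : Finset τ) (θ : τ → ℝ) (σ N : τ → ℕ) (hθ : ∀ t ∈ Ts, 1 ≤ θ t)
    (h : ∑ t ∈ Ts, (θ t ^ σ t)⁻¹ * θ t ^ N t < 1) : ∀ t ∈ Ts, N t < σ t := by
  intro t ht
  by_contra hcon
  push Not at hcon
  have h0 : ∀ s ∈ Ts, 0 ≤ (θ s ^ σ s)⁻¹ * θ s ^ N s := fun s hs => by
    have := hθ s hs
    positivity
  have h1 := single_le_sum h0 ht
  have h2 : 1 ≤ (θ t ^ σ t)⁻¹ * θ t ^ N t := by
    have := hθ t ht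
    rw [inv_mul_eq_div, le_div_iff₀ (by positivity), one_mul]
    exact pow_le_pow_right₀ this hcon
  linarith

/-- ordered pairs of disjoint edges -/
def DP (X : Finset ℕ) : Finset (Finset ℕ × Finset ℕ) :=
  (X.powersetCard 2 ×ˢ X.powersetCard 2).filter fun x => Disjoint x.1 x.2

lemma mem_DP {X : Finset ℕ} {x : Finset ℕ × Finset ℕ} :
    x ∈ DP X ↔ x.1 ⊆ X ∧ x.2 ⊆ X ∧ x.1.card = 2 ∧ x.2.card = 2 ∧ Disjoint x.1 x.2 := by
  simp only [DP, mem_filter, mem_product, mem_powersetCard]
  tauto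

lemma DP_fib1 (X e : Finset ℕ) (he : e ⊆ X) (h2 : e.card = 2) :
    ((DP X).filter fun x => x.1 = e).card = T (X.card - 2) := by
  have : ((DP X).filter fun x => x.1 = e) = ((X \ e).powersetCard 2).image fun t => (e, t) := by
    ext ⟨s, t⟩
    simp only [mem_filter, mem_DP, mem_image, mem_powersetCard, Prod.mk.injEq, subset_sdiff]
    constructor
    · rintro ⟨⟨-, a2, -, a4, a5⟩, rfl⟩
      exact ⟨t, ⟨⟨a2, a5.symm⟩, a4⟩, rfl, rfl⟩
    · rintro ⟨t', ⟨⟨a2, a5⟩, a4⟩, rfl, rfl⟩
      exact ⟨⟨he, a2, h2, a4, a5.symm⟩, rfl⟩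
  rw [this, card_image_of_injective _ (fun _ _ h => by simpa using h), card_powersetCard,
    card_sdiff_of_subset he, h2]
  rfl

lemma DP_fib2 (X e : Finset ℕ) (he : e ⊆ X) (h2 : e.card = 2) :
    ((DP X).filter fun x => x.2 = e).card = T (X.card - 2) := by
  rw [← DP_fib1 X e he h2]
  apply card_bij (fun x _ => x.swap)
  · intro x hx
    simp only [mem_filter, mem_DP, Prod.fst_swap, Prod.snd_swap] at hx ⊢
    exact ⟨⟨hx.1.2.1, hx.1.1, hx.1.2.2.2.1, hx.1.2.2.1, hx.1.2.2.2.2.symm⟩, hx.2⟩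
  · intro x _ y _ h
    exact Prod.swap_injective h
  · intro x hx
    refine ⟨x.swap, ?_, by simp⟩
    simp only [mem_filter, mem_DP, Prod.fst_swap, Prod.snd_swap] at hx ⊢
    exact ⟨⟨hx.1.2.1, hx.1.1, hx.1.2.2.2.1, hx.1.2.2.1, hx.1.2.2.2.2.symm⟩, hx.2⟩

lemma card_DP (X : Finset ℕ) : (DP X).card = T X.card * T (X.card - 2) := by
  rw [card_eq_sum_card_fiberwise (f := Prod.fst) (t := X.powersetCard 2)
    (fun x hx => by
      have := mem_DP.1 hx
      exact mem_powersetCard.2 ⟨this.1, this.2.2.1⟩)]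
  rw [sum_congr rfl fun e he => DP_fib1 X e (mem_powersetCard.1 he).1 (mem_powersetCard.1 he).2]
  rw [sum_const, card_powersetCard]
  rfl

lemma DP_filter {X Y : Finset ℕ} (h : Y ⊆ X) :
    ((DP X).filter fun x => x.1 ⊆ Y ∧ x.2 ⊆ Y) = DP Y := by
  ext x
  simp only [mem_filter, mem_DP]
  constructor
  · rintro ⟨⟨-, -, a, b, c⟩, d, e⟩
    exact ⟨d, e, a, b, c⟩
  · rintro ⟨d, e, a, b, c⟩
    exact ⟨⟨d.trans h, e.trans h, a, b, c⟩, d, e⟩

end Pool.Agent.P.MP_ea54b6_co
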