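import Pool.Agent.P.MP_ea54b6_co.Basic

/-! Uniform hypergraphs on an arbitrary infinite vertex set. -/

set_option autoImplicit false

namespace Pool.Agent.P.MP_ea54b6_co.Hyp

open Finset

variable {V : Type*}

theorem ramsey {β : Type*} [Finite β] (r : ℕ) : ∀ (f : Finset V → β) (S : Set V), S.Infinite →
    ∃ T ⊆ S, T.Infinite ∧ ∃ x, ∀ s : Finset V, ↑s ⊆ T → s.card = r → f s = x := by
  classical
  induction r with
  | zero => exact fun f S hS => ⟨S, subset_rfl, hS, f ∅, fun s _ h => by rw [card_eq_zero.1 h]⟩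
  | succ r ih =>
    intro f S hS
    have st : ∀ T : {T : Set V // T.Infinite}, ∃ (a : V) (W : {T : Set V // T.Infinite}) (x : β),
        a ∈ T.1 ∧ W.1 ⊆ T.1 \ {a} ∧
          ∀ s : Finset V, ↑s ⊆ W.1 → s.card = r → f (insert a s) = x := fun T => by
      obtain ⟨a, ha⟩ := T.2.nonempty
      obtain ⟨W, h1, h2, x, h3⟩ := ih (fun s => f (insert a s)) _
        (T.2.sdiff (Set.finite_singleton a))
      exact ⟨a, ⟨W, h2⟩, x, ha, h1, h3⟩
    choose a W x ha hW hx using st
    let T : ℕ → {T : Set V // T.Infinite} := fun n => W^[n] ⟨S, hS⟩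
    have e : ∀ n, T (n + 1) = W (T n) := fun n => Function.iterate_succ_apply' _ _ _
    have anti : Antitone fun n => (T n).1 := antitone_nat_of_succ_le fun n => by
      rw [e]
      exact (hW _).trans Set.sdiff_subset
    have lt : ∀ i j, i < j → a (T j) ∈ (W (T i)).1 := fun i j h => e i ▸ anti h (ha (T j))
    have inj : Function.Injective fun n => a (T n) :=
      Function.Injective.of_lt_imp_ne fun i j h q => (hW _ (lt i j h)).2 q.symm
    obtain ⟨c, hc⟩ := Finite.exists_infinite_fiber fun n => x (T n)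
    refine ⟨(fun n => a (T n)) '' ((fun n => x (T n)) ⁻¹' {c}), ?_,
      (Set.infinite_coe_iff.1 hc).image inj.injOn, c, fun s hs hr => ?_⟩
    · rintro _ ⟨n, -, rfl⟩
      exact anti (Nat.zero_le n) (ha (T n))
    · have ex : ∃ n, a (T n) ∈ s := by
        obtain ⟨b, hb⟩ := card_pos.1 (show 0 < s.card by omega)
        obtain ⟨n, -, rfl⟩ := hs hb
        exact ⟨n, hb⟩
      have h1 := Nat.find_spec ex
      obtain ⟨n, hn, h2⟩ := hs h1
      rw [← insert_erase h1, hx _ _ (fun b hb => ?_) (by rw [card_erase_of_mem h1]; omega),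
        ← inj h2]
      · exact hn
      · obtain ⟨b1, b2⟩ := mem_erase.1 hb
        obtain ⟨j, -, rfl⟩ := hs b2
        exact lt _ _ ((Nat.find_min' ex b2).lt_of_ne fun q => b1 (by rw [q]))

theorem ramsey_all {β : Type*} [Finite β] (f : Finset V → β) (S : Set V) (hS : S.Infinite)
    (n : ℕ) : ∃ T ⊆ S, T.Infinite ∧ ∀ s t : Finset V, ↑s ⊆ T → ↑t ⊆ T → s.card < n →
      s.card = t.card → f s = f t := by
  induction n with
  | zero => exact ⟨S, subset_rfl, hS, fun _ _ _ _ h => by omega⟩
  | succ n ih =>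
    obtain ⟨T, h1, h2, h3⟩ := ih
    obtain ⟨W, k1, k2, x, k3⟩ := ramsey n f T h2
    refine ⟨W, k1.trans h1, k2, fun s t hs ht h e => ?_⟩
    rcases (Nat.lt_succ_iff.1 h).eq_or_lt with q | q
    · rw [k3 s hs q, k3 t ht (e ▸ q)]
    · exact h3 s t (hs.trans k1) (ht.trans k1) q e

/-- the colours on the `r`-subsets of `S` -/
def seen {β : Type*} (r : ℕ) (f : Finset V → β) (S : Set V) : Set β :=
  {x | ∃ s : Finset V, ↑s ⊆ S ∧ s.card = r ∧ f s = x}

theorem one {β : Type*} [Finite β] [Infinite V] (r : ℕ) (f : Finset V → β) :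
    ∃ S : Set V, S.Infinite ∧ (seen r f S).ncard = 1 := by
  obtain ⟨T, -, hT, x, h⟩ := ramsey r f _ Set.infinite_univ
  refine ⟨T, hT, Set.ncard_eq_one.2 ⟨x, Set.eq_singleton_iff_unique_mem.2 ⟨?_, ?_⟩⟩⟩
  · obtain ⟨s, h1, h2⟩ := hT.exists_subset_card_eq r
    exact ⟨s, h1, h2, h s h1 h2⟩
  · rintro _ ⟨s, h1, h2, rfl⟩
    exact h s h1 h2

theorem two {β : Type*} [Finite β] [Infinite V] (r : ℕ) (f : Finset V → β)
    (hf : ∀ x, ∃ s : Finset V, s.card = r ∧ f s ≠ x) :
    ∃ S : Set V, S.Infinite ∧ (seen r f S).ncard = 2 := by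
  classical
  obtain ⟨T, -, hT, x, h⟩ := ramsey r f _ Set.infinite_univ
  obtain ⟨A, hA, hx⟩ := hf x
  obtain ⟨W, h1, hW, h2⟩ := ramsey_all (fun t (B : A.powerset) => f (B.1 ∪ t)) _
    (hT.sdiff A.finite_toSet) (r + 1)
  have ex : ∃ n, ∃ B ⊆ A, B.card = n ∧ ∃ t : Finset V, ↑t ⊆ W ∧ n + t.card = r ∧ f (B ∪ t) ≠ x :=
    ⟨r, A, subset_rfl, hA, ∅, by simp, rfl, by rwa [union_empty]⟩
  obtain ⟨B, hB, hn, t, ht, hr, hy⟩ := Nat.find_spec ex
  have dj : ∀ u : Finset V, ↑u ⊆ W → Disjoint B u := fun u hu =>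
    disjoint_left.2 fun a ha hb => (h1 (hu hb)).2 (hB ha)
  refine ⟨↑B ∪ W, hW.mono Set.subset_union_right, Set.ncard_eq_two.2 ⟨x, _, hy.symm, ?_⟩⟩
  refine Set.Subset.antisymm ?_ ?_
  · rintro _ ⟨s, s1, s2, rfl⟩
    have u1 : (↑(s \ B) : Set V) ⊆ W := fun a ha =>
      (s1 (mem_sdiff.1 ha).1).resolve_left (mem_sdiff.1 ha).2
    have u2 : s ∩ B ∪ s \ B = s := by rw [union_comm, sdiff_union_inter]
    have u3 := card_sdiff_add_card_inter s B
    by_cases c : s ∩ B = B
    · right
      rw [c] at u2 u3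
      rw [← u2]
      exact congrFun (h2 _ _ u1 ht (by omega) (by omega)) ⟨B, mem_powerset.2 hB⟩
    · left
      by_contra q
      have := card_lt_card (lt_of_le_of_ne (inter_subset_right (s₁ := s) (s₂ := B)) c)
      exact Nat.find_min ex (hn ▸ this) ⟨s ∩ B, inter_subset_right.trans hB, rfl, s \ B, u1,
        by omega, by rwa [u2]⟩
  · rintro _ (rfl | rfl)
    · obtain ⟨s, s1, s2⟩ := hW.exists_subset_card_eq r
      exact ⟨s, s1.trans Set.subset_union_right, s2,
        h s (s1.trans (h1.trans Set.sdiff_subset)) s2⟩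
    · refine ⟨B ∪ t, ?_, by rw [card_union_of_disjoint (dj t ht), hn, hr], rfl⟩
      rw [coe_union]
      exact Set.union_subset_union_right _ ht

/-- a configuration may be taken with at most two vertices per colour -/
theorem small {C M : ℕ} (h : Good C M) : ∃ (α K : Type) (U : Finset α) (v : α → Option K)
    (e : Finset α → Option K), U.card ≤ 2 * C ∧ ncol v e U = C ∧ ∀ X ⊆ U, ncol v e X ≠ M := by
  classical
  obtain ⟨α, K, U, v, e, hU, hX⟩ := h
  have w : ∀ c, ∃ Y : Finset α, c ∈ cols v e U → Y ⊆ U ∧ Y.card ≤ 2 ∧ c ∈ cols v e Y := fun c => by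
    by_cases hc : c ∈ cols v e U
    · rcases hc with ⟨x, hx, q⟩ | ⟨s, hs, h2, q⟩
      · exact ⟨{x}, fun _ => ⟨by simpa using hx, by simp, Or.inl ⟨x, by simp, q⟩⟩⟩
      · exact ⟨s, fun _ => ⟨hs, h2.le, Or.inr ⟨s, subset_rfl, h2, q⟩⟩⟩
    · exact ⟨∅, fun q => (hc q).elim⟩
  choose Y hY using w
  have fin := cols_finite v e U
  have sub : fin.toFinset.biUnion Y ⊆ U :=
    biUnion_subset.2 fun c hc => (hY c (fin.mem_toFinset.1 hc)).1
  refine ⟨α, K, fin.toFinset.biUnion Y, v, e, ?_, ?_, fun X q => hX X (q.trans sub)⟩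
  · refine (card_biUnion_le_card_mul _ _ 2 fun c hc => (hY c (fin.mem_toFinset.1 hc)).2.1).trans ?_
    rw [← Set.ncard_eq_toFinset_card _ fin, mul_comm]
    exact le_of_eq (congrArg (2 * ·) hU)
  · rw [← hU]
    refine congrArg Set.ncard (Set.Subset.antisymm (cols_mono v e sub) fun c hc => ?_)
    exact cols_mono v e (subset_biUnion_of_mem Y (fin.mem_toFinset.2 hc)) (hY c hc).2.2

theorem counter [Infinite V] {C M r : ℕ} (hr : 2 ≤ r) (h : Good C M) :
    ∃ f : Finset V → Fin (C + 1), seen r f Set.univ = Set.univ ∧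
      ∀ S : Set V, ((2 * C + r : ℕ) : ℕ∞) ≤ S.encard → (seen r f S).ncard ≠ M + 1 := by
  classical
  obtain ⟨α, K, U, v, e, hc, hU, hX⟩ := small h
  obtain ⟨φ, hφ⟩ : ∃ φ : α → V, Set.InjOn φ U := by
    let g := U.equivFin.toEmbedding.trans (Fin.valEmbedding.trans (Infinite.natEmbedding V))
    refine ⟨fun x => if q : x ∈ U then g ⟨x, q⟩ else Classical.arbitrary V, fun x hx y hy q => ?_⟩
    simp only [dif_pos (mem_coe.1 hx), dif_pos (mem_coe.1 hy)] at q
    exact congrArg Subtype.val (g.injective q)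
  let pre : Set V → Finset α := fun S => U.filter fun x => φ x ∈ S
  let col : Finset α → Option K := fun X =>
    if q : ∃ x, X = {x} then v q.choose else if X.card = 2 then e X else none
  have col1 : ∀ x, col {x} = v x := fun x => by
    have q : ∃ y, ({x} : Finset α) = {y} := ⟨x, rfl⟩
    simp only [col, dif_pos q]
    rw [← singleton_injective q.choose_spec]
  have col2 : ∀ X : Finset α, X.card ≠ 1 → col X = if X.card = 2 then e X else none :=
    fun X q => dif_neg fun p => q (card_eq_one.2 p)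
  have key : ∀ S : Set V, ((2 * C + r : ℕ) : ℕ∞) ≤ S.encard →
      seen r (fun s => col (pre s)) S = insert none (some '' cols v e (pre S)) := fun S hS => by
    obtain ⟨R, R1, R2⟩ := Set.exists_subset_encard_eq hS
    lift R to Finset V using Set.finite_of_encard_eq_coe R2
    rw [Set.encard_coe_eq_coe_finsetCard, Nat.cast_inj] at R2
    have R3 := le_card_sdiff (U.image φ) R
    have R4 := card_image_le (s := U) (f := φ)
    have ext : ∀ Y ⊆ pre S, Y.card ≤ r → col Y ∈ seen r (fun s => col (pre s)) S := fun Y hY q => by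
      obtain ⟨Z, Z1, Z2⟩ := exists_subset_card_eq
        (show r - Y.card ≤ (R \ U.image φ).card by omega)
      have YU : Y ⊆ U := hY.trans (filter_subset _ _)
      refine ⟨Y.image φ ∪ Z, fun a ha => ?_, ?_, congrArg col ?_⟩
      · rcases mem_union.1 ha with ha | ha
        · obtain ⟨x, hx, rfl⟩ := mem_image.1 ha
          exact (mem_filter.1 (hY hx)).2
        · exact R1 (mem_sdiff.1 (Z1 ha)).1
      · rw [card_union_of_disjoint (disjoint_left.2 fun a ha hb =>
          (mem_sdiff.1 (Z1 hb)).2 (image_subset_image YU ha)),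
          card_image_of_injOn (hφ.mono YU)]
        omega
      · ext x
        simp only [pre, mem_filter, mem_coe, mem_union, mem_image]
        refine ⟨fun ⟨hx, p⟩ => ?_, fun hx => ⟨YU hx, Or.inl ⟨x, hx, rfl⟩⟩⟩
        rcases p with ⟨y, hy, p⟩ | p
        · exact hφ (YU hy) hx p ▸ hy
        · exact ((mem_sdiff.1 (Z1 p)).2 (mem_image_of_mem φ hx)).elim
    refine Set.Subset.antisymm ?_ ?_
    · rintro o ⟨s, s1, -, q⟩
      have sub : pre s ⊆ pre S := fun x hx => by
        simp only [pre, mem_filter] at hx ⊢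
        exact ⟨hx.1, s1 hx.2⟩
      rcases o with _ | c
      · exact Or.inl rfl
      refine Or.inr ⟨c, ?_, rfl⟩
      simp only at q
      by_cases c1 : (pre s).card = 1
      · obtain ⟨x, hx⟩ := card_eq_one.1 c1
        rw [hx] at q sub
        exact Or.inl ⟨x, sub (mem_singleton_self x), col1 x ▸ q⟩
      · rw [col2 _ c1] at q
        split_ifs at q with c2
        exact Or.inr ⟨_, sub, c2, q⟩
    · rintro _ (rfl | ⟨c, ⟨x, hx, q⟩ | ⟨s, hs, c2, q⟩, rfl⟩)
      · have := ext ∅ (empty_subset _) (by simp)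
        rwa [col2 _ (by simp), if_neg (by simp)] at this
      · have := ext {x} (singleton_subset_iff.2 hx) (by rw [card_singleton]; omega)
        rwa [col1, q] at this
      · have := ext s hs (by omega)
        rwa [col2 _ (by omega), if_pos c2, q] at this
  have cnt : ∀ X, (insert none (some '' cols v e X)).ncard = ncol v e X + 1 := fun X => by
    rw [Set.ncard_insert_of_notMem (by simp) ((cols_finite v e X).image _),
      Set.ncard_image_of_injective _ (Option.some_injective _)]
    rfl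
  set A : Set (Option K) := insert none (some '' cols v e U) with hA
  have : Finite A := ((cols_finite v e U).image _).insert _
  let ψ : A ≃ Fin (C + 1) := Finite.equivFinOfCardEq (by rw [Nat.card_coe_set_eq, cnt, hU])
  let ι : Option K → Fin (C + 1) := fun o => if q : o ∈ A then ψ ⟨o, q⟩ else 0
  have inj : Set.InjOn ι A := fun a ha b hb q => by
    simp only [ι, dif_pos ha, dif_pos hb] at q
    exact congrArg Subtype.val (ψ.injective q)
  have img : ∀ S : Set V, seen r (fun s : Finset V => ι (col (pre s))) S =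
      ι '' seen r (fun s : Finset V => col (pre s)) S :=
    fun S => by
      ext x
      constructor
      · rintro ⟨s, a, b, q⟩
        exact ⟨_, ⟨s, a, b, rfl⟩, q⟩
      · rintro ⟨_, ⟨s, a, b, rfl⟩, q⟩
        exact ⟨s, a, b, q⟩
  refine ⟨fun s => ι (col (pre s)), ?_, fun S hS => ?_⟩
  · rw [img, key _ (by rw [Set.infinite_univ.encard_eq]; exact le_top),
      show pre Set.univ = U from Finset.ext fun x => by simp [pre]]
    exact Set.eq_univ_of_forall fun k => ⟨_, (ψ.symm k).2, by simp [ι]⟩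
  · have sub : pre S ⊆ U := filter_subset _ _
    rw [img, key S hS, Set.InjOn.ncard_image
      (inj.mono (Set.insert_subset_insert (Set.image_mono (cols_mono v e sub)))), cnt]
    have := hX _ sub
    omega

end Pool.Agent.P.MP_ea54b6_co.Hyp
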