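import Pool.Agent.P.MP_ea54b6_co.Sound4
import Pool.Agent.P.MP_ea54b6_co.DataA
import Pool.Agent.P.MP_ea54b6_co.DataB
import Pool.Agent.P.MP_ea54b6_co.DataC
import Pool.Agent.P.MP_ea54b6_co.DataD
import Pool.Agent.P.MP_ea54b6_co.DataE

set_option autoImplicit false

namespace Pool.Agent.P.MP_ea54b6_co

theorem good_all (M C : ℕ) (h2 : 2 ≤ M) (h : M < C) : Good C M := by
  refine good_of_hyp ?_ M C h2 h
  intro C M k a n D hH hM hC hn
  have := hH.ak
  by_cases c1 : k ≤ 9
  · exact root_sound certA hH hM hC hn (by omega) (Or.inr c1)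
  by_cases c2 : k ≤ 19
  · exact root_sound certB hH hM hC hn (by omega) (Or.inr c2)
  by_cases c3 : k ≤ 39
  · exact root_sound certC hH hM hC hn (by omega) (Or.inr c3)
  by_cases c4 : k ≤ 79
  · exact root_sound certD hH hM hC hn (by omega) (Or.inr c4)
  · exact root_sound certE hH hM hC hn (by omega) (Or.inl rfl)

end Pool.Agent.P.MP_ea54b6_co
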