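import Pool.Agent.P.MP_ea54b6_co.Greedy

set_option autoImplicit false

namespace Pool.Agent.P.MP_ea54b6_co

open Finset

lemma inner_sum (V : Finset ℕ) (θ z : ℝ) :
    ∑ S ∈ V.powerset, z ^ S.card * (if S = ∅ then 1 else θ⁻¹) =
      1 + ((1 + z) ^ V.card - 1) / θ := by
  have h1 : ∑ S ∈ V.powerset, z ^ S.card = (1 + z) ^ V.card := by
    have := prod_one_add (s := V) (f := fun _ => z)
    simp only [prod_const] at this
    exact this.symm
  have h2 : ∀ S ∈ V.powerset, z ^ S.card * (if S = ∅ then 1 else θ⁻¹) =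
      θ⁻¹ * z ^ S.card + (if S = ∅ then 1 - θ⁻¹ else 0) := by
    intro S _
    split_ifs with h
    · subst h; simp
    · ring
  rw [sum_congr rfl h2, sum_add_distrib, ← mul_sum, h1, sum_ite_eq']
  simp only [mem_powerset, empty_subset, if_true]
  ring

lemma class_sum {p : ℕ} (U : Finset ℕ) (g : ℕ → Fin p) (θ z : ℝ) (hθ : 0 < θ) (hz : 0 < z) :
    ∑ X ∈ U.powerset, z ^ X.card * (θ ^ (X.image g).card)⁻¹ ≤
      ∏ c : Fin p, (1 + ((1 + z) ^ (U.filter fun x => g x = c).card - 1) / θ) := by
  simp_rw [← inner_sum]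
  rw [prod_univ_sum]
  let φ : Finset ℕ → Fin p → Finset ℕ := fun X c => X.filter fun x => g x = c
  have hφ : ∀ X ∈ U.powerset, ∀ Y ∈ U.powerset, φ X = φ Y → X = Y := by
    intro X _ Y _ h
    ext x
    have := congrArg (fun S => x ∈ S) (congrFun h (g x))
    simpa [φ] using this
  have e1 : ∀ X ∈ U.powerset, z ^ X.card * (θ ^ (X.image g).card)⁻¹ =
      ∏ c : Fin p, (z ^ (φ X c).card * (if φ X c = ∅ then 1 else θ⁻¹)) := by
    intro X _
    rw [prod_mul_distrib, prod_pow_eq_pow_sum, prod_ite, prod_const_one, one_mul, prod_const,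
      inv_pow]
    congr 2
    · exact card_eq_sum_card_fiberwise (f := g) (t := univ) (fun _ _ => by simp)
    · congr 2
      ext c
      simp only [mem_image, mem_filter, mem_univ, true_and, φ, filter_eq_empty_iff]
      push Not
      rfl
  rw [sum_congr rfl e1, ← sum_image (g := φ)
    (f := fun y : Fin p → Finset ℕ =>
      ∏ c : Fin p, (z ^ (y c).card * (if y c = ∅ then 1 else θ⁻¹))) hφ]
  apply sum_le_sum_of_subset_of_nonneg
  · intro y hy
    obtain ⟨X, hX, rfl⟩ := mem_image.1 hy
    rw [Fintype.mem_piFinset]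
    intro c
    exact mem_powerset.2 (filter_subset_filter _ (mem_powerset.1 hX))
  · intro y _ _
    apply prod_nonneg
    intro c _
    split_ifs <;> positivity

theorem IG {C M k a n D p : ℕ} (hM : M + a = T (k + 1)) (hC : C + D = T n) (hp : 1 ≤ p)
    (hpn : p ≤ n) (hpb : p + a < k) (u θ z : ℝ) (hu0 : 0 ≤ u) (hθ : 1 ≤ θ) (hz : 0 < z)
    (hn : 4 ≤ n) (hA : 4 * (D + p - 1) < T n)
    (hu : ((T (k + 1) * T (k - 1) : ℕ) : ℝ) ≤ u * ((T (n - 2) * (T n - 4 * (D + p - 1)) : ℕ) : ℝ))
    (hB : ∀ q : Fin p → ℕ, (∀ c, q c = n / p ∨ q c = n / p + 1) → ∑ c, q c = n →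
      (1 + (θ - 1) * u) ^ (D + p) * ∏ c, (1 + ((1 + z) ^ q c - 1) / θ) < θ ^ a * z ^ (k + 1)) :
    Good C M := by
  set G := D + p with hG
  let g : ℕ → Fin p := fun x => ⟨x % p, Nat.mod_lt _ hp⟩
  have hT2 : 0 < T (n - 2) := Nat.choose_pos (by omega)
  obtain ⟨ω, h1, h2, h3⟩ := greedy (DP (range n)) ((range n).powersetCard (k + 1)) G
    (4 * T (n - 2)) (fun y x => x.1 = y.1 ∨ x.1 = y.2 ∨ x.2 = y.1 ∨ x.2 = y.2)
    (by
      intro y hy
      obtain ⟨a1, a2, a3, a4, -⟩ := mem_DP.1 hy
      have b1 := DP_fib1 _ _ a1 a3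
      have b2 := DP_fib1 _ _ a2 a4
      have b3 := DP_fib2 _ _ a1 a3
      have b4 := DP_fib2 _ _ a2 a4
      rw [card_range] at b1 b2 b3 b4
      rw [filter_or, filter_or, filter_or]
      refine (card_union_le _ _).trans ?_
      refine (Nat.add_le_add_left (card_union_le _ _) _).trans ?_
      refine (Nat.add_le_add_left (Nat.add_le_add_left (card_union_le _ _) _) _).trans ?_
      omega)
    ((T (n - 2) * (T n - 4 * (G - 1)) : ℕ) : ℝ)
    (by
      have : 0 < T (n - 2) * (T n - 4 * (G - 1)) := Nat.mul_pos hT2 (by omega)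
      exact_mod_cast this)
    (by
      rw [card_DP, card_range]
      have : T (n - 2) * (T n - 4 * (G - 1)) + 4 * T (n - 2) * (G - 1) = T n * T (n - 2) := by
        obtain ⟨r, hr⟩ : ∃ r, T n = 4 * (G - 1) + r := ⟨T n - 4 * (G - 1), by omega⟩
        rw [hr, Nat.add_sub_cancel_left]
        ring
      exact_mod_cast this.le)
    (fun X _ x => x.1 ⊆ X ∧ x.2 ⊆ X) (fun _ _ => u) (fun _ _ _ => hu0)
    (by
      intro X hX i _
      rw [DP_filter (mem_powersetCard.1 hX).1, card_DP, (mem_powersetCard.1 hX).2]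
      exact hu)
    (fun X => (θ ^ (a + (X.image g).card))⁻¹) (fun _ => θ) (fun _ _ => by positivity)
    (fun _ _ => hθ)
  have hq : ∀ c : Fin p, ((range n).filter fun x => g x = c).card = n / p ∨
      ((range n).filter fun x => g x = c).card = n / p + 1 := by
    intro c
    have e1 : ((range n).filter fun x => g x = c) = (range n).filter fun x => x ≡ c [MOD p] := by
      apply filter_congr
      intro x _
      simp only [g, Fin.ext_iff, Nat.ModEq, Nat.mod_eq_of_lt c.2]
    rw [e1, ← Nat.count_eq_card_filter_range, Nat.count_modEq_card _ hp]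
    split_ifs <;> simp
  have hsum : ∑ c : Fin p, ((range n).filter fun x => g x = c).card = n := by
    rw [← card_eq_sum_card_fiberwise (f := g) (t := univ) (fun _ _ => by simp), card_range]
  have hB' := hB _ hq hsum
  have hcs := class_sum (range n) g θ z (by linarith) hz
  have hF : 0 ≤ (1 + (θ - 1) * u) ^ G := by
    have := mul_nonneg (sub_nonneg.2 hθ) hu0
    positivity
  have hpot : ∑ X ∈ (range n).powersetCard (k + 1), (θ ^ (a + (X.image g).card))⁻¹ *
      ∏ _i ∈ range G, (1 + (θ - 1) * u) < 1 := by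
    rw [prod_const, card_range]
    have e1 : ∑ X ∈ (range n).powersetCard (k + 1), (θ ^ (a + (X.image g).card))⁻¹ *
        (1 + (θ - 1) * u) ^ G = (1 + (θ - 1) * u) ^ G / (θ ^ a * z ^ (k + 1)) *
        ∑ X ∈ (range n).powersetCard (k + 1), z ^ X.card * (θ ^ (X.image g).card)⁻¹ := by
      rw [mul_sum]
      apply sum_congr rfl
      intro X hX
      rw [(mem_powersetCard.1 hX).2, pow_add]
      field_simp
    have e2 : ∑ X ∈ (range n).powersetCard (k + 1), z ^ X.card * (θ ^ (X.image g).card)⁻¹ ≤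
        ∑ X ∈ (range n).powerset, z ^ X.card * (θ ^ (X.image g).card)⁻¹ :=
      sum_le_sum_of_subset_of_nonneg
        (fun X hX => mem_powerset.2 (mem_powersetCard.1 hX).1) (fun _ _ _ => by positivity)
    rw [e1, div_mul_eq_mul_div, div_lt_one (by positivity)]
    exact lt_of_le_of_lt (mul_le_mul_of_nonneg_left (e2.trans hcs) hF) hB'
  have hlt := lt_of_pot ((range n).powersetCard (k + 1)) (fun _ => θ)
    (fun X => a + (X.image g).card)
    (fun X => ((range G).filter fun i => (ω i).1 ⊆ X ∧ (ω i).2 ⊆ X).card) (fun _ _ => hθ)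
    (lt_of_le_of_lt h3 hpot)
  have hd : ∀ i ∈ range G, ∀ j ∈ range G, i ≠ j → (ω i).1 ≠ (ω j).1 ∧ (ω i).1 ≠ (ω j).2 ∧
      (ω i).2 ≠ (ω j).2 := by
    intro i hi j hj hij
    rcases lt_or_gt_of_ne hij with h | h
    · have := h2 j (mem_range.1 hj) i h
      push Not at this
      exact ⟨this.1.symm, this.2.2.1.symm, this.2.2.2.symm⟩
    · have := h2 i (mem_range.1 hi) j h
      push Not at this
      exact ⟨this.1, this.2.1, this.2.2.2⟩
  have hP : Pairs (range G) (fun i => (ω i).1) (fun i => (ω i).2) := by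
    refine ⟨fun i hi => (mem_DP.1 (h1 i (mem_range.1 hi))).2.2.1,
      fun i hi => (mem_DP.1 (h1 i (mem_range.1 hi))).2.2.2.1, ?_, ?_, ?_⟩
    · intro i hi j hj hh
      by_contra hij
      exact (hd i hi j hj hij).1 hh
    · intro i hi j hj hh
      by_contra hij
      exact (hd i hi j hj hij).2.2 hh
    · intro i hi j hj hh
      by_cases hij : i = j
      · subst hij
        obtain ⟨-, -, a3, -, a5⟩ := mem_DP.1 (h1 i (mem_range.1 hi))
        rw [← hh, disjoint_self_iff_empty] at a5
        rw [a5] at a3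
        simp at a3
      · exact (hd i hi j hj hij).2.1 hh
  refine TH (range n) (fun x => some (g x)) (range G) _ _ hP
    (fun i hi => ⟨(mem_DP.1 (h1 i (mem_range.1 hi))).1, (mem_DP.1 (h1 i (mem_range.1 hi))).2.1⟩)
    (p := p) hM ?_ ?_ hpb ?_
  · rw [ncl_some]
    have : (range n).image g = univ := by
      ext c
      simp only [mem_image, mem_range, mem_univ, iff_true]
      exact ⟨c, by omega, Fin.ext (Nat.mod_eq_of_lt c.2)⟩
    rw [this, card_univ, Fintype.card_fin]
  · rw [card_range, card_range]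
    omega
  · intro X hX hc
    rw [ncl_some]
    exact hlt X (mem_powersetCard.2 ⟨hX, hc⟩)

noncomputable def rvTerm (p a D y : ℕ) (θ : ℝ) : ℝ :=
  (p.choose y : ℝ) * ((θ ^ (a + y))⁻¹ *
    ((1 + (θ - 1) * ((y : ℝ) / p) ^ 3) ^ y * (1 + (θ - 1) * ((y : ℝ) / p) ^ 4) ^ D))

lemma rvTerm_nonneg (p a D y : ℕ) {θ : ℝ} (hθ : 1 ≤ θ) : 0 ≤ rvTerm p a D y θ := by
  unfold rvTerm
  have := sub_nonneg.2 hθ
  positivity

theorem RV {C M k a n D p ym : ℕ} (hM : M + a = T (k + 1)) (hC : C + D = T n) (hp : 1 ≤ p)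
    (hpb : p + a < k) (hn : 4 * (p + D) ≤ n) (hym : k + 1 < 4 * (a + ym + 1))
    (θ : ℕ → ℝ) (hθ : ∀ y, 1 ≤ θ y) (hB : ∑ y ∈ Icc 1 ym, rvTerm p a D y (θ y) < 1) :
    Good C M := by
  set G := p + D with hG
  let co : ℕ → (Fin 4 → ℕ) → Fin 4 → ℕ := fun i x j => if j = 0 ∧ i < p then i else x j
  let u : Finset ℕ → ℕ → ℝ := fun Y i =>
    if i < p then (if i ∈ Y then ((Y.card : ℝ) / p) ^ 3 else 0) else ((Y.card : ℝ) / p) ^ 4
  have hp' : (0 : ℝ) < p := by exact_mod_cast hp
  obtain ⟨ω, h1, -, h3⟩ := greedy (Fintype.piFinset fun _ : Fin 4 => range p)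
    ((range p).powerset.filter fun Y => 1 ≤ Y.card ∧ Y.card ≤ ym) G 0 (fun _ _ => False)
    (by simp) ((p : ℝ) ^ 4) (by positivity) (by simp)
    (fun Y i x => ∀ j, co i x j ∈ Y) u
    (by
      intro Y _ i
      simp only [u]
      split_ifs <;> positivity)
    (by
      intro Y hY i _
      have hYp : Y ⊆ range p := mem_powerset.1 (mem_filter.1 hY).1
      have e1 : ((Fintype.piFinset fun _ : Fin 4 => range p).filter fun x => ∀ j, co i x j ∈ Y) ⊆
          Fintype.piFinset fun j : Fin 4 =>
            if j = 0 ∧ i < p then (if i ∈ Y then range p else ∅) else Y := by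
        intro x hx
        rw [Fintype.mem_piFinset]
        intro j
        have a1 := Fintype.mem_piFinset.1 (mem_filter.1 hx).1 j
        have a2 := (mem_filter.1 hx).2 j
        simp only [co] at a2
        by_cases b1 : j = 0 ∧ i < p
        · rw [if_pos b1] at a2 ⊢
          rw [if_pos a2]
          exact a1
        · rw [if_neg b1] at a2 ⊢
          exact a2
      have e2 := card_le_card e1
      rw [Fintype.card_piFinset, Fin.prod_univ_four] at e2
      have e3 : (((Fintype.piFinset fun _ : Fin 4 => range p).filter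
        fun x => ∀ j, co i x j ∈ Y).card : ℝ) ≤ _ := Nat.cast_le.2 e2
      refine e3.trans (le_of_eq ?_)
      have n1 : ¬ ((1 : Fin 4) = 0 ∧ i < p) := fun h => absurd h.1 (by decide)
      have n2 : ¬ ((2 : Fin 4) = 0 ∧ i < p) := fun h => absurd h.1 (by decide)
      have n3 : ¬ ((3 : Fin 4) = 0 ∧ i < p) := fun h => absurd h.1 (by decide)
      rw [if_neg n1, if_neg n2, if_neg n3]
      simp only [u]
      by_cases b1 : i < p
      · rw [if_pos ⟨trivial, b1⟩, if_pos b1]
        by_cases b2 : i ∈ Y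
        · rw [if_pos b2, if_pos b2, card_range]
          push_cast
          generalize (Y.card : ℝ) = y
          generalize (p : ℝ) = r at hp'
          field_simp
        · rw [if_neg b2, if_neg b2]
          simp
      · rw [if_neg (fun h => b1 h.2), if_neg b1]
        push_cast
        generalize (Y.card : ℝ) = y
        generalize (p : ℝ) = r at hp'
        field_simp)
    (fun Y => (θ Y.card ^ (a + Y.card))⁻¹) (fun Y => θ Y.card)
    (fun Y _ => by have := hθ Y.card; positivity) (fun Y _ => hθ _)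
  have hpot : ∑ Y ∈ (range p).powerset.filter fun Y => 1 ≤ Y.card ∧ Y.card ≤ ym,
      (θ Y.card ^ (a + Y.card))⁻¹ * ∏ i ∈ range G, (1 + (θ Y.card - 1) * u Y i) < 1 := by
    let F : ℕ → ℝ := fun y => (θ y ^ (a + y))⁻¹ *
      ((1 + (θ y - 1) * ((y : ℝ) / p) ^ 3) ^ y * (1 + (θ y - 1) * ((y : ℝ) / p) ^ 4) ^ D)
    have e1 : ∀ Y ∈ (range p).powerset.filter fun Y => 1 ≤ Y.card ∧ Y.card ≤ ym,
        (θ Y.card ^ (a + Y.card))⁻¹ * ∏ i ∈ range G, (1 + (θ Y.card - 1) * u Y i) = F Y.card := by
      intro Y hY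
      have hYp : Y ⊆ range p := mem_powerset.1 (mem_filter.1 hY).1
      simp only [F]
      congr 1
      rw [hG, prod_range_add]
      congr 1
      · have : ∀ i ∈ range p, (1 + (θ Y.card - 1) * u Y i) =
            if i ∈ Y then 1 + (θ Y.card - 1) * ((Y.card : ℝ) / p) ^ 3 else 1 := by
          intro i hi
          simp only [u, if_pos (mem_range.1 hi)]
          split_ifs <;> simp
        rw [prod_congr rfl this, prod_ite, prod_const_one, mul_one, prod_const,
          filter_mem_eq_inter, inter_eq_right.2 hYp]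
      · have : ∀ i ∈ range D, (1 + (θ Y.card - 1) * u Y (p + i)) =
            1 + (θ Y.card - 1) * ((Y.card : ℝ) / p) ^ 4 := by
          intro i _
          simp only [u, if_neg (show ¬ p + i < p by omega)]
        rw [prod_congr rfl this, prod_const, card_range]
    rw [sum_congr rfl e1, sum_filter,
      sum_powerset_apply_card (fun m => if 1 ≤ m ∧ m ≤ ym then F m else 0), card_range]
    refine lt_of_le_of_lt ?_ hB
    have e2 : ∀ m ∈ range (p + 1), p.choose m • (if 1 ≤ m ∧ m ≤ ym then F m else 0) =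
        if 1 ≤ m ∧ m ≤ ym then rvTerm p a D m (θ m) else 0 := by
      intro m _
      split_ifs
      · rw [nsmul_eq_mul]; rfl
      · simp
    rw [sum_congr rfl e2, ← sum_filter]
    apply sum_le_sum_of_subset_of_nonneg
    · intro m hm
      exact mem_Icc.2 (mem_filter.1 hm).2
    · intro m _ _
      exact rvTerm_nonneg _ _ _ _ (hθ m)
  have hlt := lt_of_pot _ (fun Y : Finset ℕ => θ Y.card) (fun Y => a + Y.card)
    (fun Y => ((range G).filter fun i => ∀ j, co i (ω i) j ∈ Y).card) (fun _ _ => hθ _)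
    (lt_of_le_of_lt h3 hpot)
  let g : ℕ → ℕ := fun v =>
    if v < 4 * G then co (v / 4) (ω (v / 4)) ⟨v % 4, Nat.mod_lt _ (by norm_num)⟩ else 0
  have hg : ∀ v, g v < p := by
    intro v
    simp only [g, co]
    split_ifs with b1 b2
    · exact b2.2
    · exact mem_range.1 (Fintype.mem_piFinset.1 (h1 _ (by omega)) _)
    · omega
  have hg2 : ∀ i < G, ∀ j : Fin 4, g (4 * i + j) = co i (ω i) j := by
    intro i hi j
    have b1 : (4 * i + j) / 4 = i := by omega
    have b2 : (4 * i + j) % 4 = j := by omega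
    simp only [g, if_pos (show 4 * i + j < 4 * G by omega), b1, b2]
  have hP : Pairs (range G) (fun i : ℕ => ({4 * i, 4 * i + 1} : Finset ℕ))
      (fun i => {4 * i + 2, 4 * i + 3}) := by
    refine ⟨fun i _ => card_pair (by omega), fun i _ => card_pair (by omega), ?_, ?_, ?_⟩ <;>
    · intro i _ j _ hh
      have := pair_eq hh
      omega
  refine TH (range n) (fun x => some (g x)) (range G) _ _ hP ?_ (p := p) hM ?_ ?_ hpb ?_
  · intro i hi
    have := mem_range.1 hi
    constructor <;> intro x hx <;> simp only [mem_insert, mem_singleton, mem_range] at hx ⊢ <;>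
      omega
  · rw [ncl_some]
    have : (range n).image g = range p := by
      ext c
      simp only [mem_image, mem_range]
      constructor
      · rintro ⟨v, -, rfl⟩
        exact hg v
      · intro hc
        refine ⟨4 * c + (0 : Fin 4), by simp; omega, ?_⟩
        rw [hg2 c (by omega)]
        simp [co, hc]
    rw [this, card_range]
  · rw [card_range, card_range]
    omega
  · intro X _ hc
    rw [ncl_some]
    unfold act
    set A := (range G).filter fun i => ({4 * i, 4 * i + 1} : Finset ℕ) ⊆ X ∧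
      ({4 * i + 2, 4 * i + 3} : Finset ℕ) ⊆ X with hA
    have hmem : ∀ i ∈ A, ∀ j : Fin 4, 4 * i + j ∈ X := by
      intro i hi j
      have := (mem_filter.1 hi).2
      simp only [insert_subset_iff, singleton_subset_iff] at this
      fin_cases j
      · exact this.1.1
      · exact this.1.2
      · exact this.2.1
      · exact this.2.2
    rcases le_or_gt (X.image g).card ym with h | h
    · have b1 := hlt (X.image g) (mem_filter.2 ⟨mem_powerset.2 (by
        intro c hc
        obtain ⟨v, -, rfl⟩ := mem_image.1 hc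
        exact mem_range.2 (hg v)), card_pos.2 ((card_pos.1 (by omega)).image _), h⟩)
      refine lt_of_le_of_lt (card_le_card ?_) b1
      intro i hi
      refine mem_filter.2 ⟨(mem_filter.1 hi).1, fun j => ?_⟩
      rw [← hg2 i (mem_range.1 (mem_filter.1 hi).1) j]
      exact mem_image_of_mem _ (hmem i hi j)
    · have b1 : (A ×ˢ (univ : Finset (Fin 4))).card ≤ X.card := by
        apply card_le_card_of_injOn (fun x : ℕ × Fin 4 => 4 * x.1 + (x.2 : ℕ))
        · rintro ⟨i, j⟩ hx
          exact hmem i (mem_product.1 hx).1 j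
        · rintro ⟨i, j⟩ _ ⟨i', j'⟩ _ hh
          simp only at hh
          exact Prod.ext (by simp only; omega) (Fin.ext (by simp only; omega))
      rw [card_product, card_univ, Fintype.card_fin] at b1
      omega

end Pool.Agent.P.MP_ea54b6_co
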