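import Pool.Agent.P.MP_ea54b6_co.Rand1

set_option autoImplicit false

namespace Pool.Agent.P.MP_ea54b6_co

open Finset

lemma choose_mul_le (n k : ℕ) {x : ℝ} (hx : 0 ≤ x) : (n.choose k : ℝ) * x ^ k ≤ (1 + x) ^ n := by
  rcases lt_or_ge n k with h | h
  · rw [Nat.choose_eq_zero_of_lt h]
    simp only [Nat.cast_zero, zero_mul]
    positivity
  · rw [add_comm, add_pow]
    have := single_le_sum (f := fun m => x ^ m * 1 ^ (n - m) * (n.choose m : ℝ))
      (s := range (n + 1)) (fun m _ => by positivity) (mem_range.2 (show k < n + 1 by omega))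
    simp only [one_pow, mul_one] at this ⊢
    rw [mul_comm]
    exact this

lemma one_add_pow_le_exp (n : ℕ) {x : ℝ} (hx : 0 ≤ x) : (1 + x) ^ n ≤ Real.exp (n * x) := by
  rw [Real.exp_nat_mul]
  exact pow_le_pow_left₀ (by positivity) (by linarith [Real.add_one_le_exp x]) n

lemma choose_le_exp (n k : ℕ) (hn : 0 < n) :
    (n.choose k : ℝ) * ((k : ℝ) / n) ^ k ≤ Real.exp k := by
  have h1 := choose_mul_le n k (x := (k : ℝ) / n) (by positivity)
  have h2 := one_add_pow_le_exp n (x := (k : ℝ) / n) (by positivity)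
  have : (n : ℝ) * ((k : ℝ) / n) = k := by field_simp
  rw [this] at h2
  linarith

lemma exp_three_lt : Real.exp 3 < 20.1 := by
  have h := Real.exp_one_lt_d9
  have : Real.exp 3 = Real.exp 1 ^ 3 := by rw [← Real.exp_nat_mul]; norm_num
  rw [this]
  have h0 := (Real.exp_pos 1).le
  calc Real.exp 1 ^ 3 ≤ 2.7182818286 ^ 3 := pow_le_pow_left₀ h0 h.le 3
    _ < 20.1 := by norm_num

lemma four_TT (N : ℕ) (hN : 3 ≤ N) : (4 : ℝ) * ((T N * T (N - 2) : ℕ) : ℝ) =
    N * (N - 1) * (N - 2) * (N - 3) := by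
  obtain ⟨m, rfl⟩ : ∃ m, N = m + 3 := ⟨N - 3, by omega⟩
  have h1 : 2 * T (m + 3) = (m + 3) * (m + 2) := two_T (m + 2)
  have h2 : 2 * T (m + 1) = (m + 1) * m := two_T m
  have h3 : m + 3 - 2 = m + 1 := by omega
  rw [h3]
  have h1' : (2 : ℝ) * T (m + 3) = (m + 3) * (m + 2) := by exact_mod_cast h1
  have h2' : (2 : ℝ) * T (m + 1) = (m + 1) * m := by exact_mod_cast h2
  push_cast
  calc (4 : ℝ) * (T (m + 3) * T (m + 1)) = (2 * T (m + 3)) * (2 * T (m + 1)) := by ring
    _ = _ := by rw [h1', h2']; ring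

lemma par_num {N κ G σ : ℕ} (hκ : 4 ≤ κ) (hN : κ ≤ N) (hG : 1 ≤ G) (hσ : κ ≤ 2 * σ)
    (h : 41 * κ * G + 64 * G + 6 * N ≤ N ^ 2) :
    ∃ A u θ : ℝ, 0 < A ∧ A + (16 * N ^ 2 : ℕ) * ((G - 1 : ℕ) : ℝ) ≤ ((T N * T (N - 2) : ℕ) : ℝ) ∧
      0 ≤ u ∧ ((T κ * T (κ - 2) : ℕ) : ℝ) ≤ u * A ∧ 1 ≤ θ ∧
      (N.choose κ : ℝ) * ((θ ^ σ)⁻¹ * (1 + (θ - 1) * u) ^ G) < 1 := by
  have hκ' : (4 : ℝ) ≤ κ := by exact_mod_cast hκ
  have hN' : (κ : ℝ) ≤ N := by exact_mod_cast hN
  have hG' : (1 : ℝ) ≤ G := by exact_mod_cast hG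
  have h' : (41 : ℝ) * κ * G + 64 * G + 6 * N ≤ N ^ 2 := by exact_mod_cast h
  have hN0 : (0 : ℝ) < N := by linarith
  have hκ0 : (0 : ℝ) < κ := by linarith
  set A : ℝ := 41 / 4 * κ * G * N ^ 2 with hA
  have hA0 : 0 < A := by positivity
  set u : ℝ := κ ^ 4 / (4 * A) with hu
  have hu0 : 0 < u := by positivity
  set θ : ℝ := κ / (2 * u * G) with hθ
  have hθ2 : θ = 41 / 2 * ((N : ℝ) / κ) ^ 2 := by
    rw [hθ, hu, hA]
    field_simp
  have hr : (1 : ℝ) ≤ (N : ℝ) / κ := (one_le_div hκ0).2 hN'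
  have hθ1 : 1 ≤ θ := by
    rw [hθ2]
    nlinarith
  refine ⟨A, u, θ, hA0, ?_, hu0.le, ?_, hθ1, ?_⟩
  · have e1 := four_TT N (by omega)
    have e2 : ((G - 1 : ℕ) : ℝ) ≤ G := by exact_mod_cast Nat.sub_le G 1
    have e3 : (16 * N ^ 2 : ℕ) * ((G - 1 : ℕ) : ℝ) ≤ 16 * N ^ 2 * G := by
      push_cast
      exact mul_le_mul_of_nonneg_left e2 (by positivity)
    have e4 : (N : ℝ) ^ 2 * (41 * κ * G + 64 * G + 6 * N) ≤ N ^ 2 * N ^ 2 :=
      mul_le_mul_of_nonneg_left h' (by positivity)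
    have e5 : (0 : ℝ) ≤ N * (11 * N - 6) := mul_nonneg hN0.le (by linarith)
    nlinarith
  · have e1 := four_TT κ (by omega)
    have e2 : u * A = κ ^ 4 / 4 := by
      rw [hu]
      field_simp
    rw [e2]
    have e3 : (κ : ℝ) * (κ - 1) * (κ - 2) * (κ - 3) ≤ κ * κ * κ * κ := by
      apply mul_le_mul _ (by linarith) (by linarith) (by positivity)
      apply mul_le_mul _ (by linarith) (by linarith) (by positivity)
      exact mul_le_mul_of_nonneg_left (by linarith) hκ0.le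
    nlinarith
  · have b1 := choose_le_exp N κ (by omega)
    have b2 : (1 + (θ - 1) * u) ^ G ≤ Real.exp (κ / 2) := by
      refine (one_add_pow_le_exp G (mul_nonneg (by linarith) hu0.le)).trans
        (Real.exp_le_exp.2 ?_)
      have : G * (θ * u) = κ / 2 := by
        rw [hθ]
        field_simp
      nlinarith
    have b3 : θ ^ κ ≤ (θ ^ σ) ^ 2 := by
      rw [← pow_mul]
      exact pow_le_pow_right₀ hθ1 (by omega)
    have b0 : 0 ≤ (1 + (θ - 1) * u) ^ G := by
      have := mul_nonneg (sub_nonneg.2 hθ1) hu0.le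
      positivity
    have b4 : (N.choose κ : ℝ) ≤ Real.exp κ * ((N : ℝ) / κ) ^ κ := by
      have : ((κ : ℝ) / N) ^ κ * ((N : ℝ) / κ) ^ κ = 1 := by
        rw [← mul_pow]
        have : (κ : ℝ) / N * ((N : ℝ) / κ) = 1 := by field_simp
        rw [this, one_pow]
      calc (N.choose κ : ℝ) = (N.choose κ : ℝ) * ((κ : ℝ) / N) ^ κ * ((N : ℝ) / κ) ^ κ := by
            rw [mul_assoc, this, mul_one]
        _ ≤ _ := mul_le_mul_of_nonneg_right b1 (by positivity)
    have b5 : ((N.choose κ : ℝ) * (1 + (θ - 1) * u) ^ G) ^ 2 < (θ ^ σ) ^ 2 := by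
      refine lt_of_lt_of_le ?_ b3
      have c1 : (N.choose κ : ℝ) * (1 + (θ - 1) * u) ^ G ≤
          Real.exp κ * ((N : ℝ) / κ) ^ κ * Real.exp (κ / 2) :=
        mul_le_mul b4 b2 b0 (by positivity)
      have c2 : (Real.exp κ * ((N : ℝ) / κ) ^ κ * Real.exp (κ / 2)) ^ 2 =
          (Real.exp 3 * ((N : ℝ) / κ) ^ 2) ^ κ := by
        rw [mul_pow, mul_pow, mul_pow, ← Real.exp_nat_mul, ← Real.exp_nat_mul,
          ← Real.exp_nat_mul, ← pow_mul, ← pow_mul, mul_comm κ 2, mul_right_comm, ← Real.exp_add]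
        congr 2
        push_cast
        ring
      calc _ ≤ (Real.exp κ * ((N : ℝ) / κ) ^ κ * Real.exp (κ / 2)) ^ 2 :=
            pow_le_pow_left₀ (by positivity) c1 2
        _ = _ := c2
        _ < θ ^ κ := by
          apply pow_lt_pow_left₀ _ (by positivity) (by omega)
          rw [hθ2]
          have := exp_three_lt
          have : (0 : ℝ) < ((N : ℝ) / κ) ^ 2 := by positivity
          nlinarith
    have b6 := lt_of_pow_lt_pow_left₀ 2 (by positivity) b5
    rw [← mul_comm ((1 + (θ - 1) * u) ^ G), ← mul_assoc, ← div_eq_mul_inv,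
      div_lt_one (by positivity)]
    exact b6

theorem PAR {C M k a n D G : ℕ} (hM : M + a = T (k + 1)) (hC : C + D = T n) (hak : a + 2 ≤ k)
    (hkn : k ≤ n) (hG : 2 * G = 2 * n + 1 + D + (a + 1) % 2)
    (h : 41 * (k + 2) * G + 64 * G + 6 * (n + 2) ≤ (n + 2) ^ 2) : Good C M := by
  set ε := (a + 1) % 2 with hε
  set N := n + 2 with hN
  obtain ⟨A, u, θ, hA0, hA1, hu0, hu1, hθ, hB⟩ := par_num (N := N) (κ := k + 2) (G := G)
    (σ := (a + ε + k + 2) / 2) (by omega) (by omega) (by omega) (by omega) h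
  obtain ⟨ω, h1, h2, h3⟩ := greedy (DP (range N)) ((range N).powersetCard (k + 2)) G
    (16 * N ^ 2) (fun y x => ¬ Disjoint x.1 (y.1 ∪ y.2) ∧ ¬ Disjoint x.2 (y.1 ∪ y.2))
    (by
      intro y hy
      obtain ⟨-, -, a3, a4, -⟩ := mem_DP.1 hy
      set S := ((y.1 ∪ y.2) ×ˢ range N).image fun q : ℕ × ℕ => ({q.1, q.2} : Finset ℕ) with hS
      have s1 : S.card ≤ 4 * N := by
        refine card_image_le.trans ?_
        rw [card_product, card_range]
        have := card_union_le y.1 y.2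
        exact Nat.mul_le_mul_right _ (by omega)
      have s2 : ∀ e : Finset ℕ, e ⊆ range N → e.card = 2 → ¬ Disjoint e (y.1 ∪ y.2) → e ∈ S := by
        intro e he hc hd
        obtain ⟨b, c, -, rfl⟩ := card_eq_two.1 hc
        rw [not_disjoint_iff] at hd
        obtain ⟨z, hz, hz2⟩ := hd
        simp only [mem_insert, mem_singleton] at hz
        rcases hz with rfl | rfl
        · exact mem_image.2 ⟨(z, c), mem_product.2 ⟨hz2, he (by simp)⟩, rfl⟩
        · exact mem_image.2 ⟨(z, b), mem_product.2 ⟨hz2, he (by simp)⟩, pair_comm _ _⟩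
      have s3 : ((DP (range N)).filter fun x =>
          ¬ Disjoint x.1 (y.1 ∪ y.2) ∧ ¬ Disjoint x.2 (y.1 ∪ y.2)) ⊆ S ×ˢ S := by
        intro x hx
        obtain ⟨b1, b2, b3, b4, -⟩ := mem_DP.1 (mem_filter.1 hx).1
        exact mem_product.2 ⟨s2 _ b1 b3 (mem_filter.1 hx).2.1, s2 _ b2 b4 (mem_filter.1 hx).2.2⟩
      have s4 := card_le_card s3
      rw [card_product] at s4
      have s5 := Nat.mul_le_mul s1 s1
      nlinarith)
    A hA0 (by rw [card_DP, card_range]; exact hA1)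
    (fun X _ x => x.1 ⊆ X ∧ x.2 ⊆ X) (fun _ _ => u) (fun _ _ _ => hu0)
    (by
      intro X hX i _
      rw [DP_filter (mem_powersetCard.1 hX).1, card_DP, (mem_powersetCard.1 hX).2]
      exact hu1)
    (fun _ => (θ ^ ((a + ε + k + 2) / 2))⁻¹) (fun _ => θ) (fun _ _ => by positivity)
    (fun _ _ => hθ)
  have hlt := lt_of_pot ((range N).powersetCard (k + 2)) (fun _ => θ)
    (fun _ => (a + ε + k + 2) / 2)
    (fun X => ((range G).filter fun i => (ω i).1 ⊆ X ∧ (ω i).2 ⊆ X).card) (fun _ _ => hθ)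
    (lt_of_le_of_lt h3 (by
      rw [sum_const, card_powersetCard, card_range, prod_const, card_range, nsmul_eq_mul]
      exact hB))
  have ex : ∀ s : Finset ℕ, ∃ f : Bool → ℕ, s.card = 2 → f false ≠ f true ∧
      s = {f false, f true} := by
    intro s
    by_cases hs : s.card = 2
    · obtain ⟨b, c, hbc, rfl⟩ := card_eq_two.1 hs
      exact ⟨fun t => if t then c else b, fun _ => ⟨by simpa using hbc, by simp⟩⟩
    · exact ⟨fun _ => 0, fun h => absurd h hs⟩
  choose f hf using ex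
  let w : ℕ → Bool → ℕ := fun i => f (ω i).1
  let x : ℕ → Bool → ℕ := fun i => f (ω i).2
  have hw : ∀ i ∈ range G, w i false ≠ w i true ∧ (ω i).1 = {w i false, w i true} :=
    fun i hi => hf _ (mem_DP.1 (h1 i (mem_range.1 hi))).2.2.1
  have hx : ∀ i ∈ range G, x i false ≠ x i true ∧ (ω i).2 = {x i false, x i true} :=
    fun i hi => hf _ (mem_DP.1 (h1 i (mem_range.1 hi))).2.2.2.1
  have mw : ∀ i ∈ range G, ∀ s, w i s ∈ (ω i).1 := by
    intro i hi s
    rw [(hw i hi).2]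
    cases s <;> simp
  have mx : ∀ i ∈ range G, ∀ s, x i s ∈ (ω i).2 := by
    intro i hi s
    rw [(hx i hi).2]
    cases s <;> simp
  have hne : ∀ i ∈ range G, ∀ s t, w i s ≠ x i t := by
    intro i hi s t hh
    have := (mem_DP.1 (h1 i (mem_range.1 hi))).2.2.2.2
    exact disjoint_left.1 this (mw i hi s) (hh ▸ mx i hi t)
  have hcf : ∀ i ∈ range G, ∀ j < i, ∀ s t s' t',
      ({w i s, x i t} : Finset ℕ) ≠ {w j s', x j t'} := by
    intro i hi j hj s t s' t' hh
    have hj' : j ∈ range G := mem_range.2 (hj.trans (mem_range.1 hi))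
    apply h2 i (mem_range.1 hi) j hj
    have c1 := mw j hj' s'
    have c2 := mx j hj' t'
    rcases pair_eq hh with ⟨d1, d2⟩ | ⟨d1, d2⟩
    · exact ⟨not_disjoint_iff.2 ⟨_, mw i hi s, mem_union_left _ (d1 ▸ c1)⟩,
        not_disjoint_iff.2 ⟨_, mx i hi t, mem_union_right _ (d2 ▸ c2)⟩⟩
    · exact ⟨not_disjoint_iff.2 ⟨_, mw i hi s, mem_union_right _ (d1 ▸ c2)⟩,
        not_disjoint_iff.2 ⟨_, mx i hi t, mem_union_left _ (d2 ▸ c1)⟩⟩
  have hP := C4pairs (range G) w x hne (by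
    intro i hi j hj s t s' t' hh
    rcases lt_trichotomy i j with h | rfl | h
    · exact absurd hh.symm (hcf j hj i h _ _ _ _)
    · rcases pair_eq hh with ⟨d1, d2⟩ | ⟨d1, -⟩
      · have c1 := (hw i hi).1
        have c2 := (hx i hi).1
        refine ⟨rfl, ?_, ?_⟩
        · cases s <;> cases s'
          exacts [rfl, absurd d1 c1, absurd d1.symm c1, rfl]
        · cases t <;> cases t'
          exacts [rfl, absurd d2 c2, absurd d2.symm c2, rfl]
      · exact absurd d1 (hne i hi _ _)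
    · exact absurd hh (hcf i hi j h _ _ _ _))
  refine SK (range N) _ _ _ hP ?_ (ε := ε) hM (by omega) (by rw [card_range]; omega) ?_
    (by omega) ?_ ?_
  · rintro ⟨i, b⟩ hp
    have hi := (mem_product.1 hp).1
    obtain ⟨b1, b2, -⟩ := mem_DP.1 (h1 i (mem_range.1 hi))
    simp only [cE1, cE2, insert_subset_iff, singleton_subset_iff]
    exact ⟨⟨b1 (mw i hi _), b2 (mx i hi _)⟩, b1 (mw i hi _), b2 (mx i hi _)⟩
  · rw [card_product, card_range, card_range]
    simp only [card_univ, Fintype.card_bool]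
    have t1 := T_succ n
    have t2 : T N = T (n + 1) + (n + 1) := T_succ (n + 1)
    omega
  · intro X _ _
    rw [C4act]
    omega
  · intro X hX hc
    rw [C4act]
    have b1 := hlt X (mem_powersetCard.2 ⟨hX, hc⟩)
    have b2 : ((range G).filter fun j =>
        w j false ∈ X ∧ w j true ∈ X ∧ x j false ∈ X ∧ x j true ∈ X) =
        (range G).filter fun i => (ω i).1 ⊆ X ∧ (ω i).2 ⊆ X := by
      apply filter_congr
      intro i hi
      rw [(hw i hi).2, (hx i hi).2]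
      simp only [insert_subset_iff, singleton_subset_iff, and_assoc]
    rw [b2]
    omega

end Pool.Agent.P.MP_ea54b6_co
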