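import Pool.Agent.P.MP_ea54b6_co.Basic

set_option autoImplicit false

namespace Pool.Agent.P.MP_ea54b6_co

open Finset

def used {β : Type} (f : ℕ → ℕ → β) (S : Set ℕ) : Set β :=
  {x | ∃ i ∈ S, ∃ j ∈ S, i < j ∧ f i j = x}

def comb {α K : Type} [DecidableEq α] (v : α → Option K) (e : Finset α → Option K) :
    Option α → Option α → Option K
  | some x, some y => e {x, y}
  | some x, none => v x
  | none, _ => none

lemma used_comb {α K : Type} [DecidableEq α] (v : α → Option K) (e : Finset α → Option K)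
    (g : ℕ → Option α) (N : ℕ) (g1 : ∀ i, g i = none ↔ N ≤ i)
    (g2 : ∀ i j x, g i = some x → g j = some x → i = j) (S : Set ℕ) (hS : S.Infinite)
    (X : Finset α) (hX : ∀ x, x ∈ X ↔ ∃ i ∈ S, g i = some x) :
    used (fun i j => comb v e (g i) (g j)) S = insert none (some '' cols v e X) := by
  have lt : ∀ i x, g i = some x → i < N := by
    intro i x h
    by_contra hc
    rw [(g1 i).2 (by omega)] at h
    exact absurd h (by simp)
  ext o
  simp only [used, Set.mem_ofPred_eq, Set.mem_insert_iff, Set.mem_image, cols]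
  constructor
  · rintro ⟨i, hi, j, hj, hij, h⟩
    rcases o with _ | c
    · exact Or.inl rfl
    refine Or.inr ⟨c, ?_, rfl⟩
    rcases hx : g i with _ | x
    · rw [hx] at h
      exact absurd h (by simp [comb])
    rcases hy : g j with _ | y
    · rw [hx, hy] at h
      exact Or.inl ⟨x, (hX x).2 ⟨i, hi, hx⟩, h⟩
    · rw [hx, hy] at h
      refine Or.inr ⟨{x, y}, ?_, card_pair ?_, h⟩
      · intro z hz
        rcases mem_insert.1 hz with rfl | hz
        · exact (hX _).2 ⟨i, hi, hx⟩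
        · rw [mem_singleton.1 hz]
          exact (hX _).2 ⟨j, hj, hy⟩
      · rintro rfl
        have := g2 i j x hx hy
        omega
  · rintro (rfl | ⟨c, ⟨x, hx, h⟩ | ⟨s, hs, hc, h⟩, rfl⟩)
    · obtain ⟨i, hi, h1⟩ := hS.exists_gt N
      obtain ⟨j, hj, h2⟩ := hS.exists_gt i
      refine ⟨i, hi, j, hj, h2, ?_⟩
      rw [(g1 i).2 h1.le]
      rfl
    · obtain ⟨i, hi, h1⟩ := (hX x).1 hx
      obtain ⟨j, hj, h2⟩ := hS.exists_gt N
      have := lt i x h1
      refine ⟨i, hi, j, hj, by omega, ?_⟩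
      rw [h1, (g1 j).2 h2.le]
      exact h
    · obtain ⟨x, y, hxy, rfl⟩ := card_eq_two.1 hc
      obtain ⟨i, hi, h1⟩ := (hX x).1 (hs (by simp))
      obtain ⟨j, hj, h2⟩ := (hX y).1 (hs (by simp))
      rcases lt_trichotomy i j with h3 | rfl | h3
      · refine ⟨i, hi, j, hj, h3, ?_⟩
        rw [h1, h2]
        exact h
      · rw [h1] at h2
        exact absurd (Option.some.inj h2) hxy
      · refine ⟨j, hj, i, hi, h3, ?_⟩
        rw [h1, h2, ← h, pair_comm]
        rfl

lemma cols_sub {α K : Type} (v : α → Option K) (e : Finset α → Option K) {X Y : Finset α}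
    (h : X ⊆ Y) : cols v e X ⊆ cols v e Y := by
  rintro c (⟨x, hx, h1⟩ | ⟨s, hs, h1, h2⟩)
  · exact Or.inl ⟨x, h hx, h1⟩
  · exact Or.inr ⟨s, hs.trans h, h1, h2⟩

lemma ncard_ins {α K : Type} (v : α → Option K) (e : Finset α → Option K) (X : Finset α) :
    (insert none (some '' cols v e X)).ncard = ncol v e X + 1 := by
  rw [Set.ncard_insert_of_notMem (by simp) ((cols_finite v e X).image _),
    Set.ncard_image_of_injective _ (Option.some_injective _)]
  rfl

theorem counter {C M : ℕ} (h : Good C M) : ∃ f : ℕ → ℕ → Fin (C + 1),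
    (∀ k, ∃ i j, i < j ∧ f i j = k) ∧ ∀ S : Set ℕ, S.Infinite → (used f S).ncard ≠ M + 1 := by
  classical
  obtain ⟨α, K, U, v, e, hU, hX⟩ := h
  let φ := U.equivFin.symm
  let g : ℕ → Option α := fun i => if h : i < U.card then some (φ ⟨i, h⟩).1 else none
  have g1 : ∀ i, g i = none ↔ U.card ≤ i := by
    intro i
    simp only [g]
    split_ifs with h
    · simp only [false_iff]
      omega
    · simp only [true_iff]
      omega
  have g3 : ∀ i x, g i = some x → ∃ h : i < U.card, (φ ⟨i, h⟩).1 = x := by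
    intro i x h
    simp only [g] at h
    split_ifs at h with h1
    exact ⟨h1, Option.some.inj h⟩
  have g2 : ∀ i j x, g i = some x → g j = some x → i = j := by
    intro i j x hi hj
    obtain ⟨a, ha⟩ := g3 i x hi
    obtain ⟨b, hb⟩ := g3 j x hj
    have := φ.injective (Subtype.ext (ha.trans hb.symm))
    exact congrArg Fin.val this
  have g4 : ∀ x, x ∈ U ↔ ∃ i ∈ (Set.univ : Set ℕ), g i = some x := by
    intro x
    constructor
    · intro hx
      refine ⟨(φ.symm ⟨x, hx⟩).1, trivial, ?_⟩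
      simp only [g]
      rw [dif_pos (φ.symm ⟨x, hx⟩).2]
      simp
    · rintro ⟨i, -, hi⟩
      obtain ⟨a, ha⟩ := g3 i x hi
      rw [← ha]
      exact (φ ⟨i, a⟩).2
  set A : Set (Option K) := insert none (some '' cols v e U) with hA
  have hAf : A.Finite := ((cols_finite v e U).image _).insert _
  have hAc : Nat.card A = C + 1 := by
    rw [Nat.card_coe_set_eq, hA, ncard_ins, hU]
  have : Finite A := hAf
  let ψ : A ≃ Fin (C + 1) := Finite.equivFinOfCardEq hAc
  let ι : Option K → Fin (C + 1) := fun o => if h : o ∈ A then ψ ⟨o, h⟩ else 0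
  have hinj : Set.InjOn ι A := by
    intro a ha b hb h
    simp only [ι, dif_pos ha, dif_pos hb] at h
    exact congrArg Subtype.val (ψ.injective h)
  have himg : ∀ S, used (fun i j => ι (comb v e (g i) (g j))) S =
      ι '' used (fun i j => comb v e (g i) (g j)) S := by
    intro S
    ext x
    simp only [used, Set.mem_ofPred_eq, Set.mem_image]
    constructor
    · rintro ⟨i, hi, j, hj, hij, h⟩
      exact ⟨_, ⟨i, hi, j, hj, hij, rfl⟩, h⟩
    · rintro ⟨o, ⟨i, hi, j, hj, hij, rfl⟩, h⟩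
      exact ⟨i, hi, j, hj, hij, h⟩
  refine ⟨fun i j => ι (comb v e (g i) (g j)), ?_, ?_⟩
  · intro k
    have h1 := used_comb v e g _ g1 g2 Set.univ Set.infinite_univ U g4
    have h2 : (ψ.symm k).1 ∈ used (fun i j => comb v e (g i) (g j)) Set.univ := by
      rw [h1]
      exact (ψ.symm k).2
    obtain ⟨i, -, j, -, hij, h⟩ := h2
    refine ⟨i, j, hij, ?_⟩
    simp only at h
    simp only [h, ι, dif_pos (ψ.symm k).2]
    simp
  · intro S hS
    let X := U.filter fun x => ∃ i ∈ S, g i = some x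
    have hX' : ∀ x, x ∈ X ↔ ∃ i ∈ S, g i = some x := by
      intro x
      rw [mem_filter]
      exact ⟨fun h => h.2, fun ⟨i, hi, h⟩ => ⟨(g4 x).2 ⟨i, trivial, h⟩, i, hi, h⟩⟩
    have hsub : X ⊆ U := filter_subset _ _
    rw [himg, used_comb v e g _ g1 g2 S hS X hX', Set.InjOn.ncard_image
      (hinj.mono (Set.insert_subset_insert (Set.image_mono (cols_sub v e hsub)))), ncard_ins]
    have := hX X hsub
    omega

theorem ramsey {β : Type} [Finite β] (f : ℕ → ℕ → β) :
    ∃ (x : β) (S : Set ℕ), S.Infinite ∧ ∀ i ∈ S, ∀ j ∈ S, i < j → f i j = x := by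
  let F := Filter.hyperfilter ℕ
  have pick : ∀ h : ℕ → β, ∃ x, {j | h j = x} ∈ F := by
    intro h
    obtain ⟨x, hx⟩ := Ultrafilter.eq_pure_of_finite (F.map h)
    refine ⟨x, ?_⟩
    have : ({x} : Set β) ∈ F.map h := by
      rw [hx]
      exact Ultrafilter.mem_pure.2 rfl
    exact this
  choose g hg using fun i => pick (f i)
  obtain ⟨x, hx⟩ := pick g
  obtain ⟨s, hs1, hs2⟩ := exists_seq_of_forall_finset_exists (fun i => g i = x)
    (fun i j => i < j ∧ f i j = x) (by
      intro s hs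
      have h1 : ∀ i ∈ s, {j | i < j ∧ f i j = x} ∈ (F : Filter ℕ) := by
        intro i hi
        have a1 : {j | i < j} ∈ (F : Filter ℕ) := by
          apply Filter.mem_hyperfilter_of_finite_compl
          refine (Set.finite_Iic i).subset ?_
          intro j hj
          simpa using hj
        have a2 := hg i
        rw [hs i hi] at a2
        exact Filter.inter_mem a1 a2
      have h2 := (Filter.biInter_finset_mem s).2 h1
      obtain ⟨y, hy1, hy2⟩ := F.nonempty_of_mem (Filter.inter_mem hx h2)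
      refine ⟨y, hy1, fun i hi => ?_⟩
      exact Set.mem_iInter₂.1 hy2 i hi)
  have hm : StrictMono s := fun a b h => (hs2 a b h).1
  refine ⟨x, Set.range s, Set.infinite_range_of_injective hm.injective, ?_⟩
  rintro _ ⟨a, rfl⟩ _ ⟨b, rfl⟩ h
  exact (hs2 a b (hm.lt_iff_lt.1 h)).2

lemma mem_used_mono {β : Type} {f : ℕ → ℕ → β} {x : β} {S : Set ℕ} (hS : S.Infinite)
    (h : ∀ i ∈ S, ∀ j ∈ S, i < j → f i j = x) : x ∈ used f S := by
  obtain ⟨i, hi⟩ := hS.nonempty
  obtain ⟨j, hj, hij⟩ := hS.exists_gt i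
  exact ⟨i, hi, j, hj, hij, h i hi j hj hij⟩

theorem one_colour {β : Type} [Finite β] (f : ℕ → ℕ → β) :
    ∃ S : Set ℕ, S.Infinite ∧ (used f S).ncard = 1 := by
  obtain ⟨x, S, hS, h⟩ := ramsey f
  refine ⟨S, hS, Set.ncard_eq_one.2 ⟨x, ?_⟩⟩
  ext y
  constructor
  · rintro ⟨i, hi, j, hj, hij, rfl⟩
    exact h i hi j hj hij
  · rintro rfl
    exact mem_used_mono hS h

theorem two_colours {β : Type} [Finite β] (f : ℕ → ℕ → β)
    (hf : ∀ x, ∃ i j, i < j ∧ f i j ≠ x) : ∃ S : Set ℕ, S.Infinite ∧ (used f S).ncard = 2 := by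
  classical
  obtain ⟨x, S, hS, h⟩ := ramsey f
  let P : ℕ → Prop := fun t => ¬ ∀ i ∈ S ∪ Set.Iio t, ∀ j ∈ S ∪ Set.Iio t, i < j → f i j = x
  have hP : ∃ t, P t := by
    obtain ⟨i, j, hij, hne⟩ := hf x
    exact ⟨j + 1, fun hc => hne (hc i (Or.inr (by simp; omega)) j (Or.inr (by simp)) hij)⟩
  have h0 : Nat.find hP ≠ 0 := by
    intro hc
    have := Nat.find_spec hP
    rw [hc] at this
    apply this
    simpa using h
  obtain ⟨w, hw⟩ : ∃ w, Nat.find hP = w + 1 := ⟨Nat.find hP - 1, by omega⟩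
  have h1 : P (w + 1) := hw ▸ Nat.find_spec hP
  have h2 : ∀ i ∈ S ∪ Set.Iio w, ∀ j ∈ S ∪ Set.Iio w, i < j → f i j = x :=
    not_not.1 (Nat.find_min hP (by omega))
  set W := S ∪ Set.Iio w with hW
  have hWi : W.Infinite := hS.mono Set.subset_union_left
  let κ : ℕ → β := fun u => if u < w then f u w else f w u
  have hmem : ∀ i ∈ S ∪ Set.Iio (w + 1), i ≠ w → i ∈ W := by
    rintro i (hi | hi) hne
    · exact Or.inl hi
    · exact Or.inr (by simp only [Set.mem_Iio] at hi ⊢; omega)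
  have h3 : ∃ u ∈ W, u ≠ w ∧ κ u ≠ x := by
    by_contra hc
    push Not at hc
    apply h1
    intro i hi j hj hij
    by_cases a1 : i = w
    · have := hc j (hmem j hj (by omega)) (by omega)
      simp only [κ, if_neg (show ¬ j < w by omega)] at this
      rw [a1]
      exact this
    by_cases a2 : j = w
    · have := hc i (hmem i hi a1) a1
      simp only [κ, if_pos (show i < w by omega)] at this
      rw [a2]
      exact this
    exact h2 i (hmem i hi a1) j (hmem j hj a2) hij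
  have h4 : ∃ z, {u | u ∈ W ∧ u ≠ w ∧ κ u = z}.Infinite := by
    by_contra hc
    push Not at hc
    apply (hWi.sdiff (Set.finite_singleton w))
    refine (Set.finite_iUnion hc).subset ?_
    rintro u ⟨hu, hne⟩
    exact Set.mem_iUnion.2 ⟨κ u, hu, hne, rfl⟩
  obtain ⟨z, hz⟩ := h4
  obtain ⟨y, hy, Z, hZ, hZ1, u, hu, hu1⟩ : ∃ y, y ≠ x ∧ ∃ Z : Set ℕ, Z.Infinite ∧
      (∀ u ∈ Z, u ∈ W ∧ u ≠ w ∧ (κ u = x ∨ κ u = y)) ∧ ∃ u ∈ Z, κ u = y := by
    by_cases hzx : z = x
    · obtain ⟨u, a1, a2, a3⟩ := h3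
      refine ⟨κ u, a3, insert u {u | u ∈ W ∧ u ≠ w ∧ κ u = z}, hz.mono (Set.subset_insert _ _),
        ?_, u, Set.mem_insert _ _, rfl⟩
      rintro t (rfl | ⟨b1, b2, b3⟩)
      · exact ⟨a1, a2, Or.inr rfl⟩
      · exact ⟨b1, b2, Or.inl (b3.trans hzx)⟩
    · obtain ⟨u, hu⟩ := hz.nonempty
      exact ⟨z, hzx, _, hz, fun t ht => ⟨ht.1, ht.2.1, Or.inr ht.2.2⟩, u, hu, hu.2.2⟩
  refine ⟨insert w Z, hZ.mono (Set.subset_insert _ _), Set.ncard_eq_two.2 ⟨x, y, hy.symm, ?_⟩⟩
  ext c
  simp only [Set.mem_insert_iff, Set.mem_singleton_iff]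
  constructor
  · rintro ⟨i, rfl | hi, j, rfl | hj, hij, rfl⟩
    · omega
    · have := (hZ1 j hj).2.2
      simpa only [κ, if_neg (show ¬ j < i by omega)] using this
    · have := (hZ1 i hi).2.2
      simpa only [κ, if_pos hij] using this
    · exact Or.inl (h2 i (hZ1 i hi).1 j (hZ1 j hj).1 hij)
  · rintro (rfl | rfl)
    · obtain ⟨i, hi, j, hj, hij, e⟩ := mem_used_mono hZ
        (fun i hi j hj hij => h2 i (hZ1 i hi).1 j (hZ1 j hj).1 hij)
      exact ⟨i, Or.inr hi, j, Or.inr hj, hij, e⟩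
    · have a1 := (hZ1 u hu).2.1
      by_cases a2 : u < w
      · exact ⟨u, Or.inr hu, w, Or.inl rfl, a2, by simpa only [κ, if_pos a2] using hu1⟩
      · exact ⟨w, Or.inl rfl, u, Or.inr hu, by omega, by simpa only [κ, if_neg a2] using hu1⟩

end Pool.Agent.P.MP_ea54b6_co
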