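import Pool.Agent.P.MP_ea54b6_co.Chk
import Pool.Agent.P.MP_ea54b6_co.Rand2

set_option autoImplicit false

namespace Pool.Agent.P.MP_ea54b6_co

open Finset

structure InB (B : Box) (k a n : ℕ) : Prop where
  k1 : B.k1 ≤ k
  k2 : B.k2 = 0 ∨ k ≤ B.k2
  a1 : B.a1s * k + B.a1t ≤ 6000 * (a : ℤ)
  a2 : 6000 * (a : ℤ) ≤ B.a2s * k + B.a2t
  n1 : B.n1s * k + B.n1t ≤ 6000 * (n : ℤ)
  n2 : 6000 * (n : ℤ) ≤ B.n2s * k + B.n2t

structure Hyp (k a n D : ℕ) : Prop where
  ak : a + 2 ≤ k
  aD : a ≤ D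
  d0 : D + 2 * k ≤ n + a
  d1 : a ≤ 1 → D = a
  d2 : 2 ≤ a → (D - a) * ((k - 2) / (a - 1)) < n - k
  par : D % 2 = a % 2

lemma nonpos_sound {S T : ℤ} {B : Box} {k : ℕ} (h : nonpos S T B = true) (h1 : B.k1 ≤ k)
    (h2 : B.k2 = 0 ∨ k ≤ B.k2) : S * k + T ≤ 0 := by
  unfold nonpos at h
  rw [Bool.and_eq_true, decide_eq_true_eq] at h
  obtain ⟨ha, hb⟩ := h
  have h1' : (B.k1 : ℤ) ≤ k := by exact_mod_cast h1
  rcases le_total S 0 with hS | hS
  · nlinarith
  · by_cases h0 : B.k2 = 0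
    · rw [if_pos h0, decide_eq_true_eq] at hb
      nlinarith
    · rw [if_neg h0, decide_eq_true_eq] at hb
      have h2' : (k : ℤ) ≤ B.k2 := by exact_mod_cast h2.resolve_left h0
      nlinarith

lemma ub_sound {ck ca cn c0 : ℤ} {B : Box} {k a n : ℕ} (h : ub ck ca cn c0 B = true)
    (hB : InB B k a n) : ck * k + ca * a + cn * n + c0 ≤ 0 := by
  have h1 := nonpos_sound h hB.k1 hB.k2
  have e1 : ca * (6000 * a) ≤ ca * ((if 0 ≤ ca then B.a2s else B.a1s) * k +
      (if 0 ≤ ca then B.a2t else B.a1t)) := by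
    split_ifs with hc
    · exact mul_le_mul_of_nonneg_left hB.a2 hc
    · exact mul_le_mul_of_nonpos_left hB.a1 (by omega)
  have e2 : cn * (6000 * n) ≤ cn * ((if 0 ≤ cn then B.n2s else B.n1s) * k +
      (if 0 ≤ cn then B.n2t else B.n1t)) := by
    split_ifs with hc
    · exact mul_le_mul_of_nonneg_left hB.n2 hc
    · exact mul_le_mul_of_nonpos_left hB.n1 (by omega)
  have : 6000 * (ck * k + ca * a + cn * n + c0) ≤ 5999 := by linarith
  omega

lemma emp_sound {B : Box} {k a n : ℕ} (h : emp B = true) (hB : InB B k a n) : False := by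
  unfold emp at h
  rw [Bool.or_eq_true] at h
  have := hB.a1
  have := hB.a2
  have := hB.n1
  have := hB.n2
  rcases h with h | h <;> have := nonpos_sound h hB.k1 hB.k2 <;> linarith

lemma nrm_sound {B : Box} {k a n : ℕ} (hB : InB B k a n) : InB (nrm B) k a n := by
  unfold nrm
  split_ifs with h
  · have hk : k = B.k1 := by
      have := hB.k1
      have := hB.k2
      omega
    have h1 := hB.a1
    have h2 := hB.a2
    have h3 := hB.n1
    have h4 := hB.n2
    rw [hk] at h1 h2 h3 h4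
    refine ⟨hB.k1, hB.k2, ?_, ?_, ?_, ?_⟩ <;> simp only [zero_mul, zero_add] <;> omega
  · exact hB

lemma lgs_sound (f : ℕ) : ∀ r x e : ℕ, r ≤ x * 2 ^ e → r ^ (2 ^ f) ≤ 2 ^ lgs f x e := by
  have key : ∀ x s : ℕ, x * x ≤ (x * x / 2 ^ s + 1) * 2 ^ s := by
    intro x s
    have h1 := Nat.div_add_mod (x * x) (2 ^ s)
    have h2 := Nat.mod_lt (x * x) (show 0 < 2 ^ s by positivity)
    nlinarith
  induction f with
  | zero =>
    intro r x e h
    unfold lgs
    simp only [pow_zero, pow_one, Nat.add_eq, pow_add]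
    refine h.trans ?_
    rw [mul_comm]
    apply Nat.mul_le_mul_left
    cases hb : Nat.ble x 2199023255552
    · exact Nat.lt_two_pow_self.le
    · exact Nat.le_of_ble_eq_true hb
  | succ f ih =>
    intro r x e h
    have h2 : r * r ≤ x * x * 2 ^ (2 * e) := by
      calc r * r ≤ (x * 2 ^ e) * (x * 2 ^ e) := Nat.mul_le_mul h h
        _ = _ := by ring
    have e1 : r ^ 2 ^ (f + 1) = (r * r) ^ 2 ^ f := by
      rw [pow_succ 2 f, mul_comm, pow_mul, sq]
    rw [e1]
    unfold lgs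
    cases Nat.ble (Nat.mul x x) 2417851639229258349412352
    · apply ih
      refine h2.trans ?_
      have := Nat.mul_le_mul_right (2 ^ (2 * e)) (key x 41)
      refine this.trans (le_of_eq ?_)
      simp only [Nat.mul_eq, Nat.add_eq, Nat.succ_eq_add_one, pow_add]
      have : Nat.div (x * x) 2199023255552 = x * x / 2 ^ 41 := rfl
      rw [this]
      ring
    · apply ih
      refine h2.trans ?_
      have := Nat.mul_le_mul_right (2 ^ (2 * e)) (key x 40)
      refine this.trans (le_of_eq ?_)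
      simp only [Nat.mul_eq, Nat.add_eq, Nat.succ_eq_add_one, pow_add]
      have : Nat.div (x * x) 1099511627776 = x * x / 2 ^ 40 := rfl
      rw [this]
      ring

noncomputable def lc : ℝ := Real.log 2 / 4096

lemma lc_pos : 0 < lc := div_pos (Real.log_pos (by norm_num)) (by norm_num)

lemma lgr_sound (r s : ℕ) (hr : 0 < r) : Real.log r - 96 * Real.log 2 ≤ lgr r s * lc := by
  have h1 : r ≤ Nat.succ (Nat.div r (Nat.pow 2 s)) * 2 ^ s := by
    have h1 := Nat.div_add_mod r (2 ^ s)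
    have h2 := Nat.mod_lt r (show 0 < 2 ^ s by positivity)
    show r ≤ (r / 2 ^ s + 1) * 2 ^ s
    nlinarith
  have h2 := lgs_sound 12 r _ s h1
  unfold lgr
  generalize lgs 12 (Nat.succ (Nat.div r (Nat.pow 2 s))) s = L at h2
  have h3 : ((r : ℝ)) ^ (2 ^ 12) ≤ 2 ^ L := by exact_mod_cast h2
  have h4 := Real.log_le_log (by positivity) h3
  rw [Real.log_pow, Real.log_pow] at h4
  rw [Int.subNatNat_eq_coe]
  unfold lc
  push_cast at h4 ⊢
  linarith

lemma lg_sound {num den : ℕ} (h1 : 0 < num) (h2 : 0 < den) :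
    Real.log ((num : ℝ) / den) ≤ lg num den * lc := by
  unfold lg lgq
  refine le_trans ?_ (lgr_sound _ _ (Nat.succ_pos _))
  set r := Nat.succ (Nat.div (Nat.mul num 79228162514264337593543950336) den) with hr
  have h3 : num * 2 ^ 96 ≤ r * den := by
    have e1 := Nat.div_add_mod (num * 2 ^ 96) den
    have e2 := Nat.mod_lt (num * 2 ^ 96) h2
    have e3 : r = num * 2 ^ 96 / den + 1 := rfl
    rw [e3]
    nlinarith
  have h4 : (num : ℝ) * 2 ^ 96 ≤ r * den := by exact_mod_cast h3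
  have d0 : (0 : ℝ) < den := by exact_mod_cast h2
  have n0 : (0 : ℝ) < num := by exact_mod_cast h1
  have h5 : (num : ℝ) / den * 2 ^ 96 ≤ r := by
    rw [div_mul_eq_mul_div, div_le_iff₀ d0]
    exact h4
  have h6 := Real.log_le_log (by positivity) h5
  rw [Real.log_mul (by positivity) (by positivity), Real.log_pow] at h6
  push_cast at h6
  linarith

lemma log_le_lg {x : ℝ} {num den : ℕ} (hx : 0 < x) (h2 : 0 < den) (h : x * den ≤ num) :
    Real.log x ≤ lg num den * lc := by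
  have d0 : (0 : ℝ) < den := by exact_mod_cast h2
  have n0 : (0 : ℝ) < num := lt_of_lt_of_le (by positivity) h
  refine le_trans (Real.log_le_log hx ?_) (lg_sound (by exact_mod_cast n0) h2)
  rwa [le_div_iff₀ d0]

lemma dform_sound {ty c : ℕ} {B : Box} {k a n D : ℕ} (h : dok ty c B = true) (hB : InB B k a n)
    (hH : Hyp k a n D) : 0 < (dform ty c).gd ∧ (dform ty c).gd * D ≤
      (dform ty c).fk * k + (dform ty c).fa * a + (dform ty c).fn * n + (dform ty c).f0 := by
  obtain ⟨ak, aD, d0, d1, d2, -⟩ := hH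
  unfold dok at h
  unfold dform
  split_ifs at h ⊢ with h0 h1
  · refine ⟨by norm_num, ?_⟩
    simp only
    omega
  · rw [Bool.and_eq_true, decide_eq_true_eq] at h
    have h3 := ub_sound h.2 hB
    have h4 := h.1
    refine ⟨by simp only; omega, ?_⟩
    simp only
    rcases le_or_gt a 1 with ha | ha
    · rw [d1 ha]
      omega
    · have h5 := d2 ha
      obtain ⟨b, rfl⟩ : ∃ b, a = b + 1 := ⟨a - 1, by omega⟩
      obtain ⟨E, rfl⟩ : ∃ E, D = E + (b + 1) := ⟨D - (b + 1), by omega⟩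
      simp only [Nat.add_sub_cancel] at h5
      have h6 : c * b ≤ k - 2 := by
        have : (c : ℤ) * b + 2 ≤ k := by push_cast at h3; linarith
        have : c * b + 2 ≤ k := by exact_mod_cast this
        omega
      have h7 : c ≤ (k - 2) / b := (Nat.le_div_iff_mul_le (by omega)).2 h6
      have h8 := Nat.mul_le_mul_left E h7
      have h9 : E * c + k + 1 ≤ n := by omega
      have h10 : (E : ℤ) * c + k + 1 ≤ n := by exact_mod_cast h9
      push_cast
      linarith
  · have h3 := ub_sound h hB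
    refine ⟨by norm_num, ?_⟩
    simp only
    rcases le_or_gt a 1 with ha | ha
    · rw [d1 ha]
      have : (0 : ℤ) ≤ c * a := by positivity
      linarith
    · have h5 := d2 ha
      obtain ⟨b, rfl⟩ : ∃ b, a = b + 1 := ⟨a - 1, by omega⟩
      obtain ⟨E, rfl⟩ : ∃ E, D = E + (b + 1) := ⟨D - (b + 1), by omega⟩
      obtain ⟨j, rfl⟩ : ∃ j, k = j + 2 := ⟨k - 2, by omega⟩
      simp only [Nat.add_sub_cancel] at h5
      have e1 := Nat.div_add_mod j b
      have e2 := Nat.mod_lt j (show 0 < b by omega)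
      generalize j / b = g at h5 e1
      have h9 : E * g + (j + 2) + 1 ≤ n := by omega
      have h10 : (E : ℤ) * g + (j + 2) + 1 ≤ n := by exact_mod_cast h9
      have e3 : j + 1 ≤ b * g + b := by omega
      have e4 : (j : ℤ) + 1 ≤ b * g + b := by exact_mod_cast e3
      have e5 : (b : ℤ) + 1 ≤ j := by omega
      have e6 : (0 : ℤ) ≤ E := by positivity
      have e7 : (0 : ℤ) ≤ b := by positivity
      have e8 : (0 : ℤ) ≤ c := by positivity
      push_cast at h3 ⊢
      have e9 : 16 * (E * g : ℤ) ≤ c * (j + 1 - b) := by linarith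
      have e10 : (16 * E : ℤ) * (j + 1 - b) ≤ (c * b) * (j + 1 - b) := by
        have := mul_le_mul_of_nonneg_left e9 e7
        have := mul_le_mul_of_nonneg_left (show (j : ℤ) + 1 - b ≤ b * g by linarith) e6
        nlinarith
      have e11 := le_of_mul_le_mul_right e10 (by linarith)
      nlinarith

lemma par_sound {ty c cc : ℕ} {B : Box} {C M k a n D : ℕ} (h : parLeaf ty c cc B = true)
    (hB : InB B k a n) (hH : Hyp k a n D) (hM : M + a = T (k + 1)) (hC : C + D = T n) :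
    Good C M := by
  unfold parLeaf at h
  simp only [Bool.and_eq_true] at h
  obtain ⟨⟨h1, h2⟩, h3⟩ := h
  obtain ⟨g0, g1⟩ := dform_sound h1 hB hH
  have h4 := ub_sound h2 hB
  have h5 := ub_sound h3 hB
  obtain ⟨ak, aD, d0, d1, d2, hp⟩ := hH
  generalize dform ty c = d at *
  obtain ⟨G, hG⟩ : ∃ G, 2 * G = 2 * n + 1 + D + (a + 1) % 2 :=
    ⟨(2 * n + 1 + D + (a + 1) % 2) / 2, by omega⟩
  refine PAR hM hC ak (by omega) hG ?_
  have e1 : d.gd * (64 * (D + 2 * n + 2)) ≤ d.gd * (2 * cc * (n + 2)) := by linarith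
  have e2 := le_of_mul_le_mul_left e1 g0
  have e3 : (2 * G : ℤ) ≤ D + 2 * n + 2 := by omega
  have e4 : (64 * G : ℤ) ≤ cc * (n + 2) := by linarith
  have e5 : (41 * (k + 2) + 64 : ℤ) * (64 * G) ≤ (41 * (k + 2) + 64) * (cc * (n + 2)) :=
    mul_le_mul_of_nonneg_left e4 (by positivity)
  have e6 : ((41 * (k + 2) + 64) * cc + 384 : ℤ) * (n + 2) ≤ (64 * (n + 2)) * (n + 2) :=
    mul_le_mul_of_nonneg_right (by linarith) (by positivity)
  have e7 : (41 * (k + 2) * G + 64 * G + 6 * (n + 2) : ℤ) ≤ (n + 2) ^ 2 := by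
    clear h1 h2 h3 h4 h5 e1 e2 g1 hB hM hC d2
    linarith
  exact_mod_cast e7

def xE1 (i : ℕ) : Finset ℕ := {2 * i, (2 * i + 2) % 10}
def xE2 (i : ℕ) : Finset ℕ := {2 * i + 1, (2 * i + 3) % 10}
def yE1 (i : ℕ) : Finset ℕ := {2 * i, 3 * i + 1}
def yE2 (i : ℕ) : Finset ℕ := {2 + i, 3 + 2 * i}

lemma exc_two {C M k n D : ℕ} (hM : M + 2 = T (k + 1)) (hC : C + D = T n) (hk : 4 ≤ k)
    (hD : D ≤ 4) (hn : 10 ≤ n)
    (h : ∀ X ∈ (range n).powersetCard (k + 1), act (range 5) xE1 xE2 X < 3) : Good C M := by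
  have hs : range (D + 1) ⊆ range 5 := range_subset_range.2 (by omega)
  have hs' : range 10 ⊆ range n := range_subset_range.2 hn
  have p1 : ∀ i ∈ range 5, (xE1 i).card = 2 ∧ (xE2 i).card = 2 ∧ xE1 i ⊆ range 10 ∧
      xE2 i ⊆ range 10 := by decide +kernel
  have p2 : ∀ i ∈ range 5, ∀ j ∈ range 5, (xE1 i = xE1 j → i = j) ∧ (xE2 i = xE2 j → i = j) ∧
      xE1 i ≠ xE2 j := by decide +kernel
  have hn1 : ∀ X : Finset ℕ, X.Nonempty → ncl (fun _ : ℕ => some 0) X = 1 := by
    intro X hX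
    rw [ncl_some, image_const hX, card_singleton]
  refine TH (range n) (fun _ : ℕ => some 0) (range (D + 1)) xE1 xE2
    ⟨fun i hi => (p1 i (hs hi)).1, fun i hi => (p1 i (hs hi)).2.1,
      fun i hi j hj => (p2 i (hs hi) j (hs hj)).1, fun i hi j hj => (p2 i (hs hi) j (hs hj)).2.1,
      fun i hi j hj => (p2 i (hs hi) j (hs hj)).2.2⟩
    (fun i hi => ⟨(p1 i (hs hi)).2.2.1.trans hs', (p1 i (hs hi)).2.2.2.trans hs'⟩) hM
    (hn1 _ ⟨0, mem_range.2 (by omega)⟩) (by rw [card_range, card_range]; omega) (by omega) ?_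
  intro X hX hc
  rw [hn1 X (card_pos.1 (by omega))]
  refine lt_of_le_of_lt ?_ (h X (mem_powersetCard.2 ⟨hX, hc⟩))
  exact card_le_card (filter_subset_filter _ hs)

lemma exc_zero {C M n : ℕ} (hM : M + 0 = T (3 + 1)) (hC : C + 0 = T n) (hn : 6 ≤ n)
    (h0 : ((range n).image fun x => x % 2).card = 2)
    (h : ∀ X ∈ (range n).powersetCard (3 + 1), act (range 2) yE1 yE2 X <
      0 + (X.image fun x => x % 2).card) : Good C M := by
  have hs' : range 6 ⊆ range n := range_subset_range.2 hn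
  have p1 : ∀ i ∈ range 2, (yE1 i).card = 2 ∧ (yE2 i).card = 2 ∧ yE1 i ⊆ range 6 ∧
      yE2 i ⊆ range 6 := by decide +kernel
  have p2 : ∀ i ∈ range 2, ∀ j ∈ range 2, (yE1 i = yE1 j → i = j) ∧ (yE2 i = yE2 j → i = j) ∧
      yE1 i ≠ yE2 j := by decide +kernel
  refine TH (p := 2) (range n) (fun x : ℕ => some (x % 2)) (range 2) yE1 yE2
    ⟨fun i hi => (p1 i hi).1, fun i hi => (p1 i hi).2.1,
      fun i hi j hj => (p2 i hi j hj).1, fun i hi j hj => (p2 i hi j hj).2.1,
      fun i hi j hj => (p2 i hi j hj).2.2⟩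
    (fun i hi => ⟨(p1 i hi).2.2.1.trans hs', (p1 i hi).2.2.2.trans hs'⟩) hM
    (by rw [ncl_some]; exact h0) (by rw [card_range, card_range]; omega) (by omega) ?_
  intro X hX hc
  rw [ncl_some]
  exact h X (mem_powersetCard.2 ⟨hX, hc⟩)

lemma exc_sound {K A N : ℕ} {B : Box} {C M k a n D : ℕ} (h : excLeaf K A N B = true)
    (hB : InB B k a n) (hH : Hyp k a n D) (hM : M + a = T (k + 1)) (hC : C + D = T n) :
    Good C M := by
  unfold excLeaf at h
  simp only [Bool.and_eq_true, decide_eq_true_eq] at h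
  obtain ⟨⟨⟨⟨⟨⟨h0, h1⟩, h2⟩, h3⟩, h4⟩, h5⟩, h6⟩ := h
  have h1 := ub_sound h1 hB
  have h2 := ub_sound h2 hB
  have h3 := ub_sound h3 hB
  have h4 := ub_sound h4 hB
  have h5 := ub_sound h5 hB
  have h6 := ub_sound h6 hB
  obtain rfl : K = k := by omega
  obtain rfl : A = a := by omega
  obtain rfl : N = n := by omega
  obtain ⟨ak, aD, d0, d1, d2, hp⟩ := hH
  simp only [List.mem_cons, Prod.mk.injEq, List.not_mem_nil, or_false] at h0
  rcases h0 with ⟨rfl, rfl, rfl⟩ | ⟨rfl, rfl, rfl⟩ | ⟨rfl, rfl, rfl⟩ | ⟨rfl, rfl, rfl⟩ |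
    ⟨rfl, rfl, rfl⟩
  · obtain rfl : D = 0 := by omega
    exact exc_zero hM hC (by omega) (by decide +kernel) (by decide +kernel)
  · obtain rfl : D = 0 := by omega
    exact exc_zero hM hC (by omega) (by decide +kernel) (by decide +kernel)
  · exact exc_two hM hC (by omega) (by omega) (by omega) (by decide +kernel)
  · exact exc_two hM hC (by omega) (by omega) (by omega) (by decide +kernel)
  · exact exc_two hM hC (by omega) (by omega) (by omega) (by decide +kernel)

end Pool.Agent.P.MP_ea54b6_co
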