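import Pool.Agent.P.MP_ea54b6_co.Sound1

set_option autoImplicit false

namespace Pool.Agent.P.MP_ea54b6_co

open Finset

lemma Tc_eq (n : ℕ) : Tc n = T n := (Nat.choose_two_right n).symm

lemma two_T_real (n : ℕ) : (2 : ℝ) * T n = n * (n - 1) := by
  rcases n with _ | n
  · simp [T_zero]
  · have := two_T n
    have h : (2 : ℝ) * T (n + 1) = (n + 1) * n := by exact_mod_cast this
    rw [h]
    push_cast
    ring

lemma u_zero {k n G m x ρ : ℕ} (hk : 2 ≤ k) (hn : 4 ≤ n) (hm : m + 1 ≤ n) (hx : x < 256 * m)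
    (h1 : 32768 * (2 * (k : ℝ) - 1) ≤ ρ * (n - 2)) (h2 : 2048 * G ≤ x * n) :
    4 * G < T n ∧ T (k + 1) * T (k - 1) * (65536 ^ 4 * (256 * m - x)) ≤
      ρ ^ 4 * (256 * m) * (T (n - 2) * (T n - 4 * G)) := by
  have hk' : (2 : ℝ) ≤ k := by exact_mod_cast hk
  have hn' : (4 : ℝ) ≤ n := by exact_mod_cast hn
  have hm' : (m : ℝ) + 1 ≤ n := by exact_mod_cast hm
  have hx' : (x : ℝ) < 256 * m := by exact_mod_cast hx
  have h2' : (2048 : ℝ) * G ≤ x * n := by exact_mod_cast h2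
  have t1 := two_T_real n
  have x0 : (0 : ℝ) ≤ x := by positivity
  have hA : 4 * G < T n := by
    have : (4 : ℝ) * G < T n := by nlinarith
    exact_mod_cast this
  refine ⟨hA, ?_⟩
  have f1 := four_TT (k + 1) (by omega)
  have f2 := four_TT n (by omega)
  rw [show k + 1 - 2 = k - 1 by omega] at f1
  have goal : (((T (k + 1) * T (k - 1) : ℕ) : ℝ)) * (65536 ^ 4 * (256 * m - x)) ≤
      ρ ^ 4 * (256 * m) * (T (n - 2) * (T n - 4 * G)) := by
    generalize (((T (k + 1) * T (k - 1) : ℕ) : ℝ)) = P at f1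
    push_cast at f1 f2
    have i1 : 64 * P ≤ (2 * k - 1) ^ 4 := by nlinarith
    have i2 : (32768 * (2 * (k : ℝ) - 1)) ^ 4 ≤ (ρ * (n - 2)) ^ 4 :=
      pow_le_pow_left₀ (by nlinarith) h1 4
    have i3 : ((n : ℝ) - 2) ^ 4 ≤ 4 * (T n * T (n - 2)) := by
      rw [f2]
      have : (0 : ℝ) ≤ (n - 2) * (2 * (n - 2) ^ 2 - (n - 2) - 2) :=
        mul_nonneg (by linarith) (by nlinarith)
      nlinarith
    have i4 : (T n : ℝ) * (256 * m - x) ≤ 256 * m * (T n - 4 * G) := by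
      have m0 : (0 : ℝ) ≤ m := by positivity
      have j1 := mul_le_mul_of_nonneg_left h2' m0
      have j2 : x * n * (m : ℝ) ≤ x * n * (n - 1) :=
        mul_le_mul_of_nonneg_left (by linarith) (by positivity)
      have j3 : (x : ℝ) * (2 * T n) = x * (n * (n - 1)) := by rw [t1]
      nlinarith
    have y0 : (0 : ℝ) ≤ 256 * m - x := by linarith
    have r0 : (0 : ℝ) ≤ (ρ : ℝ) ^ 4 := by positivity
    have i5 : P * 65536 ^ 4 ≤ ρ ^ 4 * (T n * T (n - 2)) := by
      have := mul_le_mul_of_nonneg_left i3 r0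
      rw [mul_pow, mul_pow] at i2
      nlinarith
    have i6 := mul_le_mul_of_nonneg_right i5 y0
    have i7 := mul_le_mul_of_nonneg_left i4
      (show (0 : ℝ) ≤ (ρ : ℝ) ^ 4 * T (n - 2) by positivity)
    linarith
  have c1 : ((256 * m - x : ℕ) : ℝ) = 256 * m - x := by
    rw [Nat.cast_sub hx.le]; push_cast; ring
  have c2 : ((T n - 4 * G : ℕ) : ℝ) = T n - 4 * G := by
    rw [Nat.cast_sub hA.le]; push_cast; ring
  rw [← c1, ← c2] at goal
  exact_mod_cast goal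

lemma uok_sound {d : DF} {mode nmin x ρ : ℕ} {B : Box} {k a n G : ℕ}
    (h : uok d mode nmin x ρ B = true) (hB : InB B k a n) (g0 : 0 < d.gd)
    (hG : d.gd * G ≤ (d.fk + d.gd) * k + (d.fa - d.gd) * a + d.fn * n + (d.f0 - d.gd))
    (hG1 : 1 ≤ G) (h4 : 4 ≤ nmin) (hn : nmin ≤ n) (hk : 2 ≤ k) :
    0 < uD mode nmin x ∧ 4 * (G - 1) < T n ∧ T (k + 1) * T (k - 1) * uD mode nmin x ≤
      uN mode nmin ρ B * (T (n - 2) * (T n - 4 * (G - 1))) := by
  unfold uok at h
  unfold uD uN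
  split_ifs at h ⊢ with hm
  · simp only [Bool.and_eq_true, decide_eq_true_eq, Tc_eq] at h ⊢
    obtain ⟨⟨h1, h2⟩, h3⟩ := h
    have h5 := ub_sound h3 hB
    have h6 : d.gd * G < d.gd * (x + 1) := by linarith
    have h7 := lt_of_mul_lt_mul_left h6 g0.le
    have h8 : G ≤ x := by omega
    have h9 : k ≤ B.k2 := hB.k2.resolve_left h1
    have t1 : T nmin ≤ T n := T_mono hn
    have t2 : T (nmin - 2) ≤ T (n - 2) := T_mono (by omega)
    have t3 : T (k + 1) ≤ T (B.k2 + 1) := T_mono (by omega)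
    have t4 : T (k - 1) ≤ T (B.k2 - 1) := T_mono (by omega)
    have t5 : 0 < T (nmin - 2) := Nat.choose_pos (by omega)
    refine ⟨Nat.mul_pos t5 (by omega), by omega, ?_⟩
    exact Nat.mul_le_mul (Nat.mul_le_mul t3 t4) (Nat.mul_le_mul t2 (by omega))
  · simp only [Bool.and_eq_true, decide_eq_true_eq] at h
    obtain ⟨⟨h1, h2⟩, h3⟩ := h
    have h5 := ub_sound h2 hB
    have h6 := ub_sound h3 hB
    have h7 : d.gd * (2048 * (G - 1)) ≤ d.gd * (x * n) := by linarith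
    have h8 := le_of_mul_le_mul_left h7 g0
    have h9 : 2048 * (G - 1) ≤ x * n := by
      have : ((2048 * (G - 1) : ℕ) : ℤ) ≤ ((x * n : ℕ) : ℤ) := by
        push_cast [Nat.cast_sub hG1]
        exact h8
      exact_mod_cast this
    have h10 : (32768 * (2 * (k : ℤ) - 1)) ≤ ρ * (n - 2) := by linarith
    have h11 : (32768 * (2 * (k : ℝ) - 1)) ≤ ρ * (n - 2) := by exact_mod_cast h10
    obtain ⟨r1, r2⟩ := u_zero (m := nmin - 1) hk (by omega) (by omega) h1 h11 h9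
    exact ⟨Nat.mul_pos (by norm_num) (by omega), r1, r2⟩

lemma chords_sound {d : DF} {LT LU LZ : ℤ} {θ zn : ℕ} {B : Box} (f : ℕ) :
    ∀ j, chords d LT LU LZ θ zn B f j = true → ∀ i, j ≤ i → i < j + f →
      igFin d LT LU LZ (lgL θ zn i - i * (lgL θ zn (i + 1) - lgL θ zn i))
        (lgL θ zn (i + 1) - lgL θ zn i) B = true := by
  induction f with
  | zero => intro j _ i h1 h2; omega
  | succ f ih =>
    intro j h i h1 h2
    unfold chords at h
    rw [Bool.and_eq_true] at h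
    rcases Nat.eq_or_lt_of_le h1 with rfl | h3
    · exact h.1
    · exact ih _ h.2 i h3 (by omega)

noncomputable def cf (θ zn t : ℕ) : ℝ := 1 + ((1 + (zn : ℝ) / 4096) ^ t - 1) / θ

lemma cf_pos {θ : ℕ} (zn t : ℕ) (hθ : 1 ≤ θ) : 0 < cf θ zn t := by
  unfold cf
  have h1 : (1 : ℝ) ≤ (1 + (zn : ℝ) / 4096) ^ t := one_le_pow₀ (by
    have : (0 : ℝ) ≤ (zn : ℝ) / 4096 := by positivity
    linarith)
  have h2 : (0 : ℝ) ≤ ((1 + (zn : ℝ) / 4096) ^ t - 1) / θ := div_nonneg (by linarith) (by positivity)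
  linarith

lemma cf_lgL {θ : ℕ} (zn t : ℕ) (hθ : 1 ≤ θ) : Real.log (cf θ zn t) ≤ lgL θ zn t * lc := by
  unfold lgL
  refine log_le_lg (cf_pos zn t hθ) (by positivity) (le_of_eq ?_)
  have θ0 : (θ : ℝ) ≠ 0 := by positivity
  push_cast [Nat.cast_sub hθ]
  unfold cf
  have : (1 + (zn : ℝ) / 4096) ^ t = (4096 + zn) ^ t / 4096 ^ t := by
    rw [← div_pow]; congr 1; ring
  rw [this]
  field_simp
  ring

lemma cf_tail {θ : ℕ} (zn q t : ℕ) (hθ : 1 ≤ θ) (hq : q ≤ t) : Real.log (cf θ zn t) ≤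
    ((lg ((4096 + zn) ^ q + (θ - 1) * 4096 ^ q) (θ * (4096 + zn) ^ q) : ℝ) +
      lg (4096 + zn) 4096 * t) * lc := by
  set w : ℝ := 1 + (zn : ℝ) / 4096 with hw
  have w1 : 1 ≤ w := by
    have : (0 : ℝ) ≤ (zn : ℝ) / 4096 := by positivity
    linarith
  have θ1 : (1 : ℝ) ≤ θ := by exact_mod_cast hθ
  have θ2 : (0 : ℝ) ≤ θ - 1 := by linarith
  have e1 : Real.log w ≤ lg (4096 + zn) 4096 * lc :=
    log_le_lg (by linarith) (by norm_num) (le_of_eq (by rw [hw]; push_cast; ring))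
  have e2 : Real.log ((1 + (θ - 1) / w ^ q) / θ) ≤
      lg ((4096 + zn) ^ q + (θ - 1) * 4096 ^ q) (θ * (4096 + zn) ^ q) * lc := by
    refine log_le_lg (by positivity) (by positivity) (le_of_eq ?_)
    push_cast [Nat.cast_sub hθ]
    have : w ^ q = (4096 + zn) ^ q / 4096 ^ q := by
      rw [← div_pow, hw]; congr 1; ring
    rw [this]
    field_simp
  have e3 : cf θ zn t ≤ (1 + (θ - 1) / w ^ q) / θ * w ^ t := by
    unfold cf
    rw [← hw]
    have h1 : w ^ q ≤ w ^ t := pow_le_pow_right₀ w1 hq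
    have h2 : (θ - 1 : ℝ) ≤ (θ - 1) / w ^ q * w ^ t := by
      rw [div_mul_eq_mul_div, le_div_iff₀ (by positivity)]
      exact mul_le_mul_of_nonneg_left h1 θ2
    have h3 : 1 + (w ^ t - 1) / θ = (θ - 1 + w ^ t) / θ := by field_simp; ring
    rw [h3, div_mul_eq_mul_div]
    apply div_le_div_of_nonneg_right _ (by linarith)
    linarith
  have e4 := Real.log_le_log (cf_pos zn t hθ) e3
  rw [Real.log_mul (by positivity) (by positivity), Real.log_pow] at e4
  have e5 := mul_le_mul_of_nonneg_left e1 (show (0 : ℝ) ≤ t by positivity)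
  linarith

lemma igFin_sound {d : DF} {LT LU LZ A Bc : ℤ} {B : Box} {k a n G p : ℕ}
    (h : igFin d LT LU LZ A Bc B = true) (hB : InB B k a n) (g0 : 0 < d.gd) (hLU : 0 ≤ LU)
    (hG : d.gd * G ≤ (d.fk + d.gd) * k + (d.fa - d.gd) * a + d.fn * n + (d.f0 - d.gd))
    (hp : p + a + 1 = k) : LU * G + (A * p + Bc * n) + LT * a + LZ * (k + 1) < 0 := by
  have h1 := ub_sound h hB
  have h2 := mul_le_mul_of_nonneg_left hG hLU
  have h3 : (k : ℤ) = p + a + 1 := by omega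
  have h4 : d.gd * (LU * G + (A * p + Bc * n) + LT * a + LZ * (k + 1)) < d.gd * 0 := by
    rw [h3] at h1 h2 ⊢
    linarith
  exact lt_of_mul_lt_mul_left h4 g0.le

lemma ig_final {p G a k n θ zn : ℕ} {V : ℝ} {LT LU LZ A Bc : ℤ} (q : Fin p → ℕ)
    (hθ : 1 ≤ θ) (hz : 1 ≤ zn) (hV : 0 < V) (h1 : Real.log V ≤ LU * lc)
    (h2 : ∀ c, Real.log (cf θ zn (q c)) ≤ (A + Bc * q c) * lc) (hq : ∑ c, q c = n)
    (hT : LT = lg 1 θ) (hZ : LZ = lg 4096 zn)
    (h : LU * G + (A * p + Bc * n) + LT * a + LZ * (k + 1) < 0) :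
    V ^ G * ∏ c, cf θ zn (q c) < (θ : ℝ) ^ a * ((zn : ℝ) / 4096) ^ (k + 1) := by
  have θ0 : (0 : ℝ) < θ := by exact_mod_cast hθ
  have z0 : (0 : ℝ) < zn := by exact_mod_cast hz
  have p0 : 0 < ∏ c, cf θ zn (q c) := prod_pos fun c _ => cf_pos zn _ hθ
  have e1 := lg_sound (num := 1) (den := θ) one_pos hθ
  have e2 := lg_sound (num := 4096) (den := zn) (by norm_num) hz
  rw [← hT, Nat.cast_one, one_div, Real.log_inv] at e1
  rw [← hZ, ← inv_div, Real.log_inv] at e2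
  rw [← Real.log_lt_log_iff (by positivity) (by positivity), Real.log_mul (by positivity) p0.ne',
    Real.log_mul (by positivity) (by positivity), Real.log_pow, Real.log_pow, Real.log_pow,
    Real.log_prod (fun c _ => (cf_pos zn _ hθ).ne')]
  have e3 : ∑ c, Real.log (cf θ zn (q c)) ≤ (A * p + Bc * n) * lc := by
    refine (sum_le_sum fun c _ => h2 c).trans (le_of_eq ?_)
    rw [← sum_mul, sum_add_distrib, ← mul_sum, ← hq]
    simp [mul_comm]
  have e4 : ((LU * G + (A * p + Bc * n) + LT * a + LZ * (k + 1) : ℤ) : ℝ) < 0 := by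
    exact_mod_cast h
  have e5 := mul_neg_of_neg_of_pos e4 lc_pos
  have e6 := mul_le_mul_of_nonneg_left h1 (show (0 : ℝ) ≤ G by positivity)
  have e7 := mul_le_mul_of_nonneg_left e1 (show (0 : ℝ) ≤ a by positivity)
  have e8 := mul_le_mul_of_nonneg_left e2 (show (0 : ℝ) ≤ k + 1 by positivity)
  push_cast at e5 e8 ⊢
  linarith

lemma ig_sound {ty c θ zn mode nmin x ρ q1 q2 tail : ℕ} {B : Box} {C M k a n D : ℕ}
    (h : igLeaf ty c θ zn mode nmin x ρ q1 q2 tail B = true)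
    (hB : InB B k a n) (hH : Hyp k a n D) (hM : M + a = T (k + 1)) (hC : C + D = T n) :
    Good C M := by
  unfold igLeaf igCore at h
  simp only [Bool.and_eq_true, decide_eq_true_eq] at h
  obtain ⟨⟨⟨⟨⟨⟨⟨h1, hθ⟩, hz⟩, h4⟩, h5⟩, h6⟩, h7⟩, ⟨h8, h9⟩, h10⟩ := h
  obtain ⟨g0, g1⟩ := dform_sound h1 hB hH
  obtain ⟨ak, aD, d0, -, -, -⟩ := hH
  generalize dform ty c = d at *
  obtain ⟨p, hp⟩ : ∃ p, p + a + 1 = k := ⟨k - a - 1, by omega⟩
  have p1 : 1 ≤ p := by omega
  have hp' : (k : ℤ) = p + a + 1 := by omega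
  have hG : d.gd * ((D + p : ℕ) : ℤ) ≤
      (d.fk + d.gd) * k + (d.fa - d.gd) * a + d.fn * n + (d.f0 - d.gd) := by
    push_cast
    have : d.gd * k = d.gd * (p + a + 1) := by rw [hp']
    linarith
  have h5 := ub_sound h5 hB
  have h7 := ub_sound h7 hB
  obtain ⟨u1, u2, u3⟩ := uok_sound h6 hB g0 hG (by omega) h4 (by omega) (by omega)
  generalize uD mode nmin x = ud at *
  generalize uN mode nmin ρ B = un at *
  have ud0 : (0 : ℝ) < ud := by exact_mod_cast u1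
  have θ1 : (1 : ℝ) ≤ θ := by exact_mod_cast hθ
  have θ2 : (0 : ℝ) ≤ θ - 1 := by linarith
  have z0 : (0 : ℝ) < zn := by exact_mod_cast hz
  refine IG hM hC p1 (by omega) (by omega) ((un : ℝ) / ud) θ ((zn : ℝ) / 4096) (by positivity) θ1
    (by positivity) (by omega) u2 ?_ ?_
  · rw [div_mul_eq_mul_div, le_div_iff₀ ud0]
    exact_mod_cast u3
  intro q hq hs
  have hV : Real.log (1 + (θ - 1) * ((un : ℝ) / ud)) ≤ lg (ud + (θ - 1) * un) ud * lc := by
    refine log_le_lg (by positivity) u1 (le_of_eq ?_)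
    push_cast [Nat.cast_sub hθ]
    field_simp
  have j1 : q1 ≤ n / p := by
    rw [Nat.le_div_iff_mul_le p1]
    have : (q1 : ℤ) * p ≤ n := by rw [hp'] at h7; linarith
    exact_mod_cast this
  rcases lt_or_ge (n / p) q2 with hj | hj
  · have f1 := chords_sound _ _ h9 (n / p) j1 (by omega)
    refine ig_final q hθ hz (by positivity) hV ?_ hs rfl rfl (igFin_sound f1 hB g0 h8 hG hp)
    intro c
    refine (cf_lgL zn _ hθ).trans (le_of_eq ?_)
    have e := hq c
    generalize n / p = j at e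
    rcases e with e | e <;> rw [e] <;> push_cast <;> ring
  · split_ifs at h10 with ht
    · exfalso
      have h11 := ub_sound h10 hB
      rw [Nat.le_div_iff_mul_le p1] at hj
      have : (q2 : ℤ) * p ≤ n := by exact_mod_cast hj
      rw [hp'] at h11
      linarith
    · refine ig_final q hθ hz (by positivity) hV ?_ hs rfl rfl (igFin_sound h10 hB g0 h8 hG hp)
      intro c
      exact cf_tail zn q2 _ hθ (by rcases hq c with e | e <;> omega)

end Pool.Agent.P.MP_ea54b6_co
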