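import Pool.Agent.P.MP_ea54b6_co.Sound1

set_option autoImplicit false

namespace Pool.Agent.P.MP_ea54b6_co

open Finset

lemma rvTerm_mono {p a a' D D' y : ℕ} {θ : ℝ} (hθ : 1 ≤ θ) (ha : a' ≤ a) (hD : D ≤ D') :
    rvTerm p a D y θ ≤ rvTerm p a' D' y θ := by
  unfold rvTerm
  have h0 := sub_nonneg.2 hθ
  have h1 : (θ ^ (a + y))⁻¹ ≤ (θ ^ (a' + y))⁻¹ :=
    inv_anti₀ (by positivity) (pow_le_pow_right₀ hθ (by omega))
  have h2 : (1 + (θ - 1) * ((y : ℝ) / p) ^ 4) ^ D ≤ (1 + (θ - 1) * ((y : ℝ) / p) ^ 4) ^ D' :=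
    pow_le_pow_right₀ (le_add_of_nonneg_right (by positivity)) hD
  gcongr

lemma rvT_sound {p θ : ℕ} (a D y : ℕ) (hp : 1 ≤ p) (hθ : 1 ≤ θ) :
    rvTerm p a D y θ * 2 ^ 30 ≤ rvT p a D y θ := by
  unfold rvT
  rw [← Nat.choose_eq_descFactorial_div_factorial]
  have key : ∀ N d : ℕ, 0 < d → (N : ℝ) / d ≤ ((N / d + 1 : ℕ) : ℝ) := by
    intro N d hd
    rw [div_le_iff₀ (by exact_mod_cast hd)]
    have h1 := Nat.div_add_mod N d
    have h2 := Nat.mod_lt N hd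
    have : N ≤ (N / d + 1) * d := by nlinarith
    exact_mod_cast this
  refine le_trans (le_of_eq ?_) (key _ _ (by positivity))
  unfold rvTerm
  have p0 : (p : ℝ) ≠ 0 := by positivity
  have θ0 : (θ : ℝ) ≠ 0 := by positivity
  have e3 : (1 + ((θ : ℝ) - 1) * ((y : ℝ) / p) ^ 3) = (p ^ 3 + (θ - 1) * y ^ 3) / p ^ 3 := by
    field_simp
  have e4 : (1 + ((θ : ℝ) - 1) * ((y : ℝ) / p) ^ 4) = (p ^ 4 + (θ - 1) * y ^ 4) / p ^ 4 := by
    field_simp
  rw [e3, e4, div_pow, div_pow, ← pow_mul, ← pow_mul]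
  push_cast [Nat.cast_sub hθ]
  field_simp
  norm_num

lemma thRV_one (p ts y : ℕ) : 1 ≤ thRV p ts y := by
  unfold thRV
  exact le_trans (by norm_num) (Nat.le_add_right 2 _)

lemma rvSum_sound {p : ℕ} (a D ts : ℕ) (hp : 1 ≤ p) (m : ℕ) :
    (∑ y ∈ Icc 1 m, rvTerm p a D y (thRV p ts y)) * 2 ^ 30 ≤ rvSum p a D ts m := by
  induction m with
  | zero => simp
  | succ m ih =>
    rw [sum_Icc_succ_top (by omega), rvSum, add_mul]
    have := rvT_sound a D (m + 1) hp (thRV_one p ts (m + 1))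
    push_cast
    linarith

lemma rvc_sound {ty c a1 Dm p ts : ℕ} {B : Box} {C M k a n D : ℕ}
    (h : rvcLeaf ty c a1 Dm p ts B = true)
    (hB : InB B k a n) (hH : Hyp k a n D) (hM : M + a = T (k + 1)) (hC : C + D = T n) :
    Good C M := by
  unfold rvcLeaf at h
  simp only [Bool.and_eq_true, decide_eq_true_eq] at h
  obtain ⟨⟨⟨⟨⟨⟨⟨h1, h2⟩, hp⟩, h4⟩, h5⟩, h6⟩, h7⟩, h8⟩ := h
  obtain ⟨g0, g1⟩ := dform_sound h1 hB hH
  generalize dform ty c = d at *
  have h4 := ub_sound h4 hB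
  have h5 := ub_sound h5 hB
  have h6 := ub_sound h6 hB
  have h7 := ub_sound h7 hB
  have hk : k ≤ B.k2 := hB.k2.resolve_left h2
  have e1 : d.gd * D < d.gd * (Dm + 1) := by linarith
  have e2 := lt_of_mul_lt_mul_left e1 g0.le
  have e3 : d.gd * (4 * (p + D)) ≤ d.gd * n := by linarith
  have e4 := le_of_mul_le_mul_left e3 g0
  refine RV (ym := (B.k2 + 1) / 4 - a1) hM hC hp (by omega) (by omega) (by omega)
    (fun y => thRV p ts y) (fun y => by exact_mod_cast thRV_one p ts y) ?_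
  have e5 := rvSum_sound a1 Dm ts hp ((B.k2 + 1) / 4 - a1)
  have e6 : (rvSum p a1 Dm ts ((B.k2 + 1) / 4 - a1) : ℝ) < 2 ^ 30 := by exact_mod_cast h8
  have e7 : ∑ y ∈ Icc 1 ((B.k2 + 1) / 4 - a1), rvTerm p a D y (thRV p ts y) ≤
      ∑ y ∈ Icc 1 ((B.k2 + 1) / 4 - a1), rvTerm p a1 Dm y (thRV p ts y) :=
    sum_le_sum fun y _ => rvTerm_mono (by exact_mod_cast thRV_one p ts y) (by omega) (by omega)
  linarith

noncomputable def wt (y : ℕ) : ℝ := (3 / 10) ^ y + 1 / 10 * (17 / 20) ^ y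

lemma wt_sum (m : ℕ) : ∑ y ∈ Icc 1 m, wt y < 1 := by
  have : ∑ y ∈ Icc 1 m, wt y = 3 / 7 * (1 - (3 / 10) ^ m) + 17 / 30 * (1 - (17 / 20) ^ m) := by
    induction m with
    | zero => simp
    | succ m ih =>
      rw [sum_Icc_succ_top (by omega), ih]
      unfold wt
      ring
  rw [this]
  have h1 : (0 : ℝ) < (3 / 10) ^ m := by positivity
  have h2 : (0 : ℝ) < (17 / 20) ^ m := by positivity
  linarith

lemma rv_small {p a D y : ℕ} (hy : 1 ≤ y) (hp : 12 * y ≤ p) (hD : D ≤ 4 * p + 72 * a) :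
    ∃ θ : ℝ, 1 ≤ θ ∧ rvTerm p a D y θ ≤ wt y := by
  have y0 : (0 : ℝ) < y := by exact_mod_cast hy
  have hp' : (12 : ℝ) * y ≤ p := by exact_mod_cast hp
  have p0 : (0 : ℝ) < p := by linarith
  have hD' : (D : ℝ) ≤ 4 * p + 72 * a := by exact_mod_cast hD
  have hc := choose_le_exp p y (by omega)
  unfold rvTerm
  set φ : ℝ := y / p with hφ
  have φ0 : 0 < φ := by positivity
  have φ1 : φ ≤ 1 / 12 := by rw [hφ, div_le_iff₀ p0]; linarith
  have φp : φ * p = y := by rw [hφ]; field_simp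
  have φ3 : φ ^ 3 ≤ (1 / 12) ^ 3 := pow_le_pow_left₀ φ0.le φ1 3
  have φ2 : φ ^ 2 ≤ (1 / 12) ^ 2 := pow_le_pow_left₀ φ0.le φ1 2
  set θ : ℝ := (4 * φ ^ 3)⁻¹ with hθ
  have θm : θ * (4 * φ ^ 3) = 1 := inv_mul_cancel₀ (by positivity)
  have θ0 : 0 < θ := by positivity
  have θ1 : 432 ≤ θ := by nlinarith
  have θ2 : 0 ≤ θ - 1 := by linarith
  refine ⟨θ, by linarith, ?_⟩
  have b3 : 1 + (θ - 1) * φ ^ 3 ≤ 5 / 4 := by nlinarith [pow_pos φ0 3]
  have b4 : (θ - 1) * φ ^ 4 ≤ φ / 4 := by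
    have : (θ - 1) * φ ^ 4 = (θ * (4 * φ ^ 3)) * φ / 4 - φ ^ 4 := by ring
    rw [this, θm]
    nlinarith [pow_pos φ0 4]
  have b5 : (1 + (θ - 1) * φ ^ 4) ^ D ≤ Real.exp 1 ^ y * Real.exp 3 ^ a := by
    refine (one_add_pow_le_exp D (by positivity)).trans ?_
    rw [← Real.exp_nat_mul, ← Real.exp_nat_mul, ← Real.exp_add, Real.exp_le_exp]
    have a0 : (0 : ℝ) ≤ a := by positivity
    have i1 := mul_le_mul_of_nonneg_left b4 (show (0 : ℝ) ≤ D by positivity)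
    have i2 := mul_le_mul_of_nonneg_right hD' φ0.le
    have i3 := mul_le_mul_of_nonneg_left φ1 a0
    nlinarith
  have b6 : (p.choose y : ℝ) ≤ (Real.exp 1 / φ) ^ y := by
    rw [div_pow, le_div_iff₀ (by positivity), ← Real.exp_nat_mul, mul_one]
    exact hc
  have e1 := Real.exp_one_lt_d9
  have e0 := Real.exp_pos 1
  have e3 := exp_three_lt
  have b7 : θ⁻¹ * Real.exp 3 ≤ 1 := by
    rw [inv_mul_le_iff₀ θ0]
    linarith
  have b8 : Real.exp 1 / φ * (θ⁻¹ * (5 / 4 * Real.exp 1)) ≤ 3 / 10 := by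
    have : Real.exp 1 / φ * (θ⁻¹ * (5 / 4 * Real.exp 1)) = 5 * Real.exp 1 ^ 2 * φ ^ 2 := by
      rw [hθ, inv_inv]
      field_simp
    rw [this]
    have : Real.exp 1 ^ 2 ≤ 7.4 := by nlinarith
    nlinarith [pow_pos φ0 2]
  calc (p.choose y : ℝ) * ((θ ^ (a + y))⁻¹ * ((1 + (θ - 1) * φ ^ 3) ^ y *
        (1 + (θ - 1) * φ ^ 4) ^ D))
      ≤ (Real.exp 1 / φ) ^ y * ((θ ^ (a + y))⁻¹ * ((5 / 4) ^ y *
        (Real.exp 1 ^ y * Real.exp 3 ^ a))) := by gcongr
    _ = (Real.exp 1 / φ * (θ⁻¹ * (5 / 4 * Real.exp 1))) ^ y * (θ⁻¹ * Real.exp 3) ^ a := by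
      simp only [mul_pow, pow_add, mul_inv, inv_pow]
      ring
    _ ≤ (3 / 10) ^ y * 1 := by
      gcongr
      exact pow_le_one₀ (by positivity) b7
    _ ≤ wt y := by
      unfold wt
      have : (0 : ℝ) < (17 / 20) ^ y := by positivity
      linarith

lemma rv_log {p a D y ph nx θ : ℕ} (h1 : ph < 1200) (h2 : 0 < ph) (hθ : 1 ≤ θ) (hp : 1 ≤ p)
    (hy : 1200 * y ≤ nx * p) {s c : ℝ} (hs : 0 < s) (hc : 0 < c) {ls c0 : ℤ}
    (h3 : Real.log s ≤ ls * lc) (h4 : Real.log c ≤ c0 * lc)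
    (h : p * lg 1200 (1200 - ph) + y * (lg (1200 - ph) ph + lg 1 θ +
      lg (1200 ^ 3 + (θ - 1) * nx ^ 3) (1200 ^ 3) + ls) + a * lg 1 θ +
      D * lg (1200 ^ 4 + (θ - 1) * nx ^ 4) (1200 ^ 4) + c0 ≤ 0) :
    rvTerm p a D y θ ≤ c⁻¹ * s⁻¹ ^ y := by
  have h1' : (ph : ℝ) < 1200 := by exact_mod_cast h1
  have h2' : (0 : ℝ) < ph := by exact_mod_cast h2
  have θ1 : (1 : ℝ) ≤ θ := by exact_mod_cast hθ
  have θ2 : (0 : ℝ) ≤ θ - 1 := by linarith
  have p0 : (0 : ℝ) < p := by exact_mod_cast hp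
  have hy' : (1200 : ℝ) * y ≤ nx * p := by exact_mod_cast hy
  have q0 : (0 : ℝ) < 1200 - ph := by linarith
  set x : ℝ := ph / (1200 - ph) with hx
  have x0 : 0 < x := by positivity
  have φ1 : (y : ℝ) / p ≤ nx / 1200 := by
    rw [div_le_div_iff₀ p0 (by norm_num)]; linarith
  have c1 : ((1200 - ph : ℕ) : ℝ) = 1200 - ph := by rw [Nat.cast_sub h1.le]; norm_num
  have l1 : Real.log (1 + x) ≤ lg 1200 (1200 - ph) * lc :=
    log_le_lg (by positivity) (by omega) (le_of_eq (by rw [c1, hx]; field_simp; norm_num))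
  have l2 : Real.log x⁻¹ ≤ lg (1200 - ph) ph * lc :=
    log_le_lg (by positivity) h2 (le_of_eq (by rw [c1, hx]; field_simp))
  have l3 : Real.log (θ : ℝ)⁻¹ ≤ lg 1 θ * lc :=
    log_le_lg (by positivity) hθ (le_of_eq (by field_simp; norm_num))
  have l4 : ∀ j : ℕ, Real.log (1 + (θ - 1) * ((y : ℝ) / p) ^ j) ≤
      lg (1200 ^ j + (θ - 1) * nx ^ j) (1200 ^ j) * lc := by
    intro j
    refine log_le_lg (by positivity) (by positivity) ?_
    have i1 : ((y : ℝ) / p) ^ j ≤ (nx / 1200) ^ j := pow_le_pow_left₀ (by positivity) φ1 j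
    rw [div_pow (nx : ℝ), le_div_iff₀ (by positivity)] at i1
    have i2 := mul_le_mul_of_nonneg_left i1 θ2
    push_cast [Nat.cast_sub hθ]
    linarith
  have b1 : (p.choose y : ℝ) ≤ (1 + x) ^ p * x⁻¹ ^ y := by
    rw [inv_pow, ← div_eq_mul_inv, le_div_iff₀ (by positivity)]
    exact choose_mul_le p y x0.le
  unfold rvTerm
  refine le_trans (mul_le_mul_of_nonneg_right b1 (by positivity)) ?_
  rw [← Real.log_le_log_iff (by positivity) (by positivity), ← inv_pow]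
  rw [Real.log_mul (by positivity) (by positivity), Real.log_mul (by positivity) (by positivity),
    Real.log_mul (by positivity) (by positivity), Real.log_mul (by positivity) (by positivity),
    Real.log_mul (by positivity) (by positivity)]
  simp only [Real.log_pow]
  rw [Real.log_inv c, Real.log_inv s]
  have y0 : (0 : ℝ) ≤ y := by positivity
  have m1 := mul_le_mul_of_nonneg_left l1 p0.le
  have m2 := mul_le_mul_of_nonneg_left l2 y0
  have m3 := mul_le_mul_of_nonneg_left l3 (show (0 : ℝ) ≤ a + y by positivity)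
  have m4 := mul_le_mul_of_nonneg_left (l4 3) y0
  have m5 := mul_le_mul_of_nonneg_left (l4 4) (show (0 : ℝ) ≤ D by positivity)
  have m6 := mul_le_mul_of_nonneg_left h3 y0
  have m7 := (Int.cast_le (R := ℝ)).2 h
  have m8 := mul_le_mul_of_nonneg_right m7 lc_pos.le
  push_cast at m8 ⊢
  push_cast at m4 m5
  linarith

lemma phiStep_sound {d : DF} {ps pt : ℤ} {ph nx θ tg : ℕ} {B : Box} {k a n D p y : ℕ}
    (h : phiStep d ps pt ph nx θ tg B = true) (hB : InB B k a n) (g0 : 0 < d.gd)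
    (g1 : d.gd * D ≤ d.fk * k + d.fa * a + d.fn * n + d.f0) (hp : 1 ≤ p)
    (p1 : 6000 * (p : ℤ) ≤ ps * k + pt) (p2 : ps * k + pt - 6000 ≤ 6000 * (p : ℤ))
    (hy1 : ph * p ≤ 1200 * y) (hy2 : 1200 * y ≤ nx * p) :
    ∃ θ : ℝ, 1 ≤ θ ∧ rvTerm p a D y θ ≤ wt y := by
  unfold phiStep phiFin at h
  simp only [Bool.and_eq_true, decide_eq_true_eq] at h
  obtain ⟨⟨⟨h1, h2⟩, hθ⟩, ⟨h4, h5⟩, h6⟩ := h
  have h7 := ub_sound h6 hB
  have key : p * lg 1200 (1200 - ph) + y * (lg (1200 - ph) ph + lg 1 θ +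
      lg (1200 ^ 3 + (θ - 1) * nx ^ 3) (1200 ^ 3) + (if tg = 0 then lg 10 3 else lg 20 17)) +
      a * lg 1 θ + D * lg (1200 ^ 4 + (θ - 1) * nx ^ 4) (1200 ^ 4) +
      (if tg = 0 then 0 else lg 10 1) ≤ 0 := by
    generalize (lg (1200 - ph) ph + lg 1 θ + lg (1200 ^ 3 + (θ - 1) * nx ^ 3) (1200 ^ 3) +
      (if tg = 0 then lg 10 3 else lg 20 17)) = cy at h4 h7 ⊢
    generalize lg (1200 ^ 4 + (θ - 1) * nx ^ 4) (1200 ^ 4) = LV at h5 h7 ⊢
    generalize lg 1200 (1200 - ph) = X at h7 ⊢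
    generalize lg 1 θ = LT at h7 ⊢
    generalize (if tg = 0 then 0 else lg 10 1) = c0 at h7 ⊢
    have i1 : (1200 * X + cy * ph) * (6000 * p) ≤ (1200 * X + cy * ph) *
        (ps * k + if 0 ≤ 1200 * X + cy * ph then pt else pt - 6000) := by
      split_ifs with hc
      · exact mul_le_mul_of_nonneg_left p1 hc
      · exact mul_le_mul_of_nonpos_left (by linarith) (by omega)
    generalize (if 0 ≤ 1200 * X + cy * ph then pt else pt - 6000) = pt' at h7 i1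
    have i2 := mul_le_mul_of_nonneg_left i1 g0.le
    have i3 := mul_le_mul_of_nonneg_left g1 h5
    have i4 : (ph : ℤ) * p ≤ 1200 * y := by exact_mod_cast hy1
    have i5 := mul_le_mul_of_nonneg_left (mul_le_mul_of_nonpos_left i4 h4) g0.le
    have i6 : d.gd * (p * X + y * cy + a * LT + D * LV + c0) ≤ d.gd * 0 := by linarith
    exact le_of_mul_le_mul_left i6 g0
  refine ⟨θ, by exact_mod_cast hθ, ?_⟩
  unfold wt
  by_cases ht : tg = 0
  · rw [if_pos ht, if_pos ht] at key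
    have := rv_log h1 h2 hθ hp hy2 (s := 10 / 3) (c := 1) (by norm_num) (by norm_num)
      (log_le_lg (by norm_num) (by norm_num) (by norm_num)) (by simp) key
    have h8 : (0 : ℝ) < (17 / 20) ^ y := by positivity
    norm_num at this
    linarith
  · rw [if_neg ht, if_neg ht] at key
    have := rv_log h1 h2 hθ hp hy2 (s := 20 / 17) (c := 10) (by norm_num) (by norm_num)
      (log_le_lg (by norm_num) (by norm_num) (by norm_num))
      (log_le_lg (by norm_num) (by norm_num) (by norm_num)) key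
    have h8 : (0 : ℝ) < (3 / 10) ^ y := by positivity
    norm_num at this
    linarith

lemma phiLoop_sound {d : DF} {ps pt : ℤ} {B : Box} {k a n D p : ℕ} (hB : InB B k a n)
    (g0 : 0 < d.gd) (g1 : d.gd * D ≤ d.fk * k + d.fa * a + d.fn * n + d.f0) (hp : 1 ≤ p)
    (p1 : 6000 * (p : ℤ) ≤ ps * k + pt) (p2 : ps * k + pt - 6000 ≤ 6000 * (p : ℤ)) (f : ℕ) :
    ∀ (ph : ℕ) (L r : List ℕ), phiLoop d ps pt B f ph L = some r → ∀ y, ph * p < 1200 * y →
      4 * (a + y) ≤ k + 1 → ∃ θ : ℝ, 1 ≤ θ ∧ rvTerm p a D y θ ≤ wt y := by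
  induction f with
  | zero => intro ph L r h; simp [phiLoop] at h
  | succ f ih =>
    intro ph L r h y hy1 hy2
    rcases L with _ | ⟨nx, l⟩
    · simp [phiLoop] at h
    unfold phiLoop at h
    split_ifs at h with h1 h2 h3
    · exfalso
      have h4 := ub_sound h2 hB
      have i1 : (ph : ℤ) * p < 1200 * y := by exact_mod_cast hy1
      have i2 : 4 * ((a : ℤ) + y) ≤ k + 1 := by exact_mod_cast hy2
      have i3 := mul_le_mul_of_nonneg_left p2 (show (0 : ℤ) ≤ ph by positivity)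
      linarith
    · rcases lt_or_ge (nx * p) (1200 * y) with h4 | h4
      · exact ih nx _ r h y h4 hy2
      · exact phiStep_sound h3 hB g0 g1 hp p1 p2 hy1.le h4

lemma rva_sound {ty c : ℕ} {ps pt : ℤ} {B : Box} {C M k a n D f : ℕ} {L r : List ℕ}
    (h : rvaHead ty c ps pt B = true) (h' : phiLoop (dform ty c) ps pt B f 100 L = some r)
    (hB : InB B k a n) (hH : Hyp k a n D) (hM : M + a = T (k + 1)) (hC : C + D = T n) :
    Good C M := by
  unfold rvaHead at h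
  simp only [Bool.and_eq_true] at h
  obtain ⟨⟨⟨⟨h1, h2⟩, h3⟩, h4⟩, h5⟩ := h
  obtain ⟨g0, g1⟩ := dform_sound h1 hB hH
  generalize dform ty c = d at *
  have h2 := ub_sound h2 hB
  have h3 := ub_sound h3 hB
  have h4 := ub_sound h4 hB
  have h5 := ub_sound h5 hB
  obtain ⟨p, p1, p2⟩ : ∃ p : ℕ, 6000 * (p : ℤ) ≤ ps * k + pt ∧
      ps * k + pt - 6000 < 6000 * (p : ℤ) := by
    have : 6000 ≤ ps * k + pt := by linarith
    generalize ps * k + pt = z at this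
    exact ⟨(z / 6000).toNat, by omega, by omega⟩
  have hp : 1 ≤ p := by
    have : (0 : ℤ) < p := by linarith
    omega
  have e1 : (p : ℤ) + a + 1 ≤ k := by linarith
  have i1 := mul_le_mul_of_nonneg_left p1 g0.le
  have i2 := mul_le_mul_of_nonneg_left p2.le g0.le
  have e3 : d.gd * (4 * (p + D)) ≤ d.gd * n := by linarith
  have e4 := le_of_mul_le_mul_left e3 g0
  have e5 : d.gd * D ≤ d.gd * (4 * p + 72 * a) := by linarith
  have e6 := le_of_mul_le_mul_left e5 g0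
  have key : ∀ y, ∃ θ : ℝ, 1 ≤ θ ∧ (y ∈ Icc 1 ((k + 1) / 4 - a) → rvTerm p a D y θ ≤ wt y) := by
    intro y
    by_cases hy : y ∈ Icc 1 ((k + 1) / 4 - a)
    · rw [mem_Icc] at hy
      rcases lt_or_ge (100 * p) (1200 * y) with h6 | h6
      · obtain ⟨θ, t1, t2⟩ := phiLoop_sound hB g0 g1 hp p1 p2.le f 100 L r h' y h6 (by omega)
        exact ⟨θ, t1, fun _ => t2⟩
      · obtain ⟨θ, t1, t2⟩ := rv_small (a := a) (D := D) (p := p) hy.1 (by omega) (by omega)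
        exact ⟨θ, t1, fun _ => t2⟩
    · exact ⟨1, le_rfl, fun h => absurd h hy⟩
  choose θ t1 t2 using key
  exact RV (ym := (k + 1) / 4 - a) hM hC hp (by omega) (by omega) (by omega) θ t1
    (lt_of_le_of_lt (sum_le_sum fun y hy => t2 y hy) (wt_sum _))

end Pool.Agent.P.MP_ea54b6_co
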