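import Pool.Agent.P.MP_ea54b6_co.Sound2
import Pool.Agent.P.MP_ea54b6_co.Sound3
import Pool.Agent.P.MP_ea54b6_co.Det2

set_option autoImplicit false

namespace Pool.Agent.P.MP_ea54b6_co

lemma chk_sound {C M k a n D : ℕ} (hH : Hyp k a n D) (hM : M + a = T (k + 1)) (hC : C + D = T n)
    (f : ℕ) : ∀ (B : Box) (L r : List ℕ), chk f B L = some r → InB B k a n → Good C M := by
  induction f with
  | zero => intro B L r h; simp [chk] at h
  | succ f ih =>
    intro B L r h hB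
    rcases L with _ | ⟨op, l⟩
    · simp [chk] at h
    unfold chk at h
    by_cases h0 : op = 0
    · rw [if_pos h0] at h
      by_cases h1 : l.getD 0 0 = 0
      · rw [if_pos h1] at h
        exact absurd h (by simp)
      rw [if_neg h1] at h
      obtain ⟨r', e1, e2⟩ := Option.bind_eq_some_iff.1 h
      rcases le_or_gt k (l.getD 0 0) with hk | hk
      · exact ih _ _ _ e1 (nrm_sound ⟨hB.k1, Or.inr hk, hB.a1, hB.a2, hB.n1, hB.n2⟩)
      · exact ih _ _ _ e2 (nrm_sound ⟨hk, hB.k2, hB.a1, hB.a2, hB.n1, hB.n2⟩)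
    rw [if_neg h0] at h
    by_cases h1 : op = 1
    · rw [if_pos h1] at h
      obtain ⟨r', e1, e2⟩ := Option.bind_eq_some_iff.1 h
      rcases le_or_gt (6000 * (a : ℤ)) ((l.getD 0 0 : ℕ) * k + ((l.getD 1 0 : ℤ) - 10000000))
        with hk | hk
      · exact ih _ _ _ e1 (nrm_sound ⟨hB.k1, hB.k2, hB.a1, hk, hB.n1, hB.n2⟩)
      · exact ih _ _ _ e2 (nrm_sound ⟨hB.k1, hB.k2, by simp only; linarith, hB.a2, hB.n1, hB.n2⟩)
    rw [if_neg h1] at h
    by_cases h2 : op = 2
    · rw [if_pos h2] at h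
      obtain ⟨r', e1, e2⟩ := Option.bind_eq_some_iff.1 h
      rcases le_or_gt (6000 * (n : ℤ)) ((l.getD 0 0 : ℕ) * k + ((l.getD 1 0 : ℤ) - 10000000))
        with hk | hk
      · exact ih _ _ _ e1 (nrm_sound ⟨hB.k1, hB.k2, hB.a1, hB.a2, hB.n1, hk⟩)
      · exact ih _ _ _ e2 (nrm_sound ⟨hB.k1, hB.k2, hB.a1, hB.a2, by simp only; linarith, hB.n2⟩)
    rw [if_neg h2] at h
    split_ifs at h with h3 g3 h4 g4 h5 g5 h6 g6 h7 g7 h8 g8
    · exact (emp_sound g3 hB).elim
    · exact ig_sound g4 hB hH hM hC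
    · exact rvc_sound g5 hB hH hM hC
    · exact rva_sound g6 h hB hH hM hC
    · exact par_sound g7 hB hH hM hC
    · exact exc_sound g8 hB hH hM hC

lemma root_sound {C M k a n D k1 k2 f : ℕ} {L : List ℕ} (h : (chk f (root k1 k2) L).isSome = true)
    (hH : Hyp k a n D) (hM : M + a = T (k + 1)) (hC : C + D = T n) (hn : n ≤ 62 * k + 225)
    (h1 : k1 ≤ k) (h2 : k2 = 0 ∨ k ≤ k2) : Good C M := by
  obtain ⟨r, hr⟩ := Option.isSome_iff_exists.1 h
  refine chk_sound hH hM hC f _ L r hr ?_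
  have := hH.ak
  have := hH.aD
  have := hH.d0
  refine ⟨h1, h2, ?_, ?_, ?_, ?_⟩ <;> simp only [root] <;> omega

lemma T_decomp (M : ℕ) (hM : 1 ≤ M) : ∃ k a, M + a = T (k + 1) ∧ a < k := by
  induction M, hM using Nat.le_induction with
  | base => exact ⟨1, 0, rfl, by omega⟩
  | succ M _ ih =>
    obtain ⟨k, a, h1, h2⟩ := ih
    rcases a with _ | a
    · exact ⟨k + 1, k, by rw [T_succ]; omega, by omega⟩
    · exact ⟨k, a, by omega, by omega⟩

theorem good_of_hyp (H : ∀ C M k a n D : ℕ, Hyp k a n D → M + a = T (k + 1) → C + D = T n →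
    n ≤ 62 * k + 225 → Good C M) (M : ℕ) : ∀ C, 2 ≤ M → M < C → Good C M := by
  induction M using Nat.strong_induction_on with
  | _ M ih =>
  intro C h2 hMC
  obtain ⟨k, a, hM, hak⟩ := T_decomp M (by omega)
  obtain ⟨N, D, hC, hD⟩ := T_decomp C (by omega)
  have tk := T_succ k
  have tN := T_succ N
  have k2 : 2 ≤ k := by
    by_contra hc
    have : T (k + 1) ≤ T 2 := T_mono (by omega)
    have : T 2 = 1 := rfl
    omega
  have tk1 : 1 ≤ T k := T_mono (a := 2) k2
  have kN : k ≤ N := by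
    by_contra hc
    have : T (N + 1) ≤ T k := T_mono (by omega)
    omega
  by_cases c1 : D < a
  · exact WIN hM hC hak (by omega) (Or.inl c1)
  have kN' : k + 1 ≤ N := by
    by_contra hc
    obtain rfl : k = N := by omega
    omega
  obtain ⟨E, hE⟩ : ∃ E, E + D = N := ⟨N - D, by omega⟩
  have hC' : C = T N + E := by omega
  by_cases c2 : E + a < k
  · exact W0b hM hC' (by omega) (by omega) c2
  by_cases c3 : E + a = k ∧ 1 ≤ a
  · obtain ⟨N, rfl⟩ : ∃ N', N = N' + 1 := ⟨N - 1, by omega⟩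
    exact MP (N := N) hM (by omega) c3.2 hak (by omega)
  by_cases c4 : a + 1 = k
  · exact WIN hM hC hak (by omega) (Or.inr ⟨c4, by omega⟩)
  by_cases c5 : D % 2 ≠ a % 2
  · exact PAR0 hM hC (by omega) (by omega) c5
  by_cases c6 : a = 0 ∧ 2 ≤ D
  · obtain ⟨rfl, c6⟩ := c6
    exact A0 hM hC k2 (by omega) (by omega) c6
  by_cases c7 : E + a + 1 < 2 * k
  · rcases Nat.eq_zero_or_pos a with ha | ha
    · exact R1 (ε := 1) hM hC' le_rfl (by omega) (by omega) (by omega) c7 (by omega) (by omega)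
        (ih _ (by omega) _ (by omega) (by omega))
    · exact R1 (ε := 0) hM hC' (by omega) (by omega) (by omega) (by omega) c7 (by omega) (by omega)
        (ih _ (by omega) _ (by omega) (by omega))
  by_cases c8 : a = 1 ∧ 2 ≤ D
  · obtain ⟨rfl, c8⟩ := c8
    refine X1 (h := E) (e := 0) hM hC le_rfl c8 (by omega) (by omega) ?_
    have : 1 * E ≤ (D - 1) * E := Nat.mul_le_mul_right E (by omega)
    omega
  by_cases c9 : 2 ≤ a ∧ N + 1 - k ≤ (D - a) * ((k - 2) / (a - 1))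
  · obtain ⟨c9, c10⟩ := c9
    obtain ⟨b, rfl⟩ : ∃ b, a = b + 1 := ⟨a - 1, by omega⟩
    obtain ⟨F, rfl⟩ : ∃ F, D = F + (b + 1) := ⟨D - (b + 1), by omega⟩
    simp only [Nat.add_sub_cancel] at c10
    have e1 := Nat.div_add_mod (k - 2) b
    have e2 : 1 ≤ (k - 2) / b := (Nat.le_div_iff_mul_le (by omega)).2 (by omega)
    generalize (k - 2) % b = e at e1
    obtain ⟨g, hg⟩ : ∃ g, (k - 2) / b = g + 1 := ⟨(k - 2) / b - 1, by omega⟩
    rw [hg] at e1 c10
    refine X1 (h := g) (e := e) hM hC (by omega) (by omega) (by omega) ?_ ?_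
    · rw [Nat.add_sub_cancel]
      rw [Nat.mul_succ] at e1
      omega
    · rw [show F + (b + 1) - 1 = F + b by omega, Nat.add_mul]
      rw [Nat.mul_succ] at e1 c10
      omega
  by_cases c11 : N + 1 ≤ 62 * k + 225
  · refine H C M k a (N + 1) D ⟨by omega, by omega, by omega, fun h => by omega, fun h => ?_,
      by omega⟩ hM hC c11
    by_contra hc
    exact c9 ⟨h, by omega⟩
  · obtain ⟨G, hG⟩ : ∃ G, 2 * G = 2 * (N + 1) + 1 + D + (a + 1) % 2 :=
      ⟨(2 * (N + 1) + 1 + D + (a + 1) % 2) / 2, by omega⟩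
    refine PAR hM hC (by omega) (by omega) hG ?_
    have e1 : 2 * G ≤ 3 * (N + 1 + 2) := by omega
    have e2 : 62 * k + 225 ≤ N + 1 + 2 := by omega
    generalize N + 1 + 2 = W at e1 e2
    have e3 := Nat.mul_le_mul_left (41 * (k + 2) + 64) e1
    have e4 := Nat.mul_le_mul_left W e2
    nlinarith

end Pool.Agent.P.MP_ea54b6_co
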